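import Pool.Agent.Helper31_Dich.Top

section

/-!
# The other cases
-/

namespace Helper31Con.ML

open Function Filter Fm

variable {con : Fm} {g : ℕ → ℕ} {s₀ : ℕ} (I : Iface (Rel con g s₀)) (J : Iface RM)
  {k D : ℕ} {w : ℕ → ℕ}

/-- The first refutation at a node beyond `b`. -/
lemma first_node {T : List Fm} (hk : 1 ≤ k) {m : ℕ} (hwm : 1 ≤ w m) (b : ℕ)
    (h : ∃ n, Prov T n .bot) : ∃ i, b < i ∧ Prov T (nx k w m i) .bot ∧
      ∀ j, b < j → j < i → ¬ Prov T (nx k w m j) .bot := by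
  obtain ⟨ℓ, hℓ⟩ := h
  have hex : ∃ i, b < i ∧ Prov T (nx k w m i) .bot := by
    refine ⟨b + 1 + ℓ, by omega, hℓ.mono ?_⟩
    have h1 := le_tb' hk (b + 1 + ℓ)
    have h2 : tb k (b + 1 + ℓ) ≤ nx k w m (b + 1 + ℓ) := tb_le_nx hwm
    omega
  classical
  obtain ⟨h1, h2⟩ := Nat.find_spec hex
  exact ⟨Nat.find hex, h1, h2, fun j hj hj' hp => Nat.find_min hex hj' ⟨hj, hp⟩⟩

/-- The middle levels. -/
lemma case_mid (hcon : IsCon con) (hk : 2 ≤ k) (hw : Monotone w) (hw0 : 1 ≤ w 0) {F : ℕ → ℕ}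
    (hFE : EB F) (hFm : Monotone F) (hFk : ∀ i, F (nx k w D i) ≤ tb k (i + 1))
    (hbase : ∀ᶠ B in rich, Base I F B) {m d : ℕ} (hmd : m + 1 + d = D) :
    ∀ᶠ B in rich, (∀ β ∈ B, TrueS β) → ∀ p v : ℕ,
      (∀ n, ¬ Prov (Tmv I J k D w B m (nd p v)) n .bot) →
      (∀ b, ∃ n, Prov (Tmv I J k D w B (m + 1) (nd p b)) n .bot) →
      ∃ (A : List Fm) (c : ℕ), (∀ φ ∈ A, TrueS φ) ∧ (∀ φ ∈ B, φ ∈ A) ∧
        (∀ n, ¬ Prov (conS con A :: A) n .bot) ∧
        ∀ M, ∃ i ≥ M, ∀ n ≤ nx k w m i,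
          Prov A (2 ^ (c * tb k i ^ w (m + 1))) (conN con (conS con A :: A) n) := by
  have hwm : 1 ≤ w m := hw0.trans (hw (Nat.zero_le _))
  have hwm1 : 1 ≤ w (m + 1) := hw0.trans (hw (Nat.zero_le _))
  obtain ⟨f1, hf1, g1⟩ := lt_step I J k D w hcon m d
  obtain ⟨s, M', hs, hM', g2⟩ := low_facts I J (k := k) (D := D) hcon (by omega) hbase
    (m := m + 1) (by omega) hwm1
  obtain ⟨h, hh⟩ := thr I J hFE
  obtain ⟨fd, Fd, hfd, gd⟩ := con_down hcon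
  obtain ⟨fd', hfd'P, hfd'm, hfd'⟩ := hfd.exists_mono
  filter_upwards [rich_up g1, g2, rich_up gd, rich_up hbase] with
    B g1 g2 gd hF hB p v hTcons hinc
  obtain ⟨V, hV⟩ : ∃ V, V = nd p v := ⟨_, rfl⟩
  rw [← hV] at hTcons
  set A := Am I J k D w B m V with hAdef
  have hBA : ∀ β ∈ B, β ∈ A := Am_mem I J m V
  replace g1 := g1 A hBA
  replace gd := gd A hBA
  replace hF := hF A hBA
  obtain ⟨c, hc⟩ : ∃ c, c = pk I J k D w B := ⟨_, rfl⟩
  obtain ⟨t, ht⟩ : ∃ t, t = lc (Tmv I J k D w B m V) := ⟨_, rfl⟩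
  obtain ⟨K0, hK0⟩ : ∃ K0, K0 = Fd t := ⟨_, rfl⟩
  have hX := sX_true hcon hB (I := I) (J := J) (k := k) (w := w) (by omega) hTcons
  have hpV := lt_nd_l p v
  have hvV := lt_nd_r p v
  rw [← hV] at hpV hvV
  set s3 : ℕ → ℕ := fun N => s N + N with hs3
  set MM : ℕ → ℕ := fun N => f1 N + M' N + N with hMM
  set PP : ℕ → ℕ := fun N => (f1 N * (s3 N + 1)) * MM N with hPP
  have z1 : SE (fun K => 2 ^ K) := ⟨1, fun K => Nat.pow_le_pow_right (by omega) (by omega)⟩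
  have z2 : PB PP := (hf1.mul ((hs.add PB.id).add (PB.const 1))).mul ((hf1.add hM').add PB.id)
  have z9 : SE (fun K => fd' (2 ^ K + PP (2 ^ K) + K0)) :=
    SE.pb hfd'P ((z1.add (SE.pb z2 z1)).add (SE.const K0))
  obtain ⟨c1, hc1⟩ := z9
  refine ⟨A, 2 * c1, Am_true hcon hB hX, hBA, hTcons, fun M => ?_⟩
  set b := M + p + v + c + D + h + 1 with hb
  obtain ⟨i, hbi, hi1, hi2⟩ := first_node (T := Tmv I J k D w B (m + 1) (nd p b)) (k := k)
    (w := w) (by omega) (m := m + 1) hwm1 b (hinc b)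
  obtain ⟨V', hV'⟩ : ∃ V', V' = nd p b := ⟨_, rfl⟩
  rw [← hV'] at hi1 hi2
  refine ⟨i, by omega, fun n hn => ?_⟩
  obtain ⟨N, hN⟩ : ∃ N, N = nx k w (m + 1) i := ⟨_, rfl⟩
  obtain ⟨n', hn'⟩ : ∃ n', n' = nx k w m i := ⟨_, rfl⟩
  obtain ⟨K, hK⟩ : ∃ K, K = tb k i ^ w (m + 1) := ⟨_, rfl⟩
  have hNK : N = 2 ^ K := by rw [hN, hK]; rfl
  have hT2 := two_le_tb k i
  have hTN : tb k i ≤ N := by rw [hN]; exact tb_le_nx hwm1
  have hTK : tb k i ≤ K := by rw [hK]; exact tb_le_pow hwm1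
  have hiT : i ≤ tb k i := le_tb' (by omega) i
  have hkiT : k * i ≤ tb k i := mul_le_tb i
  have hbi' : tb k b ≤ tb k i := tb_mono hbi.le
  have hn'N : n' ≤ N := by rw [hn', hN]; exact nx_mono' hw (by omega)
  have hVq' : V' ≤ qq b := by rw [hV']; exact nd_le_qq (by omega) le_rfl
  have hVq : V ≤ qq b := by rw [hV]; exact nd_le_qq (by omega) (by omega)
  obtain ⟨a2, a3, a4, a5, a6⟩ := hh B k D w b (m + 1) V' hk (by omega) (by omega)
    (by omega) hVq' (by rw [← hc]; omega)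
  obtain ⟨_, _, _, b5, b6⟩ := hh B k D w b m V hk (by omega) (by omega)
    (by omega) hVq (by rw [← hc]; omega)
  have hbq := qq_ge b
  rw [← ht] at b5
  have hFj : ∀ j < i, F (nx k w (m + 1) j) ≤ N := by
    intro j hj
    calc F (nx k w (m + 1) j) ≤ F (nx k w D j) := hFm (nx_mono' hw (by omega))
      _ ≤ tb k (j + 1) := hFk j
      _ ≤ tb k i := tb_mono hj
      _ ≤ N := hTN
  obtain ⟨q1, q2, q3⟩ := g2 A hBA hB p b V' i N (qq b) hV' hN hbi a2 hVq' (by omega) a3 a4 a5 a6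
    hFj hi2 (by rw [hN]; exact hi1)
  rw [← hc] at a2 q1 q2 q3
  obtain ⟨tA, htA⟩ : ∃ t, t = lc (Am I J k D w B (m + 1) V') := ⟨_, rfl⟩
  rw [← htA] at a6 q2 q3
  have hs3N : s3 N = s N + N := rfl
  have hMMN : MM N = f1 N + M' N + N := rfl
  have hDd : D - (m + 1) = d := by omega
  rw [hDd] at q2
  have q4 : Pr A (F (qq b)) (F (qq b)) (I.A 25 (.num m) (.num V) (.num c) (.num t)) :=
    hF.cdt (qq b) m V c t (by omega) hVq a2 (by rw [hc, ht]; exact (cdT_iff (by omega)).mpr rfl)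
  have key := g1 c p v b V V' i n' tA t N (MM N) (s3 N) hV hV' (by omega) hbi hn'
    (by omega) (by omega) (by omega) (by omega) (by omega) (by omega) hn'N (by omega) (by omega)
    (by omega) (by
      rw [hAdef, hc]
      unfold Am
      rw [show D - m = d + 1 by omega]
      exact List.mem_cons_self)
    (q1.mono (by omega) (by omega)) (q2.mono (by omega) (by omega)) (q3.mono (by omega) (by omega))
    (q4.mono (by omega) (by omega))
  have key2 := gd (Tmv I J k D w B m V) n' n _ (Tmv_sentence hcon hB m V) (by omega) (by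
    rw [← ht]; exact key.prov)
  have hTe : conS con A :: A = Tmv I J k D w B m V := rfl
  rw [hTe, hcon.conN_eq]
  refine key2.mono ((hfd' _).trans ((hfd'm ?_).trans ((hc1 K).trans ?_)))
  · rw [← ht, ← hK0, ← hNK]
    exact Nat.add_le_add_right (Nat.add_le_add_right hn'N _) _
  · rw [← hK]
    exact se_absorb (by omega)

/-- The case where all versions at the bottom level are refuted. -/
lemma case_bot (hcon : IsCon con) (hk : 2 ≤ k) (hw : Monotone w) (hw0 : 1 ≤ w 0) {F f' : ℕ → ℕ}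
    (hFE : EB F) (hFm : Monotone F) (hf'E : EB f') (hFk : ∀ i, F (nx k w D i) ≤ tb k (i + 1))
    (hbase : ∀ᶠ B in rich, Base I F B)
    (hdec : ∀ᶠ B in rich, ∀ N, ∀ j < 16, DecR I B (f' N) N j) :
    ∃ c : ℕ, ∀ᶠ B in rich, (∀ β ∈ B, TrueS β) → ∀ (L : List (List Fm)) (C : ℕ),
      (∀ S ∈ L, GoodT S) →
      (∀ b, ∃ n, Prov (Tmv I J k D w B 0 (nd (nd (cN (L.map lc)) C) b)) n .bot) →
      ∀ M, ∃ i ≥ M, ∀ S ∈ L, ∀ y ≤ C * tb k i ^ w (D + 1),
        Prov (thS I J k D w B :: B) (2 ^ (c * tb k i ^ w 0)) (conN con S y) := by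
  obtain ⟨f1, hf1, g1⟩ := bot_step I J k D w hcon
  obtain ⟨s, M', hs, hM', g2⟩ := low_facts I J (k := k) (D := D) hcon (by omega) hbase
    (m := 0) (Nat.zero_le D) hw0
  obtain ⟨h, hh⟩ := thr I J hFE
  obtain ⟨h', hh'⟩ := eb_le_tb hf'E
  set NN : ℕ → ℕ := fun n => n + n * n ^ w (D + 1) with hNN
  have hNNP : PB NN := PB.id.add (PB.id.mul (PB.id.pow _))
  set s3 : ℕ → ℕ := fun n => s n + n with hs3
  set MM : ℕ → ℕ := fun n => f1 (NN n) + M' n + n with hMM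
  set PP : ℕ → ℕ := fun n => (f1 (NN n) * (s3 n + 1)) * MM n with hPP
  have z2 : PB PP := ((hf1.comp hNNP).mul ((hs.add PB.id).add (PB.const 1))).mul
    (((hf1.comp hNNP).add hM').add PB.id)
  obtain ⟨c1, hc1⟩ : SE (fun K => PP (2 ^ K)) :=
    SE.pb z2 ⟨1, fun K => Nat.pow_le_pow_right (by omega) (by omega)⟩
  refine ⟨2 * c1, ?_⟩
  filter_upwards [rich_up g1, g2, rich_up hdec] with B g1 g2 hd hB L C hL hinc M
  set A := thS I J k D w B :: B with hAdef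
  have hBA : ∀ β ∈ B, β ∈ A := fun _ h => List.mem_cons_of_mem _ h
  replace g1 := g1 A hBA
  replace hd := hd A hBA
  obtain ⟨p, hp⟩ : ∃ p, p = nd (cN (L.map lc)) C := ⟨_, rfl⟩
  rw [← hp] at hinc
  obtain ⟨c, hc⟩ : ∃ c, c = pk I J k D w B := ⟨_, rfl⟩
  have hap := lt_nd_l (cN (L.map lc)) C
  have hCp := lt_nd_r (cN (L.map lc)) C
  rw [← hp] at hap hCp
  set b := M + p + c + D + h + h' + 1 with hb
  obtain ⟨i, hbi, hi1, hi2⟩ := first_node (T := Tmv I J k D w B 0 (nd p b)) (k := k)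
    (w := w) (by omega) (m := 0) hw0 b (hinc b)
  obtain ⟨V', hV'⟩ : ∃ V', V' = nd p b := ⟨_, rfl⟩
  rw [← hV'] at hi1 hi2
  refine ⟨i, by omega, fun S hS y hy => ?_⟩
  obtain ⟨N, hN⟩ : ∃ N, N = nx k w 0 i := ⟨_, rfl⟩
  obtain ⟨K, hK⟩ : ∃ K, K = tb k i ^ w 0 := ⟨_, rfl⟩
  have hNK : N = 2 ^ K := by rw [hN, hK]; rfl
  have hT2 := two_le_tb k i
  have hTN : tb k i ≤ N := by rw [hN]; exact tb_le_nx hw0
  have hTK : tb k i ≤ K := by rw [hK]; exact tb_le_pow hw0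
  have hiT : i ≤ tb k i := le_tb' (by omega) i
  have hkiT : k * i ≤ tb k i := mul_le_tb i
  have hbi' : tb k b ≤ tb k i := tb_mono hbi.le
  have hbT : b ≤ tb k b := le_tb' (by omega) b
  have hVq' : V' ≤ qq b := by rw [hV']; exact nd_le_qq (by omega) le_rfl
  obtain ⟨a2, a3, a4, a5, a6⟩ := hh B k D w b 0 V' hk (by omega) (by omega)
    (by omega) hVq' (by rw [← hc]; omega)
  have hbq := qq_ge b
  have hFj : ∀ j < i, F (nx k w 0 j) ≤ N := by
    intro j hj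
    calc F (nx k w 0 j) ≤ F (nx k w D j) := hFm (nx_mono' hw (by omega))
      _ ≤ tb k (j + 1) := hFk j
      _ ≤ tb k i := tb_mono hj
      _ ≤ N := hTN
  obtain ⟨q1, q2, q3⟩ := g2 A hBA hB p b V' i N (qq b) hV' hN hbi a2 hVq' (by omega) a3 a4 a5 a6
    hFj hi2 (by rw [hN]; exact hi1)
  rw [← hc] at a2 q1 q2 q3
  obtain ⟨tA, htA⟩ : ∃ t, t = lc (Am I J k D w B 0 V') := ⟨_, rfl⟩
  rw [← htA] at a6 q2 q3
  have hs3N : s3 N = s N + N := rfl
  have hMMN : MM N = f1 (NN N) + M' N + N := rfl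
  have hNNN : NN N = N + N * N ^ w (D + 1) := rfl
  have hyN : y ≤ N * N ^ w (D + 1) :=
    hy.trans (Nat.mul_le_mul (by omega) (Nat.pow_le_pow_left hTN _))
  have hzS : lc S ∈ L.map lc := List.mem_map_of_mem hS
  have hz := mem_le_cN hzS
  rw [Nat.sub_zero] at q2
  have q4 : Pr A (f' b) (f' b) (I.A 11 (.num (lc S)) .zero .zero .zero) :=
    (hd b 11 (by omega) (lc S) 0 0 0 (by omega) (by omega) (by omega) (by omega)).1
      ⟨S, rfl, (hL S hS).1⟩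
  have h'b := hh' k b hk (by omega)
  have key := g1 B (L.map lc) c C p b V' (lc S) i y tA (NN N) (MM N) (s3 N) hc hp hV' hy hzS
    (by omega) (by omega) (by omega) (by omega) (by omega) (by omega) (by omega)
    (by omega) List.mem_cons_self
    (q1.mono (by omega) (by omega)) (q2.mono (by omega) (by omega)) (q3.mono (by omega) (by omega))
    (q4.mono (by omega) (by omega))
  rw [hcon.conN_eq]
  refine key.prov.mono ?_
  have h9 : PP N ≤ 2 ^ (c1 * (K + 1)) := by rw [hNK]; exact hc1 K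
  exact h9.trans (by rw [← hK]; exact se_absorb (by omega))

end Helper31Con.ML

end

section

/-!
# The main theorem with several levels
-/

namespace Helper31Con.ML

open Function Filter Fm

/-- Success at level `m`: theories with short proofs of their finite consistency. -/
def SuccAt (con : Fm) (B₀ : List Fm) (k : ℕ) (w : ℕ → ℕ) (m : ℕ) (A : List Fm) (c : ℕ)
    (P : (ℕ → Prop) → Prop) : Prop :=
  (∀ φ ∈ A, TrueS φ) ∧ (∀ φ ∈ B₀, φ ∈ A) ∧ (∀ φ ∈ Q, φ ∈ A) ∧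
    (∀ n, ¬ Prov (conS con A :: A) n .bot) ∧
    P fun i => ∀ n ≤ nx k w m i,
      Prov A (2 ^ (c * tb k i ^ w (m + 1))) (conN con (conS con A :: A) n)

theorem dich {con : Fm} (hcon : IsCon con) (B₀ : List Fm) (hB₀ : ∀ β ∈ B₀, TrueS β)
    (D : ℕ) (w : ℕ → ℕ) (hw : Monotone w) (hw0 : 1 ≤ w 0) :
    ∃ k, 2 ≤ k ∧
    ((∃ (A : List Fm) (c i₀ : ℕ), SuccAt con B₀ k w D A c fun p => ∀ i ≥ i₀, p i) ∨
    (∃ m < D, ∃ (A : List Fm) (c : ℕ), SuccAt con B₀ k w m A c fun p => ∀ M, ∃ i ≥ M, p i) ∨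
    (∃ (E : List Fm) (c : ℕ), (∀ φ ∈ E, TrueS φ) ∧ (∀ φ ∈ B₀, φ ∈ E) ∧ (∀ φ ∈ Q, φ ∈ E) ∧
      ∀ (L : List (List Fm)) (C : ℕ), (∀ S ∈ L, GoodT S) → ∀ M, ∃ i ≥ M, ∀ S ∈ L,
        ∀ y ≤ C * tb k i ^ w (D + 1), Prov E (2 ^ (c * tb k i ^ w 0)) (conN con S y))) := by
  obtain ⟨I⟩ := exists_iface con (eq (x 1) (.succ (x 0))) (fun n => n + 1) 1 (fun e => Iff.rfl)
    ⟨fun a b h => Nat.add_le_add_right h 1, le_rfl, fun n _ => Nat.lt_succ_self n⟩
  obtain ⟨J⟩ := exists_ifaceRM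
  obtain ⟨F, hF, hFm, hbase⟩ := exists_base I hcon
  obtain ⟨f', hf', hdec⟩ := dec_all I
  have hEB : EB (fun T => F (2 ^ (T ^ w D))) :=
    hF.comp (EB.pow2.comp (EB.pow EB.id (EB.const (w D))))
  obtain ⟨h, hh⟩ := hEB
  obtain ⟨k, hk⟩ : ∃ k, k = 2 * h + 2 := ⟨_, rfl⟩
  have hk2 : 2 ≤ k := by omega
  have hFk : ∀ i, F (nx k w D i) ≤ tb k (i + 1) := by
    intro i
    rw [tb_succ]
    calc F (nx k w D i) = F (2 ^ (tb k i ^ w D)) := rfl
      _ ≤ tw h (tb k i + h) := hh _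
      _ ≤ tw h (tw h (tb k i)) := tw_mono _ (by have := add_le_tw h (tb k i); omega)
      _ = tw (h + h) (tb k i) := (tw_add _ _ _).symm
      _ ≤ tw k (tb k i) := tw_le_tw (by omega) _
  refine ⟨k, hk2, ?_⟩
  obtain ⟨cb, hbot⟩ := case_bot I J (k := k) (D := D) hcon hk2 hw hw0 hF hFm hf' hFk hbase hdec
  have hmid : ∀ m ∈ Set.Iio D, ∀ᶠ B in rich, (∀ β ∈ B, TrueS β) → ∀ p v : ℕ,
      (∀ n, ¬ Prov (Tmv I J k D w B m (nd p v)) n .bot) →
      (∀ b, ∃ n, Prov (Tmv I J k D w B (m + 1) (nd p b)) n .bot) →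
      ∃ (A : List Fm) (c : ℕ), (∀ φ ∈ A, TrueS φ) ∧ (∀ φ ∈ B, φ ∈ A) ∧
        (∀ n, ¬ Prov (conS con A :: A) n .bot) ∧
        ∀ M, ∃ i ≥ M, ∀ n ≤ nx k w m i,
          Prov A (2 ^ (c * tb k i ^ w (m + 1))) (conN con (conS con A :: A) n) := by
    intro m hm
    have hm' : m < D := hm
    exact case_mid I J hcon hk2 hw hw0 hF hFm hFk hbase (m := m) (d := D - (m + 1)) (by omega)
  obtain ⟨B₁, hB₁, hB₁'⟩ := rich_iff.mp (((case_top I J (k := k) (D := D) hcon (by omega) hw hw0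
    hbase).and hbot).and ((eventually_all_finite (Set.finite_Iio D)).mpr hmid))
  set B := B₁ ++ (B₀ ++ Q) with hBdef
  have hB : ∀ β ∈ B, TrueS β := by
    intro β hβ
    rcases List.mem_append.mp hβ with h | h
    · exact hB₁ β h
    · rcases List.mem_append.mp h with h | h
      · exact hB₀ β h
      · exact Q_true β h
  obtain ⟨⟨c1, c2⟩, c3⟩ := hB₁' B (fun β hβ => List.mem_append_left _ hβ)
  have hB₀B : ∀ φ ∈ B₀, φ ∈ B := fun φ hφ =>
    List.mem_append_right _ (List.mem_append_left _ hφ)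
  have hQB : ∀ φ ∈ Q, φ ∈ B := fun φ hφ =>
    List.mem_append_right _ (List.mem_append_right _ hφ)
  classical
  let P : ℕ → Prop := fun m => ∃ (L : List (List Fm)) (C v : ℕ), (∀ S ∈ L, GoodT S) ∧
    ∀ n, ¬ Prov (Tmv I J k D w B m (nd (nd (cN (L.map lc)) C) v)) n .bot
  by_cases hP0 : P 0
  · set m := Nat.findGreatest P D with hmdef
    have hPm : P m := Nat.findGreatest_spec (m := 0) (Nat.zero_le D) hP0
    have hmD : m ≤ D := Nat.findGreatest_le D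
    obtain ⟨L, C, v, hL, hT⟩ := hPm
    rcases Nat.lt_or_ge m D with hlt | hge
    · right; left
      have hinc : ∀ b, ∃ n, Prov (Tmv I J k D w B (m + 1) (nd (nd (cN (L.map lc)) C) b)) n
          .bot := by
        intro b
        by_contra hb
        push Not at hb
        exact Nat.findGreatest_is_greatest (P := P) (n := D) (k := m + 1) (by omega) (by omega)
          ⟨L, C, b, hL, hb⟩
      obtain ⟨A, c, h1, h2, h3, h4⟩ := c3 m hlt hB _ v hT hinc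
      exact ⟨m, hlt, A, c, h1, fun φ hφ => h2 φ (hB₀B φ hφ), fun φ hφ => h2 φ (hQB φ hφ), h3, h4⟩
    · left
      have hmD' : m = D := le_antisymm hmD hge
      rw [hmD'] at hT
      obtain ⟨A, c, i₀, h1, h2, h3, h4⟩ := c1 hB L C v hL hT
      exact ⟨A, c, i₀, h1, fun φ hφ => h2 φ (hB₀B φ hφ), fun φ hφ => h2 φ (hQB φ hφ), h3, h4⟩
  · right; right
    refine ⟨thS I J k D w B :: B, cb, ?_, fun φ hφ => List.mem_cons_of_mem _ (hB₀B φ hφ),
      fun φ hφ => List.mem_cons_of_mem _ (hQB φ hφ), fun L C hL => c2 hB L C hL fun b => ?_⟩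
    · intro φ hφ
      rcases List.mem_cons.mp hφ with rfl | hφ
      · exact thS_true hcon hB
      · exact hB φ hφ
    · by_contra hb
      push Not at hb
      exact hP0 ⟨L, C, b, hL, hb⟩

end Helper31Con.ML

end

section

/-!
# The dichotomy
-/

namespace Helper31Con.ML

open Function Filter Fm

/-- Finitely many consistent lists have a small code. -/
lemma good_list (j : ℕ) : ∃ L : List (List Fm), (∀ S ∈ L, GoodT S) ∧
    ∀ S, GoodT S → lc S ≤ j → S ∈ L := by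
  have hfin : {S : List Fm | GoodT S ∧ lc S ≤ j}.Finite := by
    refine Set.Finite.subset (Set.Finite.preimage (f := lc)
      (fun a _ b _ h => lc_inj h) (Set.finite_Iic j)) ?_
    intro S hS
    exact hS.2
  refine ⟨hfin.toFinset.toList, fun S hS => ?_, fun S hS hj => ?_⟩
  · have := (Finset.mem_toList.mp hS)
    rw [Set.Finite.mem_toFinset] at this
    exact this.1
  · rw [Finset.mem_toList, Set.Finite.mem_toFinset]
    exact ⟨hS, hj⟩

/-- Diagonalization. -/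
lemma diag {f : ℕ → ℕ} (hf : ∀ j, j ≤ f j) (j₀ : ℕ) :
    ∃ m₀, ∀ m ∈ Set.range f, m₀ ≤ m → ∃ j ≥ j₀, f j = m := by
  refine ⟨(Finset.range j₀).sup f + 1, ?_⟩
  rintro m ⟨j, rfl⟩ hm
  refine ⟨j, ?_, rfl⟩
  by_contra hlt
  have : f j ≤ (Finset.range j₀).sup f :=
    Finset.le_sup (f := f) (Finset.mem_range.mpr (not_le.mp hlt))
  omega

lemma infinite_range {f : ℕ → ℕ} (hf : ∀ j, j ≤ f j) : (Set.range f).Infinite := by
  refine Set.infinite_of_not_bddAbove ?_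
  rintro ⟨b, hb⟩
  have h1 : f (b + 1) ≤ b := hb ⟨b + 1, rfl⟩
  have h2 := hf (b + 1)
  omega

lemma floor_of_le {l : ℕ} {r : ℝ} (h : (l : ℝ) ≤ r) : 2 ^ l ≤ ⌊(2 : ℝ) ^ r⌋₊ := by
  refine Nat.le_floor ?_
  push_cast
  rw [← Real.rpow_natCast]
  exact Real.rpow_le_rpow_of_exponent_le (by norm_num) h

/-- Real powers of the logarithm of a node. -/
lemma node_le {k i m c c' : ℕ} {w : ℕ → ℕ} {α : ℝ} (h : (w (m + 1) : ℝ) ≤ w m * α)
    (hc : c ≤ c') :
    2 ^ (c * tb k i ^ w (m + 1)) ≤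
      ⌊(2 : ℝ) ^ ((c' : ℝ) * Real.logb 2 (nx k w m i) ^ α)⌋₊ := by
  refine floor_of_le ?_
  have hT : (1 : ℝ) ≤ tb k i := by
    have := two_le_tb k i
    exact_mod_cast (by omega : 1 ≤ tb k i)
  have h4 : Real.logb 2 (nx k w m i) = (tb k i : ℝ) ^ (w m : ℕ) := by
    unfold nx
    push_cast
    rw [← Real.rpow_natCast 2 (tb k i ^ w m), Real.logb_rpow (by norm_num) (by norm_num)]
    push_cast
    rfl
  rw [h4, ← Real.rpow_natCast, ← Real.rpow_mul (by linarith)]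
  push_cast
  rw [← Real.rpow_natCast]
  exact mul_le_mul (by exact_mod_cast hc) (Real.rpow_le_rpow_of_exponent_le hT h)
    (by positivity) (by positivity)

lemma nx_ge {k m i : ℕ} {w : ℕ → ℕ} (hk : 1 ≤ k) (hw : 1 ≤ w m) : i ≤ nx k w m i := by
  have h6 := le_tb' hk i
  have h7 : tb k i ≤ nx k w m i := tb_le_nx hw
  omega

section

variable {con : Fm} (hcon : IsCon con) (B₀ : List Fm) (hB₀ : ∀ β ∈ B₀, TrueS β)
include hcon hB₀

/-- The dichotomy for given levels. -/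
theorem dich2 {α β : ℝ} (D : ℕ) (w : ℕ → ℕ) (hw : Monotone w) (hw0 : 1 ≤ w 0)
    (h1 : ∀ m ≤ D, (w (m + 1) : ℝ) ≤ w m * α) (h2 : (w 0 : ℝ) * β ≤ w (D + 1)) :
    (∃ (A : List Fm) (c : ℕ), (∀ φ ∈ A, TrueS φ) ∧ (∀ φ ∈ B₀, φ ∈ A) ∧ (∀ φ ∈ Q, φ ∈ A) ∧
      (∀ k, ¬ Prov (conS con A :: A) k .bot) ∧
      ∀ x : ℕ, ∃ N ≥ x, (D = 0 → w 0 = 1 → N ≤ (fun t => 2 ^ t)^[c] x) ∧
        ∀ n ≤ N, Prov A ⌊(2 : ℝ) ^ ((c : ℝ) * Real.logb 2 N ^ α)⌋₊
          (conN con (conS con A :: A) n)) ∨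
    (∃ (E : List Fm) (J : Set ℕ), (∀ φ ∈ E, TrueS φ) ∧ (∀ φ ∈ B₀, φ ∈ E) ∧ (∀ φ ∈ Q, φ ∈ E) ∧
      J.Infinite ∧
      ∀ S : List Fm, (∀ φ ∈ S, Fm.Sentence φ) → (∀ k, ¬ Prov S k .bot) → ∀ d : ℕ,
        ∃ m₀, ∀ m ∈ J, m₀ ≤ m → ∀ n : ℕ, (n : ℝ) ≤ d * (m : ℝ) ^ β →
          Prov E (2 ^ m) (conN con S n)) := by
  have hwm : ∀ m, 1 ≤ w m := fun m => hw0.trans (hw (Nat.zero_le m))
  obtain ⟨k, hk, h⟩ := dich hcon B₀ hB₀ D w hw hw0
  rcases h with ⟨A, c, i₀, a1, a2, a3, a4, a5⟩ | ⟨m, hm, A, c, a1, a2, a3, a4, a5⟩ |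
    ⟨E, c, a1, a2, a3, a4⟩
  · left
    refine ⟨A, c + (k + 1) + (nx k w D i₀ + 1), a1, a2, a3, a4, fun x => ?_⟩
    obtain ⟨z, hz⟩ : ∃ z, z = x + (nx k w D i₀ + 1) := ⟨_, rfl⟩
    have hex : ∃ i, z ≤ nx k w D i := ⟨z, nx_ge (by omega) (hwm D)⟩
    classical
    obtain ⟨i, hi⟩ : ∃ i, i = Nat.find hex := ⟨_, rfl⟩
    have hi1 : z ≤ nx k w D i := by rw [hi]; exact Nat.find_spec hex
    have hi0 : i₀ < i := by
      by_contra hlt
      have : nx k w D i ≤ nx k w D i₀ := nx_mono (not_lt.mp hlt)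
      omega
    obtain ⟨b, rfl⟩ : ∃ b, i = b + 1 := ⟨i - 1, by omega⟩
    have hi2 : nx k w D b < z := by
      by_contra hlt
      exact Nat.find_min hex (by omega) (not_lt.mp hlt)
    refine ⟨nx k w D (b + 1), by omega, fun hD0 hw1 => ?_, fun n hn => ?_⟩
    · subst hD0
      have hnx : ∀ i, nx k w 0 i = 2 ^ tb k i := fun i => by
        unfold nx; rw [hw1, pow_one]
      rw [← tw_eq_iter, hnx, tb_succ, ← tw_succ]
      rw [hnx] at hi2
      have h6 : tb k b ≤ z := (Nat.lt_two_pow_self).le.trans hi2.le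
      have h7 : z ≤ tw (nx k w 0 i₀ + 1) x := by
        have := add_le_tw (nx k w 0 i₀ + 1) x
        omega
      calc tw (k + 1) (tb k b) ≤ tw (k + 1) (tw (nx k w 0 i₀ + 1) x) :=
            tw_mono (k + 1) (h6.trans h7)
        _ = tw (k + 1 + (nx k w 0 i₀ + 1)) x := (tw_add _ _ _).symm
        _ ≤ _ := tw_le_tw (by omega) x
    · exact (a5 (b + 1) (by omega) n hn).mono (node_le (h1 D le_rfl) (by omega))
  · left
    refine ⟨A, c, a1, a2, a3, a4, fun x => ?_⟩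
    obtain ⟨i, hix, h6⟩ := a5 x
    exact ⟨nx k w m i, hix.trans (nx_ge (by omega) (hwm m)), fun hD0 => absurd hm (by omega),
      fun n hn => (h6 n hn).mono (node_le (h1 m hm.le) le_rfl)⟩
  · right
    obtain ⟨e, he⟩ : ∃ e : ℕ, e = ⌈((c + 1 : ℕ) : ℝ) ^ β⌉₊ := ⟨_, rfl⟩
    have hL : ∀ j : ℕ, ∃ i ≥ j, ∀ S, GoodT S → lc S ≤ j → ∀ y ≤ (j * e) * tb k i ^ w (D + 1),
        Prov E (2 ^ (c * tb k i ^ w 0)) (conN con S y) := by
      intro j
      obtain ⟨L, hL1, hL2⟩ := good_list j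
      obtain ⟨i, hi, h5⟩ := a4 L (j * e) hL1 j
      exact ⟨i, hi, fun S hS hj y hy => h5 S (hL2 S hS hj) y hy⟩
    choose i hi hP using hL
    obtain ⟨f, hf⟩ : ∃ f : ℕ → ℕ, f = fun j => (c + 1) * tb k (i j) ^ w 0 := ⟨_, rfl⟩
    have hfj : ∀ j, j ≤ f j := by
      intro j
      rw [hf]
      have h5 := le_tb' (show 1 ≤ k by omega) (i j)
      have h6 : tb k (i j) ≤ tb k (i j) ^ w 0 := tb_le_pow hw0
      have h7 : tb k (i j) ^ w 0 ≤ (c + 1) * tb k (i j) ^ w 0 :=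
        Nat.le_mul_of_pos_left _ (by omega)
      have h8 := hi j
      show j ≤ (c + 1) * tb k (i j) ^ w 0
      omega
    refine ⟨E, Set.range f, a1, a2, a3, infinite_range hfj, fun S hS hSc d => ?_⟩
    obtain ⟨m₀, hm₀⟩ := diag hfj (lc S + d)
    refine ⟨m₀, fun m hm hmm n hn => ?_⟩
    obtain ⟨j, hj, rfl⟩ := hm₀ m hm hmm
    have hTj : (1 : ℝ) ≤ tb k (i j) := by
      have := two_le_tb k (i j)
      exact_mod_cast (by omega : 1 ≤ tb k (i j))
    have h5 := hP j S ⟨hS, hSc⟩ (by omega) n ?_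
    · refine h5.mono (Nat.pow_le_pow_right (by omega) ?_)
      rw [hf]
      exact Nat.mul_le_mul_right _ (by omega)
    · have h6 : ((f j : ℕ) : ℝ) ^ β ≤ e * (tb k (i j) : ℝ) ^ (w (D + 1) : ℕ) := by
        rw [hf]
        show (((c + 1) * tb k (i j) ^ w 0 : ℕ) : ℝ) ^ β ≤ _
        rw [Nat.cast_mul, Real.mul_rpow (Nat.cast_nonneg _) (Nat.cast_nonneg _)]
        refine mul_le_mul (by rw [he]; exact Nat.le_ceil _) ?_ (by positivity) (by positivity)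
        push_cast
        rw [← Real.rpow_natCast, ← Real.rpow_natCast, ← Real.rpow_mul (by linarith)]
        exact Real.rpow_le_rpow_of_exponent_le hTj h2
      have h7 : (n : ℝ) ≤ (((j * e) * tb k (i j) ^ w (D + 1) : ℕ) : ℝ) := by
        have hdj : (d : ℝ) ≤ j := by exact_mod_cast (by omega : d ≤ j)
        calc (n : ℝ) ≤ d * ((f j : ℕ) : ℝ) ^ β := hn
          _ ≤ j * (e * (tb k (i j) : ℝ) ^ (w (D + 1) : ℕ)) :=
            mul_le_mul hdj h6 (by positivity) (by positivity)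
          _ = _ := by push_cast; ring
      exact_mod_cast h7

end

/-- Weights. -/
def wt (q D m : ℕ) : ℕ := q ^ (D + 1 - m) * (q + 1) ^ m

lemma wt_succ {q D m : ℕ} (h : m ≤ D) : q * wt q D (m + 1) = (q + 1) * wt q D m := by
  unfold wt
  rw [show D + 1 - m = (D + 1 - (m + 1)) + 1 by omega, pow_succ, pow_succ]
  ring

lemma wt_mono {q D : ℕ} : Monotone (wt q D) := by
  refine monotone_nat_of_le_succ fun m => ?_
  unfold wt
  by_cases h : m ≤ D
  · rw [show D + 1 - m = (D + 1 - (m + 1)) + 1 by omega, pow_succ, pow_succ]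
    calc q ^ (D + 1 - (m + 1)) * q * (q + 1) ^ m
        = q ^ (D + 1 - (m + 1)) * ((q + 1) ^ m * q) := by ring
      _ ≤ q ^ (D + 1 - (m + 1)) * ((q + 1) ^ m * (q + 1)) :=
        Nat.mul_le_mul_left _ (Nat.mul_le_mul_left _ (by omega))
  · rw [show D + 1 - m = 0 by omega, show D + 1 - (m + 1) = 0 by omega, pow_zero, one_mul,
      one_mul]
    exact Nat.pow_le_pow_right (by omega) (by omega)

lemma wt_zero {q D : ℕ} : wt q D 0 = q ^ (D + 1) := by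
  unfold wt; rw [Nat.sub_zero, pow_zero, mul_one]

lemma wt_last {q D : ℕ} : wt q D (D + 1) = (q + 1) ^ (D + 1) := by
  unfold wt; rw [Nat.sub_self, pow_zero, one_mul]

/-- The dichotomy. -/
theorem dichotomy {con : Fm} (hcon : IsCon con) (B : List Fm) (hB : ∀ β ∈ B, TrueS β)
    (α β : ℝ) (hα : 1 ≤ α) (hαβ : 1 < α ∨ β = 1) :
    (∃ (A : List Fm) (c : ℕ), (∀ φ ∈ A, TrueS φ) ∧ (∀ φ ∈ B, φ ∈ A) ∧ (∀ φ ∈ Q, φ ∈ A) ∧
      (∀ k, ¬ Prov (conS con A :: A) k .bot) ∧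
      ∀ x : ℕ, ∃ N ≥ x, (α = 1 → N ≤ (fun t => 2 ^ t)^[c] x) ∧
        ∀ n ≤ N, Prov A ⌊(2 : ℝ) ^ ((c : ℝ) * Real.logb 2 N ^ α)⌋₊
          (conN con (conS con A :: A) n)) ∨
    (∃ (E : List Fm) (J : Set ℕ), (∀ φ ∈ E, TrueS φ) ∧ (∀ φ ∈ B, φ ∈ E) ∧ (∀ φ ∈ Q, φ ∈ E) ∧
      J.Infinite ∧
      ∀ S : List Fm, (∀ φ ∈ S, Fm.Sentence φ) → (∀ k, ¬ Prov S k .bot) → ∀ d : ℕ,
        ∃ m₀, ∀ m ∈ J, m₀ ≤ m → ∀ n : ℕ, (n : ℝ) ≤ d * (m : ℝ) ^ β →
          Prov E (2 ^ m) (conN con S n)) := by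
  by_cases hβ : β = 1
  · -- one level
    rcases dich2 hcon B hB (α := α) (β := β) 0 (fun _ => 1) (fun _ _ _ => le_rfl) le_rfl
      (fun m _ => by push_cast; linarith) (by rw [hβ]; norm_num) with
      ⟨A, c, h1, h2, h3, h4, h5⟩ | h
    · left
      refine ⟨A, c, h1, h2, h3, h4, fun x => ?_⟩
      obtain ⟨N, hN, h6, h7⟩ := h5 x
      exact ⟨N, hN, fun _ => h6 rfl rfl, h7⟩
    · exact Or.inr h
  · have hα1 : 1 < α := hαβ.resolve_right hβ
    obtain ⟨q, hq⟩ := exists_nat_gt (1 / (α - 1))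
    have hd : 0 < α - 1 := by linarith
    have hq0 : (0 : ℝ) < q := lt_trans (by positivity) hq
    have hq1 : 1 ≤ q := by exact_mod_cast hq0
    have hqα : 1 / (q : ℝ) < α - 1 := by
      rw [div_lt_iff₀ hq0]
      rw [div_lt_iff₀ hd] at hq
      linarith
    have hgt : (1 : ℝ) < 1 + 1 / q := by
      have : (0 : ℝ) < 1 / q := by positivity
      linarith
    obtain ⟨D, hD⟩ := pow_unbounded_of_one_lt β hgt
    have hD1 : β < (1 + 1 / (q : ℝ)) ^ (D + 1) :=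
      hD.trans_le (pow_le_pow_right₀ hgt.le (by omega))
    have hw0 : 1 ≤ wt q D 0 := by rw [wt_zero]; exact Nat.one_le_pow _ _ hq1
    have hwm : ∀ m, 1 ≤ wt q D m := fun m => hw0.trans (wt_mono (Nat.zero_le m))
    rcases dich2 hcon B hB (α := α) (β := β) D (wt q D) wt_mono hw0
      (fun m hm => by
        have h1 : (q : ℝ) * wt q D (m + 1) = (q + 1) * wt q D m := by
          exact_mod_cast wt_succ hm
        have h2 : (0 : ℝ) < wt q D m := by exact_mod_cast hwm m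
        have h3 : (wt q D (m + 1) : ℝ) = wt q D m * (1 + 1 / q) := by
          field_simp
          linarith
        rw [h3]
        exact mul_le_mul_of_nonneg_left (by linarith) h2.le)
      (by
        rw [wt_zero, wt_last]
        push_cast
        have h5 : ((q : ℝ) + 1) ^ (D + 1) = (q : ℝ) ^ (D + 1) * (1 + 1 / q) ^ (D + 1) := by
          rw [← mul_pow]
          congr 1
          field_simp
        have h6 : (0 : ℝ) < (q : ℝ) ^ (D + 1) := by positivity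
        rw [h5]
        exact mul_le_mul_of_nonneg_left hD1.le h6.le) with
      ⟨A, c, h1, h2, h3, h4, h5⟩ | h
    · left
      refine ⟨A, c, h1, h2, h3, h4, fun x => ?_⟩
      obtain ⟨N, hN, _, h7⟩ := h5 x
      exact ⟨N, hN, fun h8 => absurd h8 (by linarith), h7⟩
    · exact Or.inr h

end Helper31Con.ML

end
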