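import Pool.Agent.Helper31_Win.Form

section

/-!
# Finite families of codes
-/

namespace Helper31Con

open Function Filter Fm

/-- Code of a list of numbers. -/
def cN : List ℕ → ℕ
  | [] => 0
  | z :: l => nd z (cN l)

/-- `z` is an element of the coded list `a`. -/
def MemF (a z : ℕ) : Prop := ∃ (f : ℕ → ℕ) (n : ℕ), f 0 = a ∧ (∀ i < n, ∃ y, f i = nd y (f (i + 1))) ∧
  ∃ a', f n = nd z a'

lemma memF_head (z a : ℕ) : MemF (nd z a) z :=
  ⟨fun _ => nd z a, 0, rfl, fun i hi => absurd hi (by omega), a, rfl⟩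

lemma memF_tail {a z : ℕ} (y : ℕ) (h : MemF a z) : MemF (nd y a) z := by
  obtain ⟨f, n, h0, h1, h2⟩ := h
  refine ⟨fun i => if i = 0 then nd y a else f (i - 1), n + 1, by simp, ?_, ?_⟩
  · intro i hi
    cases i with
    | zero => exact ⟨y, by simp [h0]⟩
    | succ i =>
      obtain ⟨y', hy'⟩ := h1 i (by omega)
      exact ⟨y', by simpa using hy'⟩
  · simpa using h2

lemma memF_inv {y a z : ℕ} (h : MemF (nd y a) z) : z = y ∨ MemF a z := by
  obtain ⟨f, n, h0, h1, a', h2⟩ := h
  cases n with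
  | zero =>
    rw [h0, nd_inj] at h2
    exact Or.inl h2.1.symm
  | succ n =>
    obtain ⟨y', hy'⟩ := h1 0 (by omega)
    rw [h0, nd_inj] at hy'
    exact Or.inr ⟨fun i => f (i + 1), n, hy'.2.symm, fun i hi => h1 (i + 1) (by omega), a', h2⟩

lemma memF_zero {z : ℕ} : ¬ MemF 0 z := by
  rintro ⟨f, n, h0, h1, a', h2⟩
  cases n with
  | zero =>
    rw [h0] at h2
    have := nd_pos z a'
    omega
  | succ n =>
    obtain ⟨y', hy'⟩ := h1 0 (by omega)
    rw [h0] at hy'
    have := nd_pos y' (f (0 + 1))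
    omega

lemma memF_cN {l : List ℕ} {z : ℕ} : MemF (cN l) z ↔ z ∈ l := by
  induction l with
  | nil => simp [cN, memF_zero]
  | cons y l ih =>
    rw [List.mem_cons, ← ih]
    constructor
    · exact memF_inv
    · rintro (rfl | h)
      · exact memF_head _ _
      · exact memF_tail _ h

lemma d4_memF : D4 (fun a z _ _ => MemF a z) := by
  -- a = x4, b = x5, n = x6, i = x7, y = x8, y' = x9, w = x10
  have a1 := d4_BtR.app (x 4) (x 5) .zero (x 0)
  have a2 := ((((Dfn.le (.succ (x 7)) (x 6)).imp ((d4_BtR.app (x 4) (x 5) (x 7) (x 8)).imp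
    ((d4_BtR.app (x 4) (x 5) (.succ (x 7)) (x 9)).imp
      ((Dfn.eq (x 8) (ndT (x 10) (x 9))).ex 10)))).all 9).all 8).all 7
  have a3 := ((d4_BtR.app (x 4) (x 5) (x 6) (x 7)).and
    ((Dfn.eq (x 7) (ndT (x 1) (x 8))).ex 8)).ex 7
  have key := (((a1.and (a2.and a3)).ex 6).ex 5).ex 4
  refine key.congr fun e => ?_
  simp (disch := decide) only [Tm.val, update_self, update_of_ne, BtR, val_ndT]
  constructor
  · rintro ⟨a, b, n, h0, h1, y, hy, a', h2⟩
    refine ⟨fun i => a % ((i + 1) * b + 1), n, h0.symm, fun i hi => ?_, a', ?_⟩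
    · exact h1 i _ _ (by omega) rfl rfl
    · show a % ((n + 1) * b + 1) = _
      rw [← hy]; exact h2
  · rintro ⟨f, n, h0, h1, a', h2⟩
    obtain ⟨a, b, hab⟩ := exists_bt f n
    refine ⟨a, b, n, ?_, ?_, f n, (hab n le_rfl).symm, a', h2⟩
    · rw [hab 0 (Nat.zero_le _), h0]
    · rintro i y y' hi hy hy'
      rw [hab i (by omega)] at hy
      rw [hab (i + 1) (by omega)] at hy'
      rw [hy, hy']
      exact h1 i (by omega)

/-- The family of relations. -/
def RM : ℕ → ℕ → ℕ → ℕ → ℕ → Prop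
  | 0, a, b, _, _ => MemF a b
  | _, _, _, _, _ => False

lemma exists_ifaceRM : Nonempty (Iface RM) := by
  have h : Nonempty (IfaceC RM) := by
    refine exists_ifaceC (fun i => ?_) 1 fun j a b c d h => ?_
    · match i with
      | 0 => exact d4_memF
      | n + 1 => exact Dfn.false'
    · by_contra hj
      obtain ⟨n, rfl⟩ : ∃ n, j = n + 1 := ⟨j - 1, by omega⟩
      exact h
  exact h.map fun I => I.toIface

/-! ### Facts -/

lemma length_le_cN (l : List ℕ) : l.length ≤ cN l := by
  induction l with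
  | nil => exact Nat.zero_le _
  | cons z l ih =>
    have := lt_nd_r z (cN l)
    show l.length + 1 ≤ nd z (cN l)
    omega

lemma mem_le_cN {l : List ℕ} {z : ℕ} (h : z ∈ l) : z ≤ cN l := by
  induction l with
  | nil => simp at h
  | cons y l ih =>
    have h1 := lt_nd_r y (cN l)
    have h2 := lt_nd_l y (cN l)
    show z ≤ nd y (cN l)
    rcases List.mem_cons.mp h with rfl | h
    · omega
    · have := ih h; omega

lemma mem_fact (J : Iface RM) : ∃ f, PB f ∧ ∀ᶠ B in rich, ∀ (l : List ℕ) z N, z ∈ l → cN l ≤ N →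
    Pr B (f N) (f N) (J.A 0 (.num (cN l)) (.num z) .zero .zero) := by
  obtain ⟨c0, h0⟩ := horn1 (α := eq (x 2) (ndT (x 1) (x 0))) (β := J.A 0 (x 2) (x 1) .zero .zero)
    (fun e h => by
      rw [J.satA (by simp [Al])]
      have h' : e 2 = nd (e 1) (e 0) := by
        have : (x 2).val e = (ndT (x 1) (x 0)).val e := h
        simpa [Tm.val] using this
      show MemF (e 2) (e 1)
      rw [h']; exact memF_head _ _)
  obtain ⟨c1, h1⟩ := horn2 (α₁ := J.A 0 (x 0) (x 1) .zero .zero) (α₂ := eq (x 2) (ndT (x 3) (x 0)))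
    (β := J.A 0 (x 2) (x 1) .zero .zero) (fun e h h' => by
      rw [J.satA (by simp [Al])] at h ⊢
      have h'' : e 2 = nd (e 3) (e 0) := by
        have : (x 2).val e = (ndT (x 3) (x 0)).val e := h'
        simpa [Tm.val] using this
      show MemF (e 2) (e 1)
      rw [h'']; exact memF_tail _ h)
  obtain ⟨f, hf, g0⟩ := eq_fact (x 2) (ndT (x 1) (x 0))
  obtain ⟨f', hf', g1⟩ := eq_fact (x 2) (ndT (x 3) (x 0))
  refine ⟨fun N => (N + 1) * (c0 + c1 + f N + f' N) + ((c0 + c1) * (N + 1) + f N + f' N), ?_, ?_⟩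
  · exact ((PB.id.add (PB.const 1)).mul (((PB.const _).add hf).add hf')).add
      ((((PB.const _).mul (PB.id.add (PB.const 1))).add hf).add hf')
  filter_upwards [h0, h1, g0, g1] with B h0 h1 g0 g1 l z N hz hl
  set M := (N + 1) * (c0 + c1 + f N + f' N) + ((c0 + c1) * (N + 1) + f N + f' N) with hM
  have hc : ∀ c, c ≤ c0 + c1 → c * (N + 1) ≤ M := fun c hc => mulle (S := c0 + c1) (by omega) hc
  have key : ∀ l : List ℕ, z ∈ l → cN l ≤ N → Pr B ((l.length + 1) * (c0 + c1 + f N + f' N)) M
      (J.A 0 (.num (cN l)) (.num z) .zero .zero) := by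
    intro l
    induction l with
    | nil => intro h; simp at h
    | cons y l ih =>
      intro h hl
      have hl1 := lt_nd_r y (cN l)
      have hl2 := lt_nd_l y (cN l)
      have hl' : nd y (cN l) ≤ N := hl
      by_cases hy : z = y
      · subst hy
        have he : ∀ j, as [cN l, z, nd z (cN l)] j ≤ N := as_le (by
          simp only [List.forall_mem_cons, List.not_mem_nil, IsEmpty.forall_iff, implies_true,
            and_true]
          omega)
        have q := g0 _ N he (by rw [val_ndT]; rfl)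
        have := h0 _ N M (f N) he (hc _ (by omega)) (q.mono le_rfl (by omega))
        rw [J.clA (by simp [Al])] at this
        refine Pr.mono this ?_ le_rfl
        have : 1 * (c0 + c1 + f N + f' N) ≤ ((z :: l).length + 1) * (c0 + c1 + f N + f' N) :=
          Nat.mul_le_mul_right _ (by omega)
        omega
      · have h' : z ∈ l := by
          rcases List.mem_cons.mp h with h | h
          · exact absurd h hy
          · exact h
        have ih' := ih h' (by omega)
        have hzl := mem_le_cN h'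
        have he : ∀ j, as [cN l, z, nd y (cN l), y] j ≤ N := as_le (by
          simp only [List.forall_mem_cons, List.not_mem_nil, IsEmpty.forall_iff, implies_true,
            and_true]
          omega)
        have q := g1 _ N he (by rw [val_ndT]; rfl)
        have := h1 _ N M _ (f' N) he (hc _ (by omega)) (by rw [J.clA (by simp [Al])]; exact ih')
          (q.mono le_rfl (by omega))
        rw [J.clA (by simp [Al])] at this
        refine Pr.mono this ?_ le_rfl
        have e1 : ((y :: l).length + 1) * (c0 + c1 + f N + f' N) =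
            (l.length + 1) * (c0 + c1 + f N + f' N) + (c0 + c1 + f N + f' N) := by
          rw [List.length_cons]; ring
        omega
  refine (key l hz hl).mono ?_ le_rfl
  have := length_le_cN l
  have : (l.length + 1) * (c0 + c1 + f N + f' N) ≤ (N + 1) * (c0 + c1 + f N + f' N) :=
    Nat.mul_le_mul_right _ (by omega)
  omega

/-- `con (z, x_1)` for all elements of the family `x_q`. -/
def FT (con : Fm) (J : Iface RM) (q : ℕ) : Fm :=
  all 15 (imp (eq (x 15) (x q)) (all 0 (imp (J.A 0 (x 15) (x 0) .zero .zero) con)))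

lemma sat_FT {con : Fm} (hcon : IsCon con) {J : Iface RM} {q : ℕ} (hq : q ≠ 15)
    (e : ℕ → ℕ) : (FT con J q).Sat e ↔ ∀ z, MemF (e q) z → cP con z (e 1) := by
  have key : ∀ a, (all 0 (imp (J.A 0 (x 15) (x 0) .zero .zero) con)).Sat (update e 15 a) ↔
      ∀ z, MemF a z → cP con z (e 1) := by
    intro a
    refine forall_congr' fun z => ?_
    show (_ → _) ↔ (_ → _)
    rw [J.satA (by simp [Al]), hcon.cP_iff, update_self,
      update_of_ne (show (1 : ℕ) ≠ 0 by omega), update_of_ne (show (1 : ℕ) ≠ 15 by omega)]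
    refine imp_congr ?_ Iff.rfl
    show MemF ((x 15).val _) ((x 0).val _) ↔ _
    simp only [Tm.val]
    rw [update_self, update_of_ne (show (15 : ℕ) ≠ 0 by omega), update_self]
  constructor
  · intro h
    refine (key (e q)).mp (h (e q) ?_)
    show update e 15 (e q) 15 = update e 15 (e q) q
    rw [update_self, update_of_ne hq]
  · intro h a ha
    have ha' : update e 15 a 15 = update e 15 a q := ha
    rw [update_self, update_of_ne hq] at ha'
    rw [key, ha']; exact h

lemma FT_cl {con : Fm} (hcon : IsCon con) {J : Iface RM} {q q' : ℕ} {e e' : ℕ → ℕ}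
    (hq : q ≠ 15) (hq' : q' ≠ 15) (h : e q = e' q') (h1 : e 1 = e' 1) :
    (FT con J q).cl e = (FT con J q').cl e' := by
  set σ : ℕ → Tm := update (fun k => Tm.num (e k)) 15 (x 15) with hσ
  set σ' : ℕ → Tm := update (fun k => Tm.num (e' k)) 15 (x 15) with hσ'
  have a1 : σ 15 = σ' 15 := by rw [hσ, hσ', update_self, update_self]
  have a2 : σ q = σ' q' := by
    rw [hσ, hσ', update_of_ne hq, update_of_ne hq', h]
  have a3 : (all 0 (imp (J.A 0 (x 15) (x 0) .zero .zero) con)).sb σ =
      (all 0 (imp (J.A 0 (x 15) (x 0) .zero .zero) con)).sb σ' := by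
    refine Fm.sb_congr fun j hj => ?_
    obtain ⟨h0, h2 | h2⟩ := hj
    · rcases J.free _ _ _ _ _ _ (by simp [Al]) (by simp [Al]) (by simp) (by simp) h2 with
        h3 | h3 | h3 | h3
      · have : j = 15 := h3.symm
        rw [this]; exact a1
      · exact absurd h3 h0
      · exact absurd h3 (by simp [Tm.Has])
      · exact absurd h3 (by simp [Tm.Has])
    · have h3 := hcon.free j h2
      have : j = 1 := by omega
      rw [this, hσ, hσ', update_of_ne (by omega), update_of_ne (by omega), h1]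
  show all 15 (imp (eq (σ 15) (σ q)) _) = all 15 (imp (eq (σ' 15) (σ' q')) _)
  rw [a1, a2, a3]

/-- The consistency statements for a family. -/
lemma ft_fact {con : Fm} (hcon : IsCon con) (J : Iface RM) : ∃ f, PB f ∧ ∀ᶠ B in rich,
    ∀ (l : List ℕ) y N M n, cN l ≤ N → y ≤ N → f N ≤ M →
    (∀ z ∈ l, Pr B n M (con.cl (as [z, y]))) →
    Pr B (f N * (n + 1)) M ((FT con J 14).cl (as [0, y, 0, 0, 0, 0, 0, 0, 0, 0, 0, 0, 0, 0, cN l])) := by
  obtain ⟨c0, h0⟩ := horn1 (α := eq (x 14) .zero) (β := FT con J 14) (fun e h => by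
    rw [sat_FT hcon (by omega)]
    have h' : e 14 = 0 := h
    intro z hz
    rw [h'] at hz
    exact absurd hz memF_zero)
  obtain ⟨c1, h1⟩ := horn3 (α₁ := FT con J 13) (α₂ := con) (α₃ := eq (x 14) (ndT (x 0) (x 13)))
    (β := FT con J 14) (fun e h1 h2 h3 => by
      rw [sat_FT hcon (by omega)] at h1 ⊢
      rw [hcon.cP_iff] at h2
      have h3' : e 14 = nd (e 0) (e 13) := by
        have : (x 14).val e = (ndT (x 0) (x 13)).val e := h3
        simpa [Tm.val] using this
      intro z hz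
      rw [h3'] at hz
      rcases memF_inv hz with rfl | hz
      · exact h2
      · exact h1 z hz)
  obtain ⟨f, hf, g0⟩ := eq_fact (x 14) .zero
  obtain ⟨f', hf', g1⟩ := eq_fact (x 14) (ndT (x 0) (x 13))
  refine ⟨fun N => (N + 1) * (c0 + c1 + f N + f' N + 1) + ((c0 + c1) * (N + 1) + f N + f' N), ?_, ?_⟩
  · exact ((PB.id.add (PB.const 1)).mul ((((PB.const _).add hf).add hf').add (PB.const 1))).add
      ((((PB.const _).mul (PB.id.add (PB.const 1))).add hf).add hf')
  filter_upwards [h0, h1, g0, g1] with B h0 h1 g0 g1 l y N M n hl hy hM hz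
  have hM' : (N + 1) * (c0 + c1 + f N + f' N + 1) + ((c0 + c1) * (N + 1) + f N + f' N) ≤ M := hM
  have hc : ∀ c, c ≤ c0 + c1 → c * (N + 1) ≤ M := fun c hc => mulle (S := c0 + c1) (by omega) hc
  have key : ∀ l : List ℕ, cN l ≤ N → (∀ z ∈ l, Pr B n M (con.cl (as [z, y]))) →
      Pr B ((l.length + 1) * (c0 + c1 + f N + f' N + n)) M
      ((FT con J 14).cl (as [0, y, 0, 0, 0, 0, 0, 0, 0, 0, 0, 0, 0, 0, cN l])) := by
    intro l
    induction l with
    | nil =>
      intro _ _
      have he : ∀ j, as [0, y, 0, 0, 0, 0, 0, 0, 0, 0, 0, 0, 0, 0, 0] j ≤ N := as_le (by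
        simp only [List.forall_mem_cons, List.not_mem_nil, IsEmpty.forall_iff, implies_true,
          and_true]
        omega)
      have q := g0 _ N he rfl
      have := h0 _ N M (f N) he (hc _ (by omega)) (q.mono le_rfl (by omega))
      refine Pr.mono this ?_ le_rfl
      simp only [List.length_nil]
      omega
    | cons z l ih =>
      intro hl hz
      have hl1 := lt_nd_r z (cN l)
      have hl2 := lt_nd_l z (cN l)
      have hl' : nd z (cN l) ≤ N := hl
      have ih' := ih (by omega) fun z' hz' => hz z' (List.mem_cons_of_mem _ hz')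
      set e0 := as [z, y, 0, 0, 0, 0, 0, 0, 0, 0, 0, 0, 0, cN l, nd z (cN l)] with he0
      have he : ∀ j, e0 j ≤ N := as_le (by
        simp only [List.forall_mem_cons, List.not_mem_nil, IsEmpty.forall_iff, implies_true,
          and_true]
        omega)
      have q := g1 e0 N he (by rw [val_ndT]; rfl)
      have q1 : Pr B ((l.length + 1) * (c0 + c1 + f N + f' N + n)) M ((FT con J 13).cl e0) := by
        have e1 : (FT con J 13).cl e0 =
            (FT con J 14).cl (as [0, y, 0, 0, 0, 0, 0, 0, 0, 0, 0, 0, 0, 0, cN l]) :=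
          FT_cl hcon (by omega) (by omega) rfl rfl
        rw [e1]; exact ih'
      have q2 : Pr B n M (con.cl e0) := by
        have e1 : con.cl e0 = con.cl (as [z, y]) := hcon.cl_congr rfl rfl
        rw [e1]; exact hz z List.mem_cons_self
      have := h1 e0 N M _ _ (f' N) he (hc _ (by omega)) q1 q2 (q.mono le_rfl (by omega))
      have e2 : (FT con J 14).cl e0 = (FT con J 14).cl
          (as [0, y, 0, 0, 0, 0, 0, 0, 0, 0, 0, 0, 0, 0, nd z (cN l)]) :=
        FT_cl hcon (by omega) (by omega) rfl rfl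
      rw [e2] at this
      refine Pr.mono this ?_ le_rfl
      have e1 : ((z :: l).length + 1) * (c0 + c1 + f N + f' N + n) =
          (l.length + 1) * (c0 + c1 + f N + f' N + n) + (c0 + c1 + f N + f' N + n) := by
        rw [List.length_cons]; ring
      omega
  refine (key l hl hz).mono ?_ le_rfl
  have h2 := length_le_cN l
  have h3 : c0 + c1 + f N + f' N + n ≤ (c0 + c1 + f N + f' N + 1) * (n + 1) := by nlinarith
  calc (l.length + 1) * (c0 + c1 + f N + f' N + n)
      ≤ (N + 1) * ((c0 + c1 + f N + f' N + 1) * (n + 1)) := Nat.mul_le_mul (by omega) h3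
    _ = ((N + 1) * (c0 + c1 + f N + f' N + 1)) * (n + 1) := by ring
    _ ≤ _ := Nat.mul_le_mul_right _ (Nat.le_add_right _ _)

end Helper31Con

end

section

/-!
# The formulas of the construction and their meaning
-/

namespace Helper31Con.ML

open Function Filter Fm

variable {con : Fm} {g : ℕ → ℕ} {s₀ : ℕ}

/-! ### Meaning -/

/-- Base of the nodes. -/
def tb (k i : ℕ) : ℕ := tw (k * i) 2

/-- The nodes. -/
def nx (k : ℕ) (w : ℕ → ℕ) (m i : ℕ) : ℕ := 2 ^ (tb k i ^ w m)

section Sem

variable (con : Fm) (k D : ℕ) (w : ℕ → ℕ) (c : ℕ)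

/-- `Con_{T_m^V}(x_{i,m})` -/
def sC (m i V : ℕ) : Prop := ∀ z, CdT con m V c z → cP con z (nx k w m i)

/-- The upper trigger. -/
def sW (i p : ℕ) : Prop :=
  ∀ a C, p = nd a C → ∀ z, MemF a z → cP con z (C * tb k i ^ w (D + 1))

/-- Triggers. -/
def sTR : ℕ → ℕ → ℕ → ℕ → Prop
  | 0, _, i, p => sW con k D w i p
  | d + 1, m, i, p => ∃ b < i, ∃ j ≥ i, sTR d (m + 1) j p ∧ ¬ sC con k w c (m + 1) j (nd p b)

/-- `Φ` -/
def sP (d m V : ℕ) : Prop :=
  ∀ p v, V = nd p v → ∀ i, v < i → sTR con k D w c d m i p → sC con k w c m i V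

/-- All statements `Θ` from level `m` on. -/
def sTT : ℕ → ℕ → Prop
  | 0, m => ∀ V, sP con k D w c 0 m V → sCA con c m V
  | d + 1, m => (∀ V, sP con k D w c (d + 1) m V ∧ sTT d (m + 1) → sCA con c m V) ∧ sTT d (m + 1)

/-- `Ξ` -/
def sX : ℕ → ℕ → ℕ → Prop
  | 0, m, V => sP con k D w c 0 m V
  | d + 1, m, V => sP con k D w c (d + 1) m V ∧ sTT con k D w c d (m + 1)

variable {con k D w c}

lemma sX_sP {d m V : ℕ} (h : sX con k D w c d m V) : sP con k D w c d m V := by
  cases d with
  | zero => exact h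
  | succ d => exact h.1

lemma sX_of {d m V : ℕ} (h : sTT con k D w c d m) (h' : sP con k D w c d m V) :
    sX con k D w c d m V := by
  cases d with
  | zero => exact h'
  | succ d => exact ⟨h', h.2⟩

lemma sTT_app {d m V : ℕ} (h : sTT con k D w c d m) (h' : sX con k D w c d m V) :
    sCA con c m V := by
  cases d with
  | zero => exact h V h'
  | succ d => exact h.1 V h'

/-- Failure of a version gives a trigger at a later node. -/
lemma sem_fail {d m p b i : ℕ} (ht : sTT con k D w c d m)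
    (hE : ∀ j, b < j → j < i → sC con k w c m j (nd p b))
    (hn : ¬ sX con k D w c d m (nd p b)) : ∃ j ≥ i, sTR con k D w c d m j p ∧
      ¬ sC con k w c m j (nd p b) := by
  have h1 : ¬ sP con k D w c d m (nd p b) := fun h' => hn (sX_of ht h')
  unfold sP at h1
  push Not at h1
  obtain ⟨p', v', h2, a, h3, h4, h5⟩ := h1
  obtain ⟨rfl, rfl⟩ := nd_inj.mp h2
  refine ⟨a, ?_, h4, h5⟩
  by_contra h6
  exact h5 (hE a h3 (by omega))

/-- The basic step: if version `b` at level `m + 1` fails, but not before node `i`, then version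
`v` at level `m` proves its consistency at node `i`. -/
lemma sem_step {d m p v b i : ℕ} (h : sX con k D w c (d + 1) m (nd p v)) (hv : v < i) (hb : b < i)
    (hE : ∀ j, b < j → j < i → sC con k w c (m + 1) j (nd p b))
    (hn : ¬ sX con k D w c d (m + 1) (nd p b)) : sC con k w c m i (nd p v) := by
  obtain ⟨j, h1, h2, h3⟩ := sem_fail h.2 hE hn
  exact h.1 p v rfl i hv ⟨b, hb, j, h1, h2, h3⟩

/-- A trigger gives the upper trigger at a later node. -/
lemma sem_top {d : ℕ} : ∀ {m i p : ℕ}, sTR con k D w c d m i p → ∃ j ≥ i, sW con k D w j p := by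
  induction d with
  | zero => intro m i p h; exact ⟨i, le_rfl, h⟩
  | succ d ih =>
    rintro m i p ⟨b, _, j, h1, h2, _⟩
    obtain ⟨j', h3, h4⟩ := ih h2
    exact ⟨j', by omega, h4⟩

end Sem

/-! ### Formulas -/

section Forms

variable (I : Iface (Rel con g s₀)) (J : Iface RM) (k D : ℕ) (w : ℕ → ℕ)

/-- The formula for `sC`. -/
def CF (m : ℕ) (a b : Tm) : Fm :=
  all 1 (all 0 (all 10 (all 12 (imp (I.A 17 (.mul (.num k) a) (.num 2) (x 10) .zero)
    (imp (eq (x 12) (pwT (w m) (x 10))) (imp (I.A 16 (x 12) (x 1) .zero .zero)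
      (imp (I.A 25 (.num m) b (x 2) (x 0)) con)))))))

/-- The formula for `sW`. -/
def WF (q : ℕ) : Fm :=
  all 6 (all 14 (all 10 (imp (eq (x 4) (ndT (x 6) (x 14)))
    (imp (I.A 17 (.mul (.num k) (x q)) (.num 2) (x 10) .zero)
      (all 0 (all 1 (imp (J.A 0 (x 6) (x 0) .zero .zero)
        (imp (eq (x 1) (.mul (x 14) (pwT (w (D + 1)) (x 10)))) con))))))))

/-- The formula for `sTR`. -/
def TR : ℕ → ℕ → Fm
  | 0, m => WF I J k D w (av m)
  | d + 1, m => ex (bv (m + 1)) (Fm.and (lt (x (bv (m + 1))) (x (av m)))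
      (ex (av (m + 1)) (Fm.and (le (x (av m)) (x (av (m + 1))))
        (Fm.and (TR d (m + 1))
          (neg (CF I k w (m + 1) (x (av (m + 1))) (ndT (x 4) (x (bv (m + 1))))))))))

/-- The formula for `sP`. -/
def PF (d m : ℕ) : Fm :=
  all 4 (all 8 (imp (eq (x (bv m)) (ndT (x 4) (x 8)))
    (all (av m) (imp (lt (x 8) (x (av m)))
      (imp (TR I J k D w d m) (CF I k w m (x (av m)) (x (bv m))))))))

/-- The formula for `sTT`. -/
def TTF : ℕ → ℕ → Fm
  | 0, m => all (bv m) (imp (PF I J k D w 0 m) (CAF I m))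
  | d + 1, m => Fm.and (all (bv m) (imp (Fm.and (PF I J k D w (d + 1) m) (TTF d (m + 1)))
      (CAF I m))) (TTF d (m + 1))

/-- The formula for `sX`. -/
def XF : ℕ → ℕ → Fm
  | 0, m => PF I J k D w 0 m
  | d + 1, m => Fm.and (PF I J k D w (d + 1) m) (TTF I J k D w d (m + 1))

end Forms

/-- Terms that avoid the variables bound in `CF`. -/
def OkT (t : Tm) : Prop := t.Alw ∧ ∀ j, t.Has j → j ≠ 0 ∧ j ≠ 1 ∧ j ≠ 10 ∧ j ≠ 12

lemma OkT.var {q : ℕ} (h : Al q) (h0 : q ≠ 0) (h1 : q ≠ 1) (h10 : q ≠ 10) (h12 : q ≠ 12) :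
    OkT (x q) := by
  refine ⟨Tm.alw_var h, fun j hj => ?_⟩
  have : q = j := hj
  subst this
  exact ⟨h0, h1, h10, h12⟩

lemma OkT.nd {t s : Tm} (h : OkT t) (h' : OkT s) : OkT (ndT t s) := by
  refine ⟨alw_ndT.mpr ⟨h.1, h'.1⟩, fun j hj => ?_⟩
  rcases (has_ndT _ _ _).mp hj with hj | hj
  · exact h.2 j hj
  · exact h'.2 j hj

lemma OkT.av (m : ℕ) : OkT (x (av m)) :=
  OkT.var (al_av m) (by unfold Helper31Con.av; omega) (by unfold Helper31Con.av; omega)
    (by unfold Helper31Con.av; omega) (by unfold Helper31Con.av; omega)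

lemma OkT.bv (m : ℕ) : OkT (x (bv m)) :=
  OkT.var (al_bv m) (by unfold Helper31Con.bv; omega) (by unfold Helper31Con.bv; omega)
    (by unfold Helper31Con.bv; omega) (by unfold Helper31Con.bv; omega)

section SatLemmas

variable {I : Iface (Rel con g s₀)} {J : Iface RM} {k D : ℕ} {w : ℕ → ℕ} (hcon : IsCon con)
include hcon

lemma sat_CF {m : ℕ} {a b : Tm} (ha : OkT a) (hb : OkT b) (f : ℕ → ℕ) :
    (CF I k w m a b).Sat f ↔ sC con k w (f 2) m (a.val f) (b.val f) := by
  have key : ∀ (n z T P : ℕ) (f' : ℕ → ℕ),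
      f' = update (update (update (update f 1 n) 0 z) 10 T) 12 P →
      ((imp (I.A 17 (.mul (.num k) a) (.num 2) (x 10) .zero)
    (imp (eq (x 12) (pwT (w m) (x 10))) (imp (I.A 16 (x 12) (x 1) .zero .zero)
      (imp (I.A 25 (.num m) b (x 2) (x 0)) con)))).Sat f' ↔
      (T = tb k (a.val f) → P = T ^ w m → n = 2 ^ P → CdT con m (b.val f) (f 2) z →
        cP con z n)) := by
    rintro n z T P f' rfl
    have ev : ∀ t : Tm, OkT t →
        t.val (update (update (update (update f 1 n) 0 z) 10 T) 12 P) = t.val f := by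
      intro t ht
      refine Tm.val_congr fun j hj => ?_
      obtain ⟨h0, h1, h10, h12⟩ := ht.2 j hj
      rw [update_of_ne h12, update_of_ne h10, update_of_ne h0, update_of_ne h1]
    have b0 : update (update (update (update f 1 n) 0 z) 10 T) 12 P 0 = z := by
      rw [update_of_ne (by omega), update_of_ne (by omega), update_self]
    have b1 : update (update (update (update f 1 n) 0 z) 10 T) 12 P 1 = n := by
      rw [update_of_ne (by omega), update_of_ne (by omega), update_of_ne (by omega), update_self]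
    have b2 : update (update (update (update f 1 n) 0 z) 10 T) 12 P 2 = f 2 := by
      rw [update_of_ne (by omega), update_of_ne (by omega), update_of_ne (by omega),
        update_of_ne (by omega)]
    have b10 : update (update (update (update f 1 n) 0 z) 10 T) 12 P 10 = T := by
      rw [update_of_ne (by omega), update_self]
    have b12 : update (update (update (update f 1 n) 0 z) 10 T) 12 P 12 = P := by
      rw [update_self]
    show (_ → _ → _ → _ → _) ↔ _
    refine imp_congr ?_ (imp_congr ?_ (imp_congr ?_ (imp_congr ?_ ?_)))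
    · rw [I.satA ⟨by simp [ha.1], by simp, by simp [Al], by simp⟩]
      show (x 10).val _ = tw ((Tm.mul (.num k) a).val _) ((Tm.num 2).val _) ↔ _
      simp only [Tm.val, Tm.val_num]
      rw [ev a ha, b10]
      rfl
    · show (x 12).val _ = (pwT (w m) (x 10)).val _ ↔ _
      simp only [Tm.val, val_pwT]
      rw [b10, b12]
    · rw [I.satA (by simp [Al])]
      show (x 1).val _ = 2 ^ ((x 12).val _) ↔ _
      simp only [Tm.val]
      rw [b1, b12]
    · rw [I.satA ⟨by simp, hb.1, by simp [Al], by simp [Al]⟩]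
      show CdT con ((Tm.num m).val _) (b.val _) ((x 2).val _) ((x 0).val _) ↔ _
      simp only [Tm.val, Tm.val_num]
      rw [ev b hb, b2, b0]
    · rw [hcon.cP_iff, b0, b1]
  constructor
  · intro h z hz
    exact (key _ z _ _ _ rfl).mp (h (nx k w m (a.val f)) z (tb k (a.val f))
      (tb k (a.val f) ^ w m)) rfl rfl rfl hz
  · intro h n z T P
    refine (key n z T P _ rfl).mpr fun h1 h2 h3 h4 => ?_
    rw [h3, h2, h1]
    exact h z h4

lemma sat_WF {q : ℕ} (hq : Al q) (hq' : q ≠ 0 ∧ q ≠ 1 ∧ q ≠ 6 ∧ q ≠ 10 ∧ q ≠ 14) (f : ℕ → ℕ) :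
    (WF I J k D w q).Sat f ↔ sW con k D w (f q) (f 4) := by
  obtain ⟨q0, q1, q6, q10, q14⟩ := hq'
  have key : ∀ (a C T : ℕ) (f' : ℕ → ℕ), f' = update (update (update f 6 a) 14 C) 10 T →
      ((imp (eq (x 4) (ndT (x 6) (x 14)))
    (imp (I.A 17 (.mul (.num k) (x q)) (.num 2) (x 10) .zero)
      (all 0 (all 1 (imp (J.A 0 (x 6) (x 0) .zero .zero)
        (imp (eq (x 1) (.mul (x 14) (pwT (w (D + 1)) (x 10)))) con)))))).Sat f' ↔
      (f 4 = nd a C → T = tb k (f q) → ∀ z y, MemF a z → y = C * T ^ w (D + 1) →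
        cP con z y)) := by
    rintro a C T f' rfl
    show (_ → _ → ∀ z y : ℕ, _ → _ → _) ↔ _
    refine imp_congr ?_ (imp_congr ?_ (forall_congr' fun z => forall_congr' fun y => ?_))
    · show (x 4).val _ = (ndT (x 6) (x 14)).val _ ↔ _
      simp only [val_ndT, Tm.val]
      rw [update_of_ne (show (4 : ℕ) ≠ 10 by omega), update_of_ne (show (4 : ℕ) ≠ 14 by omega),
        update_of_ne (show (4 : ℕ) ≠ 6 by omega), update_of_ne (show (6 : ℕ) ≠ 10 by omega),
        update_of_ne (show (6 : ℕ) ≠ 14 by omega), update_self,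
        update_of_ne (show (14 : ℕ) ≠ 10 by omega), update_self]
    · rw [I.satA ⟨by simp [hq], by simp, by simp [Al], by simp⟩]
      show (x 10).val _ = tw ((Tm.mul (.num k) (x q)).val _) ((Tm.num 2).val _) ↔ _
      simp only [Tm.val, Tm.val_num]
      rw [update_self, update_of_ne q10, update_of_ne q14, update_of_ne q6]
      rfl
    · have c0 : update (update (update (update (update f 6 a) 14 C) 10 T) 0 z) 1 y 0 = z := by
        rw [update_of_ne (by omega), update_self]
      have c1 : update (update (update (update (update f 6 a) 14 C) 10 T) 0 z) 1 y 1 = y := by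
        rw [update_self]
      have c6 : update (update (update (update (update f 6 a) 14 C) 10 T) 0 z) 1 y 6 = a := by
        rw [update_of_ne (by omega), update_of_ne (by omega), update_of_ne (by omega),
          update_of_ne (by omega), update_self]
      have c14 : update (update (update (update (update f 6 a) 14 C) 10 T) 0 z) 1 y 14 = C := by
        rw [update_of_ne (by omega), update_of_ne (by omega), update_of_ne (by omega), update_self]
      have c10 : update (update (update (update (update f 6 a) 14 C) 10 T) 0 z) 1 y 10 = T := by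
        rw [update_of_ne (by omega), update_of_ne (by omega), update_self]
      refine imp_congr ?_ (imp_congr ?_ ?_)
      · rw [J.satA (by simp [Al])]
        show MemF ((x 6).val _) ((x 0).val _) ↔ _
        simp only [Tm.val]
        rw [c0, c6]
      · show (x 1).val _ = (Tm.mul (x 14) (pwT (w (D + 1)) (x 10))).val _ ↔ _
        simp only [Tm.val, val_pwT]
        rw [c1, c14, c10]
      · rw [hcon.cP_iff, c0, c1]
  constructor
  · intro h a C hp z hz
    exact (key a C _ _ rfl).mp (h a C (tb k (f q))) hp rfl z _ hz rfl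
  · intro h a C T
    refine (key a C T _ rfl).mpr fun h1 h2 z y h3 h4 => ?_
    rw [h4, h2]
    exact h a C h1 z h3

lemma sat_TR (d m : ℕ) (f : ℕ → ℕ) :
    (TR I J k D w d m).Sat f ↔ sTR con k D w (f 2) d m (f (av m)) (f 4) := by
  induction d generalizing m f with
  | zero => exact sat_WF hcon (al_av m) (by unfold av; omega) f
  | succ d ih =>
    simp only [TR, sat_ex, sat_and, sat_lt, sat_neg, sTR, ih]
    refine exists_congr fun b => and_congr ?_ (exists_congr fun a => and_congr ?_ (and_congr ?_ ?_))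
    · simp only [Tm.val, update_self]
      rw [update_of_ne (by unfold av bv; omega)]
    · simp only [Fm.Sat, Tm.val, update_self]
      rw [update_of_ne (by unfold av; omega), update_of_ne (by unfold av bv; omega)]
    · rw [update_of_ne (by unfold av; omega), update_of_ne (by unfold bv; omega), update_self,
        update_of_ne (show (4 : ℕ) ≠ av (m + 1) by unfold av; omega),
        update_of_ne (show (4 : ℕ) ≠ bv (m + 1) by unfold bv; omega)]
    · have k1 : update (update f (bv (m + 1)) b) (av (m + 1)) a 2 = f 2 := by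
        rw [update_of_ne (by unfold av; omega), update_of_ne (by unfold bv; omega)]
      have k2 : update (update f (bv (m + 1)) b) (av (m + 1)) a (bv (m + 1)) = b := by
        rw [update_of_ne (by unfold av bv; omega), update_self]
      have k4 : update (update f (bv (m + 1)) b) (av (m + 1)) a 4 = f 4 := by
        rw [update_of_ne (by unfold av; omega), update_of_ne (by unfold bv; omega)]
      rw [sat_CF hcon (OkT.av _) ((OkT.var (by simp [Al]) (by omega) (by omega) (by omega)
        (by omega)).nd (OkT.bv _)), k1]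
      simp only [val_ndT, Tm.val]
      rw [k2, k4, update_self]

lemma sat_PF (d m : ℕ) (f : ℕ → ℕ) :
    (PF I J k D w d m).Sat f ↔ sP con k D w (f 2) d m (f (bv m)) := by
  refine forall_congr' fun p => forall_congr' fun v => ?_
  have k0 : update (update f 4 p) 8 v (bv m) = f (bv m) := by
    rw [update_of_ne (by unfold bv; omega), update_of_ne (by unfold bv; omega)]
  have k4 : update (update f 4 p) 8 v 4 = p := by
    rw [update_of_ne (by omega), update_self]
  have k8 : update (update f 4 p) 8 v 8 = v := by rw [update_self]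
  show (_ → ∀ i : ℕ, _ → _ → _) ↔ _
  refine imp_congr ?_ (forall_congr' fun i => imp_congr ?_ (imp_congr ?_ ?_))
  · show (x (bv m)).val _ = (ndT (x 4) (x 8)).val _ ↔ _
    simp only [val_ndT, Tm.val]
    rw [k0, k4, k8]
  · rw [sat_lt]
    simp only [Tm.val]
    rw [update_self, update_of_ne (show (8 : ℕ) ≠ av m by unfold av; omega), k8]
  · rw [sat_TR hcon, update_self, update_of_ne (show (2 : ℕ) ≠ av m by unfold av; omega),
      update_of_ne (show (4 : ℕ) ≠ av m by unfold av; omega), k4,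
      update_of_ne (show (2 : ℕ) ≠ 8 by omega), update_of_ne (show (2 : ℕ) ≠ 4 by omega)]
  · rw [sat_CF hcon (OkT.av _) (OkT.bv _)]
    simp only [Tm.val]
    rw [update_self, update_of_ne (show bv m ≠ av m by unfold av bv; omega), k0,
      update_of_ne (show (2 : ℕ) ≠ av m by unfold av; omega),
      update_of_ne (show (2 : ℕ) ≠ 8 by omega), update_of_ne (show (2 : ℕ) ≠ 4 by omega)]

lemma sat_TTF (d m : ℕ) (f : ℕ → ℕ) :
    (TTF I J k D w d m).Sat f ↔ sTT con k D w (f 2) d m := by
  induction d generalizing m f with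
  | zero =>
    refine forall_congr' fun v => ?_
    show (_ → _) ↔ (_ → _)
    rw [sat_PF hcon, sat_CAF hcon, update_self, update_of_ne (by unfold bv; omega)]
  | succ d ih =>
    simp only [TTF, sat_and, sTT, ih]
    refine and_congr (forall_congr' fun v => ?_) Iff.rfl
    show (_ → _) ↔ (_ → _)
    rw [sat_and, sat_PF hcon, sat_CAF hcon, ih, update_self, update_of_ne (by unfold bv; omega)]

lemma sat_XF (d m : ℕ) (f : ℕ → ℕ) :
    (XF I J k D w d m).Sat f ↔ sX con k D w (f 2) d m (f (bv m)) := by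
  cases d with
  | zero => exact sat_PF hcon 0 m f
  | succ d => simp only [XF, sat_and, sX, sat_PF hcon, sat_TTF hcon]

/-! ### Free variables -/

lemma free_CF {m : ℕ} {a b : Tm} (ha : a.Alw) (hb : b.Alw) {j : ℕ}
    (h : (CF I k w m a b).Free j) : j = 2 ∨ a.Has j ∨ b.Has j := by
  obtain ⟨h1, h0, h10, h12, h2 | h2 | h2 | h2 | h2⟩ := h
  · rcases I.free _ _ _ _ _ _ (by simp [ha]) (by simp) (by simp [Al]) (by simp) h2 with
      h | h | h | h
    · rcases h with h | h
      · exact absurd h (Tm.not_has_num _ _)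
      · exact Or.inr (Or.inl h)
    · exact absurd h (Tm.not_has_num _ _)
    · exact absurd h h10
    · exact absurd h (by simp [Tm.Has])
  · rcases h2 with h | h
    · exact absurd h h12
    · exact absurd (has_pwT h) h10
  · rcases I.free _ _ _ _ _ _ (by simp [Al]) (by simp [Al]) (by simp) (by simp) h2 with
      h | h | h | h
    · exact absurd h h12
    · exact absurd h h1
    · exact absurd h (by simp [Tm.Has])
    · exact absurd h (by simp [Tm.Has])
  · rcases I.free _ _ _ _ _ _ (by simp) hb (by simp [Al]) (by simp [Al]) h2 with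
      h | h | h | h
    · exact absurd h (Tm.not_has_num _ _)
    · exact Or.inr (Or.inr h)
    · exact Or.inl h.symm
    · exact absurd h h0
  · have := hcon.free j h2
    omega

lemma free_WF {q j : ℕ} (hq : Al q) (h : (WF I J k D w q).Free j) : j = 4 ∨ j = q := by
  obtain ⟨h6, h14, h10, h | h | ⟨h0, h1, h | h | h⟩⟩ := h
  · rcases h with h | h
    · exact Or.inl h.symm
    · rcases (has_ndT _ _ _).mp h with h | h
      · exact absurd h h6
      · exact absurd h h14
  · rcases I.free _ _ _ _ _ _ (by simp [hq]) (by simp) (by simp [Al]) (by simp) h with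
      h | h | h | h
    · rcases h with h | h
      · exact absurd h (Tm.not_has_num _ _)
      · exact Or.inr h.symm
    · exact absurd h (Tm.not_has_num _ _)
    · exact absurd h h10
    · exact absurd h (by simp [Tm.Has])
  · rcases J.free _ _ _ _ _ _ (by simp [Al]) (by simp [Al]) (by simp) (by simp) h with
      h | h | h | h
    · exact absurd h h6
    · exact absurd h h0
    · exact absurd h (by simp [Tm.Has])
    · exact absurd h (by simp [Tm.Has])
  · rcases h with h | h | h
    · exact absurd h h1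
    · exact absurd h h14
    · exact absurd (has_pwT h) h10
  · have := hcon.free j h
    omega

lemma free_TR {d m j : ℕ} (h : (TR I J k D w d m).Free j) : j = 2 ∨ j = 4 ∨ j = av m := by
  induction d generalizing m j with
  | zero =>
    rcases free_WF hcon (al_av m) h with h | h
    · exact Or.inr (Or.inl h)
    · exact Or.inr (Or.inr h)
  | succ d ih =>
    simp only [TR, free_ex, free_and, free_lt, free_neg] at h
    obtain ⟨h1, (h2 | h2) | ⟨h2, h3 | h3 | h3⟩⟩ := h
    · exact absurd h2 h1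
    · exact Or.inr (Or.inr h2.symm)
    · rcases h3 with h3 | h3
      · exact Or.inr (Or.inr h3.symm)
      · exact absurd h3 h2
    · rcases ih h3 with h | h | h
      · exact Or.inl h
      · exact Or.inr (Or.inl h)
      · exact absurd h.symm h2
    · rcases free_CF hcon (Tm.alw_var (al_av _))
        (alw_ndT.mpr ⟨by simp [Al], Tm.alw_var (al_bv _)⟩) h3 with h | h | h
      · exact Or.inl h
      · exact absurd h h2
      · rcases (has_ndT _ _ _).mp h with h | h
        · exact Or.inr (Or.inl h.symm)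
        · exact absurd h h1

lemma free_PF {d m j : ℕ} (h : (PF I J k D w d m).Free j) : j = 2 ∨ j = bv m := by
  obtain ⟨h4, h8, h2 | ⟨h1, h2 | h2 | h2⟩⟩ := h
  · rcases h2 with h | h
    · exact Or.inr h.symm
    · rcases (has_ndT _ _ _).mp h with h | h
      · exact absurd h h4
      · exact absurd h h8
  · rw [free_lt] at h2
    rcases h2 with h | h
    · exact absurd h h8
    · exact absurd h h1
  · rcases free_TR hcon h2 with h | h | h
    · exact Or.inl h
    · exact absurd h.symm h4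
    · exact absurd h.symm h1
  · rcases free_CF hcon (Tm.alw_var (al_av _)) (Tm.alw_var (al_bv _)) h2 with h | h | h
    · exact Or.inl h
    · exact absurd h h1
    · exact Or.inr h.symm

lemma free_TTF {d m j : ℕ} (h : (TTF I J k D w d m).Free j) : j = 2 := by
  induction d generalizing m j with
  | zero =>
    obtain ⟨h1, h2 | h2⟩ := h
    · rcases free_PF hcon h2 with h | h
      · exact h
      · exact absurd h.symm h1
    · rcases free_CAF hcon h2 with h | h
      · exact h
      · exact absurd h.symm h1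
  | succ d ih =>
    simp only [TTF, free_and] at h
    rcases h with ⟨h1, h2 | h2⟩ | h
    · rw [free_and] at h2
      rcases h2 with h2 | h2
      · rcases free_PF hcon h2 with h | h
        · exact h
        · exact absurd h.symm h1
      · exact ih h2
    · rcases free_CAF hcon h2 with h | h
      · exact h
      · exact absurd h.symm h1
    · exact ih h

lemma free_XF {d m j : ℕ} (h : (XF I J k D w d m).Free j) : j = 2 ∨ j = bv m := by
  cases d with
  | zero => exact free_PF hcon h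
  | succ d =>
    simp only [XF, free_and] at h
    rcases h with h | h
    · exact free_PF hcon h
    · exact Or.inl (free_TTF hcon h)

end SatLemmas

end Helper31Con.ML

end

section

/-!
# The theories of the construction and their semantics
-/

namespace Helper31Con.ML

open Function Filter Fm

variable {con : Fm} {g : ℕ → ℕ} {s₀ : ℕ}

section Th

variable (I : Iface (Rel con g s₀)) (J : Iface RM) (k D : ℕ) (w : ℕ → ℕ) (B : List Fm)

/-- The list of the formulas `Ξ`. -/
def PL : List Fm := (List.range (D + 1)).map fun m => XF I J k D w (D - m) m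

/-- The package. -/
def pk : ℕ := nd (lc B) (lc (PL I J k D w))

/-- The axioms `A_m^V`. -/
def Am (m V : ℕ) : List Fm := th (bv m) (pk I J k D w B) V (XF I J k D w (D - m) m) :: B

/-- The theory `T_m^V = A_m^V + Con`. -/
def Tmv (m V : ℕ) : List Fm := conS con (Am I J k D w B m V) :: Am I J k D w B m V

/-- The axiom `Θ`. -/
def thS : Fm := all 2 (imp (eq (x 2) (.num (pk I J k D w B))) (TTF I J k D w D 0))

variable {I J k D w B}

lemma PL_get {m : ℕ} (hm : m ≤ D) : (PL I J k D w)[m]? = some (XF I J k D w (D - m) m) := by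
  unfold PL
  rw [List.getElem?_map, List.getElem?_range (by omega)]
  rfl

lemma cdA_iff {m V z : ℕ} (hm : m ≤ D) :
    CdA m V (pk I J k D w B) z ↔ z = lc (Am I J k D w B m V) := by
  constructor
  · rintro ⟨lb, P, ξ, h1, ⟨l, φ, h2, h3, h4⟩, h5⟩
    obtain ⟨h6, h7⟩ := nd_inj.mp h1
    rw [h2] at h7
    obtain rfl := lc_inj h7
    rw [PL_get hm] at h3
    obtain rfl := Option.some.inj h3
    rw [h5, h4, ← h6]; rfl
  · rintro rfl
    exact ⟨lc B, lc (PL I J k D w), fc (XF I J k D w (D - m) m), rfl,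
      ⟨PL I J k D w, _, rfl, PL_get hm, rfl⟩, rfl⟩

lemma cdT_iff {m V z : ℕ} (hm : m ≤ D) :
    CdT con m V (pk I J k D w B) z ↔ z = lc (Tmv I J k D w B m V) := by
  constructor
  · rintro ⟨z', h1, h2⟩
    rw [cdA_iff hm] at h1
    subst h1
    exact h2
  · rintro rfl
    exact ⟨lc (Am I J k D w B m V), (cdA_iff hm).mpr rfl, rfl⟩

lemma tb_mono {k i j : ℕ} (h : i ≤ j) : tb k i ≤ tb k j :=
  tw_le_tw (Nat.mul_le_mul_left k h) 2

lemma tb_succ (k i : ℕ) : tb k (i + 1) = tw k (tb k i) := by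
  unfold tb
  rw [← tw_add]
  congr 1; ring

lemma le_tb {k : ℕ} (hk : 1 ≤ k) (i : ℕ) : i + 2 ≤ tb k i := by
  have := add_le_tw (k * i) 2
  have h2 : i ≤ k * i := Nat.le_mul_of_pos_left _ hk
  unfold tb; omega

lemma two_le_tb (k i : ℕ) : 2 ≤ tb k i := by
  have := add_le_tw (k * i) 2
  unfold tb; omega

lemma nx_mono {k m i j : ℕ} {w : ℕ → ℕ} (h : i ≤ j) : nx k w m i ≤ nx k w m j :=
  Nat.pow_le_pow_right (by omega) (Nat.pow_le_pow_left (tb_mono h) _)

lemma nx_mono' {k m m' i : ℕ} {w : ℕ → ℕ} (hw : Monotone w) (h : m ≤ m') :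
    nx k w m i ≤ nx k w m' i :=
  Nat.pow_le_pow_right (by omega)
    (Nat.pow_le_pow_right (by have := two_le_tb k i; omega) (hw h))

lemma tb_le_nx {k m i : ℕ} {w : ℕ → ℕ} (hw : 1 ≤ w m) : tb k i ≤ nx k w m i := by
  have h1 : tb k i ≤ tb k i ^ w m := by
    calc tb k i = tb k i ^ 1 := (pow_one _).symm
      _ ≤ tb k i ^ w m := Nat.pow_le_pow_right (by have := two_le_tb k i; omega) hw
  exact h1.trans Nat.lt_two_pow_self.le

variable (hcon : IsCon con)
include hcon

lemma th_sentence (m V : ℕ) :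
    Fm.Sentence (th (bv m) (pk I J k D w B) V (XF I J k D w (D - m) m)) := by
  intro j h
  obtain ⟨h1, h2 | ⟨h2, h3 | h3⟩⟩ := h
  · rcases h2 with h2 | h2
    · exact h1 h2
    · exact Tm.not_has_num _ _ h2
  · rcases h3 with h3 | h3
    · exact h2 h3
    · exact Tm.not_has_num _ _ h3
  · rcases free_XF hcon h3 with h | h
    · exact h1 h.symm
    · exact h2 h.symm

lemma th_sat (m V : ℕ) (f : ℕ → ℕ) :
    (th (bv m) (pk I J k D w B) V (XF I J k D w (D - m) m)).Sat f ↔
      sX con k D w (pk I J k D w B) (D - m) m V := by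
  have hb : (2 : ℕ) ≠ bv m := by unfold bv; omega
  simp only [th, Fm.Sat, Tm.val, update_self, Tm.val_num]
  constructor
  · intro h
    have := h _ rfl _ rfl
    rw [sat_XF hcon, update_self, update_of_ne hb, update_self] at this
    exact this
  · rintro h c rfl v rfl
    rw [sat_XF hcon, update_self, update_of_ne hb, update_self]
    exact h

lemma thS_sentence : Fm.Sentence (thS I J k D w B) := by
  intro j h
  obtain ⟨h1, h2 | h2⟩ := h
  · rcases h2 with h2 | h2
    · exact h1 h2
    · exact Tm.not_has_num _ _ h2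
  · exact h1 (free_TTF hcon h2).symm

lemma thS_sat (f : ℕ → ℕ) :
    (thS I J k D w B).Sat f ↔ sTT con k D w (pk I J k D w B) D 0 := by
  simp only [thS, Fm.Sat, Tm.val, update_self, Tm.val_num]
  constructor
  · intro h
    have := h _ rfl
    rwa [sat_TTF hcon, update_self] at this
  · rintro h c rfl
    rwa [sat_TTF hcon, update_self]

variable (hB : ∀ β ∈ B, TrueS β)
include hB

lemma Am_sentence (m V : ℕ) : ∀ φ ∈ Am I J k D w B m V, Fm.Sentence φ := by
  intro φ hφ
  rcases List.mem_cons.mp hφ with rfl | hφ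
  · exact th_sentence hcon m V
  · exact (hB φ hφ).1

lemma Tmv_sentence (m V : ℕ) : ∀ φ ∈ Tmv I J k D w B m V, Fm.Sentence φ := by
  intro φ hφ
  rcases List.mem_cons.mp hφ with rfl | hφ
  · exact hcon.conS_sentence _
  · exact Am_sentence hcon hB m V φ hφ

lemma Am_true {m V : ℕ} (h : sX con k D w (pk I J k D w B) (D - m) m V) :
    ∀ φ ∈ Am I J k D w B m V, TrueS φ := by
  intro φ hφ
  rcases List.mem_cons.mp hφ with rfl | hφ
  · exact ⟨th_sentence hcon m V, fun e => (th_sat hcon m V e).mpr h⟩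
  · exact hB φ hφ

lemma Am_consistent {m V : ℕ} (h : sX con k D w (pk I J k D w B) (D - m) m V) (n : ℕ) :
    ¬ Prov (Am I J k D w B m V) n .bot := by
  intro h'
  exact h'.sound (fun φ hφ => (Am_true hcon hB h φ hφ).2) (fun _ => 0)

lemma sC_iff {m i V : ℕ} (hm : m ≤ D) : sC con k w (pk I J k D w B) m i V ↔
    ¬ Prov (Tmv I J k D w B m V) (nx k w m i) .bot := by
  have key : cP con (lc (Tmv I J k D w B m V)) (nx k w m i) ↔
      ¬ Prov (Tmv I J k D w B m V) (nx k w m i) .bot :=
    hcon.sat (Tmv I J k D w B m V) _ (Tmv_sentence hcon hB m V) rfl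
  rw [← key]
  constructor
  · intro h; exact h _ ((cdT_iff hm).mpr rfl)
  · intro h z hz
    rw [cdT_iff hm] at hz
    rw [hz]; exact h

lemma sCA_of {m V : ℕ} (hm : m ≤ D) (h : sX con k D w (pk I J k D w B) (D - m) m V) :
    sCA con (pk I J k D w B) m V := by
  intro n z hz
  rw [cdA_iff hm] at hz
  rw [hz]
  exact (hcon.sat (Am I J k D w B m V) _ (Am_sentence hcon hB m V) rfl).mpr
    (Am_consistent hcon hB h _)

/-- All the statements `Θ` are true. -/
lemma sTT_true (d : ℕ) : ∀ m, m + d = D → sTT con k D w (pk I J k D w B) d m := by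
  induction d with
  | zero =>
    intro m hm V h
    have hD : D - m = 0 := by omega
    refine sCA_of hcon hB (by omega) ?_
    rw [hD]; exact h
  | succ d ih =>
    intro m hm
    refine ⟨fun V h => ?_, ih (m + 1) (by omega)⟩
    have hD : D - m = d + 1 := by omega
    refine sCA_of hcon hB (by omega) ?_
    rw [hD]; exact h

lemma thS_true : TrueS (thS I J k D w B) :=
  ⟨thS_sentence hcon, fun f => (thS_sat hcon f).mpr (sTT_true hcon hB D 0 (by omega))⟩

/-- If `T_m^V` is consistent, its axioms are true. -/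
lemma sX_true {m V : ℕ} (hm : m ≤ D) (h : ∀ n, ¬ Prov (Tmv I J k D w B m V) n .bot) :
    sX con k D w (pk I J k D w B) (D - m) m V :=
  sX_of (sTT_true hcon hB _ m (by omega)) fun _ _ _ _ _ _ => (sC_iff hcon hB hm).mpr (h _)

end Th

end Helper31Con.ML

end

section

/-!
# The rules used in the derivations
-/

namespace Helper31Con.ML

open Function Filter Fm

variable {con : Fm} {g : ℕ → ℕ} {s₀ : ℕ} {I : Iface (Rel con g s₀)} {J : Iface RM}
  {k D : ℕ} {w : ℕ → ℕ}

/-! ### Auxiliary formulas -/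

/-- Consistency statements of the version `x_6` before the node `x_q`. -/
def EF (I : Iface (Rel con g s₀)) (k : ℕ) (w : ℕ → ℕ) (m q : ℕ) : Fm :=
  all 7 (imp (lt (x 6) (x 7)) (imp (lt (x 7) (x q)) (CF I k w m (x 7) (ndT (x 4) (x 6)))))

/-- `x_1` is the node `x_5` at level `m`. -/
def ND (I : Iface (Rel con g s₀)) (k : ℕ) (w : ℕ → ℕ) (m : ℕ) : Fm :=
  all 10 (all 12 (imp (I.A 17 (.mul (.num k) (x 5)) (.num 2) (x 10) .zero)
    (imp (eq (x 12) (pwT (w m) (x 10))) (I.A 16 (x 12) (x 1) .zero .zero))))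

/-- `x_1 = x_15 * T ^ u` for the base `T` of the node `x_5`. -/
def YD (I : Iface (Rel con g s₀)) (k u : ℕ) : Fm :=
  all 10 (imp (I.A 17 (.mul (.num k) (x 5)) (.num 2) (x 10) .zero)
    (eq (x 1) (.mul (x 15) (pwT u (x 10)))))

/-- `x_1 ≤ x_15 * T ^ u` for the base `T` of the node `x_5`. -/
def YL (I : Iface (Rel con g s₀)) (k u : ℕ) : Fm :=
  all 10 (imp (I.A 17 (.mul (.num k) (x 5)) (.num 2) (x 10) .zero)
    (le (x 1) (.mul (x 15) (pwT u (x 10)))))

/-- The open version of `Θ`. -/
def thSO (I : Iface (Rel con g s₀)) (J : Iface RM) (k D : ℕ) (w : ℕ → ℕ) : Fm :=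
  all 2 (imp (eq (x 2) (x 3)) (TTF I J k D w D 0))

lemma okT_p : OkT (x 4) := OkT.var (by simp [Al]) (by omega) (by omega) (by omega) (by omega)
lemma okT_b : OkT (x 6) := OkT.var (by simp [Al]) (by omega) (by omega) (by omega) (by omega)
lemma okT_j : OkT (x 7) := OkT.var (by simp [Al]) (by omega) (by omega) (by omega) (by omega)
lemma okT_i : OkT (x 5) := OkT.var (by simp [Al]) (by omega) (by omega) (by omega) (by omega)
lemma okT_V : OkT (x 9) := OkT.var (by simp [Al]) (by omega) (by omega) (by omega) (by omega)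

lemma sat_ND {m : ℕ} (f : ℕ → ℕ) : (ND I k w m).Sat f ↔ f 1 = nx k w m (f 5) := by
  have key : ∀ (T P : ℕ) (f' : ℕ → ℕ), f' = update (update f 10 T) 12 P →
      ((imp (I.A 17 (.mul (.num k) (x 5)) (.num 2) (x 10) .zero)
    (imp (eq (x 12) (pwT (w m) (x 10))) (I.A 16 (x 12) (x 1) .zero .zero))).Sat f' ↔
      (T = tb k (f 5) → P = T ^ w m → f 1 = 2 ^ P)) := by
    rintro T P f' rfl
    show (_ → _ → _) ↔ _
    refine imp_congr ?_ (imp_congr ?_ ?_)
    · rw [I.satA (by simp [Al])]
      show (x 10).val _ = tw ((Tm.mul (.num k) (x 5)).val _) ((Tm.num 2).val _) ↔ _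
      simp only [Tm.val, Tm.val_num]
      rw [update_of_ne (show (10 : ℕ) ≠ 12 by omega), update_self,
        update_of_ne (show (5 : ℕ) ≠ 12 by omega), update_of_ne (show (5 : ℕ) ≠ 10 by omega)]
      rfl
    · show (x 12).val _ = (pwT (w m) (x 10)).val _ ↔ _
      simp only [Tm.val, val_pwT]
      rw [update_self, update_of_ne (show (10 : ℕ) ≠ 12 by omega), update_self]
    · rw [I.satA (by simp [Al])]
      show (x 1).val _ = 2 ^ ((x 12).val _) ↔ _
      simp only [Tm.val]
      rw [update_self, update_of_ne (show (1 : ℕ) ≠ 12 by omega),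
        update_of_ne (show (1 : ℕ) ≠ 10 by omega)]
  constructor
  · intro h
    exact (key _ _ _ rfl).mp (h (tb k (f 5)) (tb k (f 5) ^ w m)) rfl rfl
  · intro h T P
    refine (key T P _ rfl).mpr fun h1 h2 => ?_
    rw [h, h2, h1]; rfl

lemma sat_YD {u : ℕ} (f : ℕ → ℕ) : (YD I k u).Sat f ↔ f 1 = f 15 * tb k (f 5) ^ u := by
  have key : ∀ (T : ℕ) (f' : ℕ → ℕ), f' = update f 10 T →
      ((imp (I.A 17 (.mul (.num k) (x 5)) (.num 2) (x 10) .zero)
    (eq (x 1) (.mul (x 15) (pwT u (x 10))))).Sat f' ↔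
      (T = tb k (f 5) → f 1 = f 15 * T ^ u)) := by
    rintro T f' rfl
    show (_ → _) ↔ _
    refine imp_congr ?_ ?_
    · rw [I.satA (by simp [Al])]
      show (x 10).val _ = tw ((Tm.mul (.num k) (x 5)).val _) ((Tm.num 2).val _) ↔ _
      simp only [Tm.val, Tm.val_num]
      rw [update_self, update_of_ne (show (5 : ℕ) ≠ 10 by omega)]
      rfl
    · show (x 1).val _ = (Tm.mul (x 15) (pwT u (x 10))).val _ ↔ _
      simp only [Tm.val, val_pwT]
      rw [update_self, update_of_ne (show (1 : ℕ) ≠ 10 by omega),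
        update_of_ne (show (15 : ℕ) ≠ 10 by omega)]
  constructor
  · intro h
    exact (key _ _ rfl).mp (h (tb k (f 5))) rfl
  · intro h T
    refine (key T _ rfl).mpr fun h1 => ?_
    rw [h, h1]

lemma sat_YL {u : ℕ} (f : ℕ → ℕ) : (YL I k u).Sat f ↔ f 1 ≤ f 15 * tb k (f 5) ^ u := by
  have key : ∀ (T : ℕ) (f' : ℕ → ℕ), f' = update f 10 T →
      ((imp (I.A 17 (.mul (.num k) (x 5)) (.num 2) (x 10) .zero)
    (le (x 1) (.mul (x 15) (pwT u (x 10))))).Sat f' ↔
      (T = tb k (f 5) → f 1 ≤ f 15 * T ^ u)) := by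
    rintro T f' rfl
    show (_ → _) ↔ _
    refine imp_congr ?_ ?_
    · rw [I.satA (by simp [Al])]
      show (x 10).val _ = tw ((Tm.mul (.num k) (x 5)).val _) ((Tm.num 2).val _) ↔ _
      simp only [Tm.val, Tm.val_num]
      rw [update_self, update_of_ne (show (5 : ℕ) ≠ 10 by omega)]
      rfl
    · show (x 1).val _ ≤ (Tm.mul (x 15) (pwT u (x 10))).val _ ↔ _
      simp only [Tm.val, val_pwT]
      rw [update_self, update_of_ne (show (1 : ℕ) ≠ 10 by omega),
        update_of_ne (show (15 : ℕ) ≠ 10 by omega)]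
  constructor
  · intro h
    exact (key _ _ rfl).mp (h (tb k (f 5))) rfl
  · intro h T
    refine (key T _ rfl).mpr fun h1 => ?_
    rw [h1]; exact h

section

variable (hcon : IsCon con)
include hcon

lemma sat_EF {m q : ℕ} (hq : q ≠ 7) (f : ℕ → ℕ) : (EF I k w m q).Sat f ↔
    ∀ j, f 6 < j → j < f q → sC con k w (f 2) m j (nd (f 4) (f 6)) := by
  refine forall_congr' fun j => ?_
  simp only [Fm.Sat, sat_lt]
  rw [sat_CF hcon okT_j (okT_p.nd okT_b)]
  simp only [Tm.val, val_ndT, update_self]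
  rw [update_of_ne (by omega), update_of_ne hq, update_of_ne (by omega), update_of_ne (by omega)]

lemma thSO_sat (f : ℕ → ℕ) : (thSO I J k D w).Sat f ↔ sTT con k D w (f 3) D 0 := by
  simp only [thSO, Fm.Sat, Tm.val, update_self]
  constructor
  · intro h
    have := h (f 3) (by rw [update_of_ne (by omega)])
    rwa [sat_TTF hcon, update_self] at this
  · intro h c hc
    rw [update_of_ne (by omega)] at hc
    rwa [sat_TTF hcon, update_self, hc]

lemma thSO_cl {B : List Fm} (f : ℕ → ℕ) (hf : f 3 = pk I J k D w B) :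
    (thSO I J k D w).cl f = thS I J k D w B := by
  set σ : ℕ → Tm := update (fun k => Tm.num (f k)) 2 (x 2) with hσ
  have a1 : σ 2 = x 2 := by rw [hσ, update_self]
  have a2 : σ 3 = .num (pk I J k D w B) := by rw [hσ, update_of_ne (by omega), hf]
  have a5 : (TTF I J k D w D 0).sb σ = TTF I J k D w D 0 := by
    conv_rhs => rw [← Fm.sb_var (TTF I J k D w D 0)]
    refine Fm.sb_congr fun j hj => ?_
    rw [free_TTF hcon hj, hσ, update_self]
  show all 2 (imp (eq (σ 2) (σ 3)) ((TTF I J k D w D 0).sb σ)) = _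
  rw [a1, a2, a5]; rfl

/-! ### Instances -/

lemma CF_cl {m : ℕ} {a b : Tm} {f f' : ℕ → ℕ} (ha : a.Alw) (hb : b.Alw) (h2 : f 2 = f' 2)
    (h3 : ∀ j, a.Has j → f j = f' j) (h4 : ∀ j, b.Has j → f j = f' j) :
    (CF I k w m a b).cl f = (CF I k w m a b).cl f' := by
  refine Fm.cl_congr fun j hj => ?_
  rcases free_CF hcon ha hb hj with rfl | h | h
  · exact h2
  · exact h3 j h
  · exact h4 j h

/-- Instances of the consistency statement for an upper version. -/
lemma CFu_cl {m : ℕ} {f f' : ℕ → ℕ} (h2 : f 2 = f' 2) (h4 : f 4 = f' 4) (h5 : f 5 = f' 5)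
    (h6 : f 6 = f' 6) : (CF I k w m (x 5) (ndT (x 4) (x 6))).cl f =
      (CF I k w m (x 5) (ndT (x 4) (x 6))).cl f' := by
  refine CF_cl hcon okT_i.1 (okT_p.nd okT_b).1 h2 (fun j hj => ?_) (fun j hj => ?_)
  · have : j = 5 := Eq.symm hj
    rw [this]; exact h5
  · rcases (has_ndT _ _ _).mp hj with hj | hj
    · have : j = 4 := Eq.symm hj
      rw [this]; exact h4
    · have : j = 6 := Eq.symm hj
      rw [this]; exact h6

/-- Instances of the consistency statement for a lower version. -/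
lemma CFl_cl {m : ℕ} {f f' : ℕ → ℕ} (h2 : f 2 = f' 2) (h5 : f 5 = f' 5) (h9 : f 9 = f' 9) :
    (CF I k w m (x 5) (x 9)).cl f = (CF I k w m (x 5) (x 9)).cl f' := by
  refine CF_cl hcon okT_i.1 okT_V.1 h2 (fun j hj => ?_) (fun j hj => ?_)
  · have : j = 5 := Eq.symm hj
    rw [this]; exact h5
  · have : j = 9 := Eq.symm hj
    rw [this]; exact h9

lemma EF_cl {m : ℕ} {f f' : ℕ → ℕ} {a a' : ℕ} (ha : a ≠ 7) (ha' : a' ≠ 7) (h2 : f 2 = f' 2)
    (h4 : f 4 = f' 4) (h6 : f 6 = f' 6) (h : f a = f' a') :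
    (EF I k w m a).cl f = (EF I k w m a').cl f' := by
  set σ : ℕ → Tm := update (fun k => Tm.num (f k)) 7 (x 7) with hσ
  set σ' : ℕ → Tm := update (fun k => Tm.num (f' k)) 7 (x 7) with hσ'
  have a1 : σ 6 = σ' 6 := by
    rw [hσ, hσ', update_of_ne (by omega), update_of_ne (by omega), h6]
  have a2 : σ a = σ' a' := by
    rw [hσ, hσ', update_of_ne ha, update_of_ne ha', h]
  have a3 : σ 7 = σ' 7 := by rw [hσ, hσ', update_self, update_self]
  have a4 : (CF I k w m (x 7) (ndT (x 4) (x 6))).sb σ =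
      (CF I k w m (x 7) (ndT (x 4) (x 6))).sb σ' := by
    refine Fm.sb_congr fun j hj => ?_
    rcases free_CF hcon okT_j.1 (okT_p.nd okT_b).1 hj with rfl | h | h
    · rw [hσ, hσ', update_of_ne (by omega), update_of_ne (by omega), h2]
    · have : j = 7 := Eq.symm h
      rw [this]; exact a3
    · rcases (has_ndT _ _ _).mp h with h | h
      · have : j = 4 := Eq.symm h
        rw [this, hσ, hσ', update_of_ne (by omega), update_of_ne (by omega), h4]
      · have : j = 6 := Eq.symm h
        rw [this]; exact a1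
  show all 7 (imp (le (.succ (σ 6)) (σ 7)) (imp (le (.succ (σ 7)) (σ a))
    ((CF I k w m (x 7) (ndT (x 4) (x 6))).sb σ))) = all 7 (imp (le (.succ (σ' 6)) (σ' 7))
    (imp (le (.succ (σ' 7)) (σ' a')) ((CF I k w m (x 7) (ndT (x 4) (x 6))).sb σ')))
  rw [a1, a2, a3, a4]

end

lemma ND_cl {m : ℕ} {f f' : ℕ → ℕ} (h1 : f 1 = f' 1) (h5 : f 5 = f' 5) :
    (ND I k w m).cl f = (ND I k w m).cl f' := by
  refine Fm.cl_congr fun j hj => ?_
  obtain ⟨h10, h12, h | h | h⟩ := hj
  · rcases I.free _ _ _ _ _ _ (by simp [Al]) (by simp) (by simp [Al]) (by simp) h with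
      h | h | h | h
    · rcases h with h | h
      · exact absurd h (Tm.not_has_num _ _)
      · have : j = 5 := Eq.symm h
        rw [this]; exact h5
    · exact absurd h (Tm.not_has_num _ _)
    · exact absurd h h10
    · exact absurd h (by simp [Tm.Has])
  · rcases h with h | h
    · exact absurd h h12
    · exact absurd (has_pwT h) h10
  · rcases I.free _ _ _ _ _ _ (by simp [Al]) (by simp [Al]) (by simp) (by simp) h with
      h | h | h | h
    · exact absurd h h12
    · have : j = 1 := Eq.symm h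
      rw [this]; exact h1
    · exact absurd h (by simp [Tm.Has])
    · exact absurd h (by simp [Tm.Has])

lemma YD_cl {u : ℕ} {f f' : ℕ → ℕ} (h1 : f 1 = f' 1) (h5 : f 5 = f' 5) (h15 : f 15 = f' 15) :
    (YD I k u).cl f = (YD I k u).cl f' := by
  refine Fm.cl_congr fun j hj => ?_
  obtain ⟨h10, h | h⟩ := hj
  · rcases I.free _ _ _ _ _ _ (by simp [Al]) (by simp) (by simp [Al]) (by simp) h with
      h | h | h | h
    · rcases h with h | h
      · exact absurd h (Tm.not_has_num _ _)
      · have : j = 5 := Eq.symm h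
        rw [this]; exact h5
    · exact absurd h (Tm.not_has_num _ _)
    · exact absurd h h10
    · exact absurd h (by simp [Tm.Has])
  · rcases h with h | h | h
    · have : j = 1 := Eq.symm h
      rw [this]; exact h1
    · have : j = 15 := Eq.symm h
      rw [this]; exact h15
    · exact absurd (has_pwT h) h10

lemma YL_cl {u : ℕ} {f f' : ℕ → ℕ} (h1 : f 1 = f' 1) (h5 : f 5 = f' 5) (h15 : f 15 = f' 15) :
    (YL I k u).cl f = (YL I k u).cl f' := by
  refine Fm.cl_congr fun j hj => ?_
  obtain ⟨h10, h | h⟩ := hj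
  · rcases I.free _ _ _ _ _ _ (by simp [Al]) (by simp) (by simp [Al]) (by simp) h with
      h | h | h | h
    · rcases h with h | h
      · exact absurd h (Tm.not_has_num _ _)
      · have : j = 5 := Eq.symm h
        rw [this]; exact h5
    · exact absurd h (Tm.not_has_num _ _)
    · exact absurd h h10
    · exact absurd h (by simp [Tm.Has])
  · rcases h with h | h | h
    · have : j = 1 := Eq.symm h
      rw [this]; exact h1
    · have : j = 15 := Eq.symm h
      rw [this]; exact h15
    · exact absurd (has_pwT h) h10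

/-! ### Facts about nodes -/

lemma nd_fact (I : Iface (Rel con g s₀)) (k : ℕ) (w : ℕ → ℕ) (m : ℕ) :
    ∃ f, PB f ∧ ∀ᶠ B in rich, ∀ i N, i ≤ N → k * i ≤ N → tb k i ≤ N → nx k w m i ≤ N →
      Pr B (f N) (f N) ((ND I k w m).cl (as [0, nx k w m i, 0, 0, 0, i])) := by
  obtain ⟨c, h1⟩ := hornL [eq (x 6) (.mul (.num k) (x 5)), I.A 17 (x 6) (.num 2) (x 10) .zero,
    eq (x 12) (pwT (w m) (x 10)), I.A 16 (x 12) (x 1) .zero .zero] (ND I k w m) (fun e h => by
    rw [List.forall_mem_cons, List.forall_mem_cons, List.forall_mem_cons,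
      List.forall_mem_singleton, I.satA (by simp [Al]), I.satA (by simp [Al])] at h
    obtain ⟨h1, h2, h3, h4⟩ := h
    have h1' : e 6 = k * e 5 := by
      have : (x 6).val e = (Tm.mul (.num k) (x 5)).val e := h1
      simpa [Tm.val] using this
    have h2' : e 10 = tw (e 6) ((Tm.num 2).val e) := h2
    have h3' : e 12 = e 10 ^ w m := by
      have : (x 12).val e = (pwT (w m) (x 10)).val e := h3
      simpa [Tm.val, val_pwT] using this
    have h4' : e 1 = 2 ^ e 12 := h4
    rw [Tm.val_num, h1'] at h2'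
    rw [sat_ND, h4', h3', h2']
    rfl)
  obtain ⟨f1, hf1, g1⟩ := eq_fact (x 6) (.mul (.num k) (x 5))
  obtain ⟨f2, hf2, g2⟩ := tw_fact I
  obtain ⟨f3, hf3, g3⟩ := eq_fact (x 12) (pwT (w m) (x 10))
  obtain ⟨f4, hf4, g4⟩ := ex2_fact I
  refine ⟨fun N => c * (N + 1) + c * (f1 N + f2 N + f3 N + f4 N + 1) + (f1 N + f2 N + f3 N + f4 N),
    ?_, ?_⟩
  · have hF := ((hf1.add hf2).add hf3).add hf4
    exact (((PB.const _).mul (PB.id.add (PB.const 1))).add ((PB.const _).mul
      (hF.add (PB.const 1)))).add hF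
  filter_upwards [h1, g1, g2, g3, g4] with B h1 g1 g2 g3 g4 i N hi hki hT hn
  set M := c * (N + 1) + c * (f1 N + f2 N + f3 N + f4 N + 1) + (f1 N + f2 N + f3 N + f4 N) with hM
  have hP : tb k i ^ w m < nx k w m i := Nat.lt_two_pow_self
  set e0 := as [0, nx k w m i, 0, 0, 0, i, k * i, 0, 0, 0, tb k i, 0, tb k i ^ w m] with he0
  have he0N : ∀ j, e0 j ≤ N := as_le (by
    simp only [List.forall_mem_cons, List.not_mem_nil, IsEmpty.forall_iff, implies_true, and_true]
    omega)
  have p1 := (g1 e0 N he0N (by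
    show k * i = (Tm.num k).val e0 * i
    rw [Tm.val_num])).mono (show f1 N ≤ f1 N + f2 N + f3 N + f4 N by omega)
      (show f1 N ≤ M by omega)
  have p2 : Pr B (f1 N + f2 N + f3 N + f4 N) M ((I.A 17 (x 6) (.num 2) (x 10) .zero).cl e0) := by
    rw [I.clA (by simp [Al]), Tm.cl_num]
    exact (g2 N (k * i) 2 hT).mono (by omega) (by omega)
  have p3 := (g3 e0 N he0N (by
    rw [val_pwT]; rfl)).mono (show f3 N ≤ f1 N + f2 N + f3 N + f4 N by omega)
      (show f3 N ≤ M by omega)
  have p4 : Pr B (f1 N + f2 N + f3 N + f4 N) M ((I.A 16 (x 12) (x 1) .zero .zero).cl e0) := by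
    rw [I.clA (by simp [Al])]
    exact (g4 N (tb k i ^ w m) hn).mono (by omega) (by omega)
  have := h1 e0 N M _ he0N (by omega) (by
    rw [List.forall_mem_cons, List.forall_mem_cons, List.forall_mem_cons,
      List.forall_mem_singleton]
    exact ⟨p1, p2, p3, p4⟩)
  have e1 : (ND I k w m).cl e0 = (ND I k w m).cl (as [0, nx k w m i, 0, 0, 0, i]) :=
    ND_cl rfl rfl
  rw [e1] at this
  exact this.mono (by omega) le_rfl

lemma yd_fact (I : Iface (Rel con g s₀)) (k u : ℕ) :
    ∃ f, PB f ∧ ∀ᶠ B in rich, ∀ i C y N, i ≤ N → k * i ≤ N → tb k i ≤ N → C ≤ N → y ≤ N →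
      y = C * tb k i ^ u →
      Pr B (f N) (f N) ((YD I k u).cl (as [0, y, 0, 0, 0, i, 0, 0, 0, 0, 0, 0, 0, 0, 0, C])) := by
  obtain ⟨c, h1⟩ := hornL [eq (x 6) (.mul (.num k) (x 5)), I.A 17 (x 6) (.num 2) (x 10) .zero,
    eq (x 1) (.mul (x 15) (pwT u (x 10)))] (YD I k u) (fun e h => by
    rw [List.forall_mem_cons, List.forall_mem_cons,
      List.forall_mem_singleton, I.satA (by simp [Al])] at h
    obtain ⟨h1, h2, h3⟩ := h
    have h1' : e 6 = k * e 5 := by
      have : (x 6).val e = (Tm.mul (.num k) (x 5)).val e := h1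
      simpa [Tm.val] using this
    have h2' : e 10 = tw (e 6) ((Tm.num 2).val e) := h2
    have h3' : e 1 = e 15 * e 10 ^ u := by
      have : (x 1).val e = (Tm.mul (x 15) (pwT u (x 10))).val e := h3
      simpa [Tm.val, val_pwT] using this
    rw [Tm.val_num, h1'] at h2'
    rw [sat_YD, h3', h2']
    rfl)
  obtain ⟨f1, hf1, g1⟩ := eq_fact (x 6) (.mul (.num k) (x 5))
  obtain ⟨f2, hf2, g2⟩ := tw_fact I
  obtain ⟨f3, hf3, g3⟩ := eq_fact (x 1) (.mul (x 15) (pwT u (x 10)))
  refine ⟨fun N => c * (N + 1) + c * (f1 N + f2 N + f3 N + 1) + (f1 N + f2 N + f3 N), ?_, ?_⟩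
  · have hF := (hf1.add hf2).add hf3
    exact (((PB.const _).mul (PB.id.add (PB.const 1))).add ((PB.const _).mul
      (hF.add (PB.const 1)))).add hF
  filter_upwards [h1, g1, g2, g3] with B h1 g1 g2 g3 i C y N hi hki hT hC hy hyC
  set M := c * (N + 1) + c * (f1 N + f2 N + f3 N + 1) + (f1 N + f2 N + f3 N) with hM
  set e0 := as [0, y, 0, 0, 0, i, k * i, 0, 0, 0, tb k i, 0, 0, 0, 0, C] with he0
  have he0N : ∀ j, e0 j ≤ N := as_le (by
    simp only [List.forall_mem_cons, List.not_mem_nil, IsEmpty.forall_iff, implies_true, and_true]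
    omega)
  have p1 := (g1 e0 N he0N (by
    show k * i = (Tm.num k).val e0 * i
    rw [Tm.val_num])).mono (show f1 N ≤ f1 N + f2 N + f3 N by omega)
      (show f1 N ≤ M by omega)
  have p2 : Pr B (f1 N + f2 N + f3 N) M ((I.A 17 (x 6) (.num 2) (x 10) .zero).cl e0) := by
    rw [I.clA (by simp [Al]), Tm.cl_num]
    exact (g2 N (k * i) 2 hT).mono (by omega) (by omega)
  have p3 := (g3 e0 N he0N (by
    show y = C * (pwT u (x 10)).val e0
    rw [val_pwT]; exact hyC)).mono (show f3 N ≤ f1 N + f2 N + f3 N by omega)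
      (show f3 N ≤ M by omega)
  have := h1 e0 N M _ he0N (by omega) (by
    rw [List.forall_mem_cons, List.forall_mem_cons,
      List.forall_mem_singleton]
    exact ⟨p1, p2, p3⟩)
  have e1 : (YD I k u).cl e0 = (YD I k u).cl
      (as [0, y, 0, 0, 0, i, 0, 0, 0, 0, 0, 0, 0, 0, 0, C]) := YD_cl rfl rfl rfl
  rw [e1] at this
  exact this.mono (by omega) le_rfl

lemma yl_fact (I : Iface (Rel con g s₀)) (k u : ℕ) :
    ∃ f, PB f ∧ ∀ᶠ B in rich, ∀ i C y N, i ≤ N → k * i ≤ N → tb k i ≤ N → C ≤ N → y ≤ N →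
      y ≤ C * tb k i ^ u →
      Pr B (f N) (f N) ((YL I k u).cl (as [0, y, 0, 0, 0, i, 0, 0, 0, 0, 0, 0, 0, 0, 0, C])) := by
  obtain ⟨c, h1⟩ := hornL [eq (x 6) (.mul (.num k) (x 5)), I.A 17 (x 6) (.num 2) (x 10) .zero,
    le (x 1) (.mul (x 15) (pwT u (x 10)))] (YL I k u) (fun e h => by
    rw [List.forall_mem_cons, List.forall_mem_cons,
      List.forall_mem_singleton, I.satA (by simp [Al])] at h
    obtain ⟨h1, h2, h3⟩ := h
    have h1' : e 6 = k * e 5 := by
      have : (x 6).val e = (Tm.mul (.num k) (x 5)).val e := h1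
      simpa [Tm.val] using this
    have h2' : e 10 = tw (e 6) ((Tm.num 2).val e) := h2
    have h3' : e 1 ≤ e 15 * e 10 ^ u := by
      have : (x 1).val e ≤ (Tm.mul (x 15) (pwT u (x 10))).val e := h3
      simpa [Tm.val, val_pwT] using this
    rw [Tm.val_num, h1'] at h2'
    rw [h2'] at h3'
    rw [sat_YL]
    exact h3')
  obtain ⟨f1, hf1, g1⟩ := eq_fact (x 6) (.mul (.num k) (x 5))
  obtain ⟨f2, hf2, g2⟩ := tw_fact I
  obtain ⟨f3, hf3, g3⟩ := le_fact (x 1) (.mul (x 15) (pwT u (x 10)))
  refine ⟨fun N => c * (N + 1) + c * (f1 N + f2 N + f3 N + 1) + (f1 N + f2 N + f3 N), ?_, ?_⟩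
  · have hF := (hf1.add hf2).add hf3
    exact (((PB.const _).mul (PB.id.add (PB.const 1))).add ((PB.const _).mul
      (hF.add (PB.const 1)))).add hF
  filter_upwards [h1, g1, g2, g3] with B h1 g1 g2 g3 i C y N hi hki hT hC hy hyC
  set M := c * (N + 1) + c * (f1 N + f2 N + f3 N + 1) + (f1 N + f2 N + f3 N) with hM
  set e0 := as [0, y, 0, 0, 0, i, k * i, 0, 0, 0, tb k i, 0, 0, 0, 0, C] with he0
  have he0N : ∀ j, e0 j ≤ N := as_le (by
    simp only [List.forall_mem_cons, List.not_mem_nil, IsEmpty.forall_iff, implies_true, and_true]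
    omega)
  have p1 := (g1 e0 N he0N (by
    show k * i = (Tm.num k).val e0 * i
    rw [Tm.val_num])).mono (show f1 N ≤ f1 N + f2 N + f3 N by omega)
      (show f1 N ≤ M by omega)
  have p2 : Pr B (f1 N + f2 N + f3 N) M ((I.A 17 (x 6) (.num 2) (x 10) .zero).cl e0) := by
    rw [I.clA (by simp [Al]), Tm.cl_num]
    exact (g2 N (k * i) 2 hT).mono (by omega) (by omega)
  have p3 := (g3 e0 N he0N (by
    show y ≤ C * (pwT u (x 10)).val e0
    rw [val_pwT]; exact hyC)).mono (show f3 N ≤ f1 N + f2 N + f3 N by omega)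
      (show f3 N ≤ M by omega)
  have := h1 e0 N M _ he0N (by omega) (by
    rw [List.forall_mem_cons, List.forall_mem_cons,
      List.forall_mem_singleton]
    exact ⟨p1, p2, p3⟩)
  have e1 : (YL I k u).cl e0 = (YL I k u).cl
      (as [0, y, 0, 0, 0, i, 0, 0, 0, 0, 0, 0, 0, 0, 0, C]) := YL_cl rfl rfl rfl
  rw [e1] at this
  exact this.mono (by omega) le_rfl

/-! ### The rules -/

lemma cdT_unique' {m v c z z' : ℕ} (h : CdT con m v c z) (h' : CdT con m v c z') : z = z' := by
  obtain ⟨w, ⟨lb, P, ξ, i1, ⟨l, φ, i2, i3, i4⟩, i5⟩, h1⟩ := h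
  obtain ⟨w', ⟨lb', P', ξ', j1, ⟨l', φ', j2, j3, j4⟩, j5⟩, h1'⟩ := h'
  obtain ⟨k1, k2⟩ := nd_inj.mp (i1.symm.trans j1)
  have k3 : l = l' := lc_inj (i2.symm.trans (k2.trans j2))
  rw [k3, j3] at i3
  have hw : w = w' := by rw [i5, j5, i4, j4, k1, Option.some.inj i3]
  rw [h1, h1', hw]

section

variable (I J k D w) (hcon : IsCon con)
include hcon

lemma R0 (m : ℕ) : ∃ c : ℕ, ∀ᶠ B in rich, ∀ e N M n, (∀ k, e k ≤ N) → c * (N + 1) ≤ M →
    (∀ α ∈ [con, ND I k w m, eq (x 13) (ndT (x 4) (x 6)), I.A 25 (.num m) (x 13) (x 2) (x 0)],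
      Pr B n M (α.cl e)) →
    Pr B (c * (n + 1)) M ((CF I k w m (x 5) (ndT (x 4) (x 6))).cl e) := by
  refine hornL _ _ fun e h => ?_
  rw [List.forall_mem_cons, List.forall_mem_cons, List.forall_mem_cons,
    List.forall_mem_singleton, I.satA (by simp [Al]), hcon.cP_iff, sat_ND] at h
  obtain ⟨h1, h2, h3, h4⟩ := h
  have h3' : e 13 = nd (e 4) (e 6) := by
    have : (x 13).val e = (ndT (x 4) (x 6)).val e := h3
    simpa [Tm.val] using this
  have h4' : CdT con ((Tm.num m).val e) (e 13) (e 2) (e 0) := h4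
  rw [Tm.val_num, h3'] at h4'
  rw [sat_CF hcon okT_i (okT_p.nd okT_b), val_ndT]
  intro z hz
  rw [cdT_unique' hz h4']
  show cP con (e 0) (nx k w m (e 5))
  rw [← h2]
  exact h1

lemma R1 : ∃ c : ℕ, ∀ᶠ B in rich, ∀ e N M n, (∀ k, e k ≤ N) → c * (N + 1) ≤ M →
    (∀ α ∈ [thO (bv D) 3 9 (XF I J k D w 0 D), eq (x 2) (x 3), eq (x 9) (ndT (x 4) (x 11)),
      lt (x 11) (x 5), FT con J 14, eq (x 4) (ndT (x 14) (x 15)), YD I k (w (D + 1))],
      Pr B n M (α.cl e)) →
    Pr B (c * (n + 1)) M ((CF I k w D (x 5) (x 9)).cl e) := by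
  refine hornL _ _ fun e h => ?_
  rw [List.forall_mem_cons, List.forall_mem_cons, List.forall_mem_cons, List.forall_mem_cons,
    List.forall_mem_cons, List.forall_mem_cons, List.forall_mem_singleton,
    thO_sat (by omega) (by omega) (by unfold bv; omega), sat_XF hcon, update_self,
    update_of_ne (show (2 : ℕ) ≠ bv D by unfold bv; omega), update_self, sat_FT hcon (by omega),
    sat_YD, sat_lt] at h
  obtain ⟨h1, h2, h3, h4, h5, h6, h7⟩ := h
  have h2' : e 2 = e 3 := h2
  have h3' : e 9 = nd (e 4) (e 11) := by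
    have : (x 9).val e = (ndT (x 4) (x 11)).val e := h3
    simpa [Tm.val] using this
  have h6' : e 4 = nd (e 14) (e 15) := by
    have : (x 4).val e = (ndT (x 14) (x 15)).val e := h6
    simpa [Tm.val] using this
  have h1' : sP con k D w (e 3) 0 D (e 9) := h1
  rw [sat_CF hcon okT_i okT_V]
  show sC con k w (e 2) D (e 5) (e 9)
  rw [h2']
  refine h1' (e 4) (e 11) h3' (e 5) h4 ?_
  intro a C hp z hz
  rw [h6', nd_inj] at hp
  rw [← hp.1] at hz
  rw [← hp.2, ← h7]
  exact h5 z hz

lemma R2 (m : ℕ) : ∃ c : ℕ, ∀ᶠ B in rich, ∀ e N M n, (∀ k, e k ≤ N) → c * (N + 1) ≤ M →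
    (∀ α ∈ [CF I k w m (x 5) (x 9), ND I k w m, I.A 25 (.num m) (x 9) (x 2) (x 0)],
      Pr B n M (α.cl e)) → Pr B (c * (n + 1)) M (con.cl e) := by
  refine hornL _ _ fun e h => ?_
  rw [List.forall_mem_cons, List.forall_mem_cons,
    List.forall_mem_singleton, I.satA (by simp [Al]), sat_CF hcon okT_i okT_V, sat_ND] at h
  obtain ⟨h1, h2, h3⟩ := h
  have h3' : CdT con ((Tm.num m).val e) (e 9) (e 2) (e 0) := h3
  rw [Tm.val_num] at h3'
  rw [hcon.cP_iff, h2]
  exact h1 _ h3'

lemma R4 (m d : ℕ) : ∃ c : ℕ, ∀ᶠ B in rich, ∀ e N M n, (∀ k, e k ≤ N) → c * (N + 1) ≤ M →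
    (∀ α ∈ [thO (bv m) 3 9 (XF I J k D w (d + 1) m), eq (x 2) (x 3),
      eq (x 9) (ndT (x 4) (x 11)), lt (x 11) (x 5), lt (x 6) (x 5), EF I k w (m + 1) 5,
      neg (thO (bv (m + 1)) 3 13 (XF I J k D w d (m + 1))), eq (x 13) (ndT (x 4) (x 6))],
      Pr B n M (α.cl e)) →
    Pr B (c * (n + 1)) M ((CF I k w m (x 5) (x 9)).cl e) := by
  refine hornL _ _ fun e h => ?_
  rw [List.forall_mem_cons, List.forall_mem_cons, List.forall_mem_cons, List.forall_mem_cons,
    List.forall_mem_cons, List.forall_mem_cons, List.forall_mem_cons, List.forall_mem_singleton,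
    sat_neg, thO_sat (by omega) (by omega) (by unfold bv; omega),
    thO_sat (by omega) (by omega) (by unfold bv; omega), sat_XF hcon, sat_XF hcon, update_self,
    update_of_ne (show (2 : ℕ) ≠ bv m by unfold bv; omega), update_self, update_self,
    update_of_ne (show (2 : ℕ) ≠ bv (m + 1) by unfold bv; omega), update_self,
    sat_EF hcon (by omega), sat_lt, sat_lt] at h
  obtain ⟨h1, h2, h3, h4, h5, h6, h7, h8⟩ := h
  have h2' : e 2 = e 3 := h2
  have h3' : e 9 = nd (e 4) (e 11) := by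
    have : (x 9).val e = (ndT (x 4) (x 11)).val e := h3
    simpa [Tm.val] using this
  have h8' : e 13 = nd (e 4) (e 6) := by
    have : (x 13).val e = (ndT (x 4) (x 6)).val e := h8
    simpa [Tm.val] using this
  rw [sat_CF hcon okT_i okT_V]
  show sC con k w (e 2) m (e 5) (e 9)
  rw [h2'] at h6 ⊢
  rw [h3'] at h1 ⊢
  rw [h8'] at h7
  exact sem_step h1 h4 h5 h6 h7

lemma R5 (m : ℕ) : ∃ c : ℕ, ∀ᶠ B in rich, ∀ e N M n, (∀ k, e k ≤ N) → c * (N + 1) ≤ M →
    Pr B n M ((eq (x 5) (.succ (x 6))).cl e) → Pr B (c + n) M ((EF I k w m 5).cl e) := by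
  refine horn1 fun e h1 => ?_
  rw [sat_EF hcon (by omega)]
  have h1' : e 5 = e 6 + 1 := h1
  intro j h2 h3
  omega

lemma R6 (m : ℕ) : ∃ c : ℕ, ∀ᶠ B in rich, ∀ e N M n₁ n₂ n₃, (∀ k, e k ≤ N) → c * (N + 1) ≤ M →
    Pr B n₁ M ((EF I k w m 5).cl e) → Pr B n₂ M ((CF I k w m (x 5) (ndT (x 4) (x 6))).cl e) →
    Pr B n₃ M ((eq (x 8) (.succ (x 5))).cl e) →
    Pr B (c + n₁ + n₂ + n₃) M ((EF I k w m 8).cl e) := by
  refine horn3 fun e h1 h2 h3 => ?_
  rw [sat_EF hcon (by omega)] at h1 ⊢
  rw [sat_CF hcon okT_i (okT_p.nd okT_b), val_ndT] at h2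
  have h3' : e 8 = e 5 + 1 := h3
  intro j h4 h5
  by_cases h6 : j < e 5
  · exact h1 j h4 h6
  · have : j = e 5 := by omega
    rw [this]; exact h2

lemma R7 (m d : ℕ) : ∃ c : ℕ, ∀ᶠ B in rich, ∀ e N M n, (∀ k, e k ≤ N) → c * (N + 1) ≤ M →
    (∀ α ∈ [imp (thO (bv (m + 1)) 3 13 (XF I J k D w d (m + 1))) (imp (all 1 con) .bot),
      thO (bv m) 3 9 (XF I J k D w (d + 1) m), I.A 24 (.num (m + 1)) (x 13) (x 3) (x 0)],
      Pr B n M (α.cl e)) →
    Pr B (c * (n + 1)) M ((neg (thO (bv (m + 1)) 3 13 (XF I J k D w d (m + 1)))).cl e) := by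
  refine hornL _ _ fun e h => ?_
  rw [List.forall_mem_cons, List.forall_mem_cons,
    List.forall_mem_singleton, I.satA (by simp [Al])] at h
  obtain ⟨h1, h2, h3⟩ := h
  rw [sat_neg]
  intro h4
  refine h1 h4 fun n => ?_
  rw [thO_sat (by omega) (by omega) (by unfold bv; omega), sat_XF hcon, update_self,
    update_of_ne (by unfold bv; omega), update_self] at h2 h4
  have h3' : CdA ((Tm.num (m + 1)).val e) (e 13) (e 3) (e 0) := h3
  rw [Tm.val_num] at h3'
  rw [hcon.cP_iff, update_self, update_of_ne (by omega)]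
  exact sTT_app h2.2 h4 n (e 0) h3'

lemma R7' : ∃ c : ℕ, ∀ᶠ B in rich, ∀ e N M n, (∀ k, e k ≤ N) → c * (N + 1) ≤ M →
    (∀ α ∈ [imp (thO (bv 0) 3 13 (XF I J k D w D 0)) (imp (all 1 con) .bot),
      thSO I J k D w, I.A 24 (.num 0) (x 13) (x 3) (x 0)],
      Pr B n M (α.cl e)) →
    Pr B (c * (n + 1)) M ((neg (thO (bv 0) 3 13 (XF I J k D w D 0))).cl e) := by
  refine hornL _ _ fun e h => ?_
  rw [List.forall_mem_cons, List.forall_mem_cons,
    List.forall_mem_singleton, I.satA (by simp [Al]), thSO_sat hcon] at h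
  obtain ⟨h1, h2, h3⟩ := h
  rw [sat_neg]
  intro h4
  refine h1 h4 fun n => ?_
  rw [thO_sat (by omega) (by omega) (by unfold bv; omega), sat_XF hcon, update_self,
    update_of_ne (by unfold bv; omega), update_self] at h4
  have h3' : CdA ((Tm.num 0).val e) (e 13) (e 3) (e 0) := h3
  rw [Tm.val_num] at h3'
  rw [hcon.cP_iff, update_self, update_of_ne (by omega)]
  exact sTT_app h2 h4 n (e 0) h3'

lemma R8 : ∃ c : ℕ, ∀ᶠ B in rich, ∀ e N M n, (∀ k, e k ≤ N) → c * (N + 1) ≤ M →
    (∀ α ∈ [neg (thO (bv 0) 3 13 (XF I J k D w D 0)), thSO I J k D w, eq (x 2) (x 3),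
      EF I k w 0 5, eq (x 13) (ndT (x 4) (x 6)), eq (x 4) (ndT (x 14) (x 15)),
      J.A 0 (x 14) (x 0) .zero .zero, I.A 11 (x 0) .zero .zero .zero, YL I k (w (D + 1))],
      Pr B n M (α.cl e)) →
    Pr B (c * (n + 1)) M (con.cl e) := by
  refine hornL _ _ fun e h => ?_
  rw [List.forall_mem_cons, List.forall_mem_cons, List.forall_mem_cons, List.forall_mem_cons,
    List.forall_mem_cons, List.forall_mem_cons, List.forall_mem_cons, List.forall_mem_cons,
    List.forall_mem_singleton, I.satA (by simp [Al]), J.satA (by simp [Al]), thSO_sat hcon,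
    sat_neg, thO_sat (by omega) (by omega) (by unfold bv; omega), sat_XF hcon, update_self,
    update_of_ne (show (2 : ℕ) ≠ bv 0 by unfold bv; omega), update_self,
    sat_EF hcon (by omega), sat_YL] at h
  obtain ⟨h1, h2, h3, h4, h5, h6, h7, h8, h9⟩ := h
  have h3' : e 2 = e 3 := h3
  have h5' : e 13 = nd (e 4) (e 6) := by
    have : (x 13).val e = (ndT (x 4) (x 6)).val e := h5
    simpa [Tm.val] using this
  have h6' : e 4 = nd (e 14) (e 15) := by
    have : (x 4).val e = (ndT (x 14) (x 15)).val e := h6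
    simpa [Tm.val] using this
  have h7' : MemF (e 14) (e 0) := h7
  obtain ⟨T, hT, hS⟩ : LSR (e 0) := h8
  rw [h3'] at h4
  rw [h5'] at h1
  obtain ⟨j, hj, h10, _⟩ := sem_fail h2 h4 h1
  obtain ⟨j', hj', h11⟩ := sem_top h10
  have h12 := h11 _ _ h6' _ h7'
  have h13 : cP con (e 0) (e 15 * tb k j' ^ w (D + 1)) ↔
      ¬ Prov T (e 15 * tb k j' ^ w (D + 1)) .bot := hcon.sat T _ hS hT
  rw [h13] at h12
  rw [hcon.sat T e hS hT]
  refine fun h => h12 (h.mono (h9.trans ?_))
  exact Nat.mul_le_mul_left _ (Nat.pow_le_pow_left (tb_mono (by omega)) _)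

end

end Helper31Con.ML

end
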