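import Pool.Agent.Helper31_Dich.Steps
import Pool.Agent.Helper31_Win.Main

section

/-!
# Cost of the derivations
-/

namespace Helper31Con.ML

open Function Filter Fm

variable {con : Fm} {g : ℕ → ℕ} {s₀ : ℕ} {I : Iface (Rel con g s₀)} {J : Iface RM}
  {k D : ℕ} {w : ℕ → ℕ}

lemma cost0 (s F : ℕ) : s + F ≤ (F + 1) * (s + 1) := by nlinarith

lemma cost1 {u K s : ℕ} (c : ℕ) (h : u ≤ K * (s + 1)) :
    c * (u + 1) + u ≤ ((c + 1) * (K + 1)) * (s + 1) := by
  have h1 : u + 1 ≤ (K + 1) * (s + 1) := by nlinarith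
  calc c * (u + 1) + u ≤ (c + 1) * (u + 1) := by nlinarith
    _ ≤ (c + 1) * ((K + 1) * (s + 1)) := Nat.mul_le_mul_left _ h1
    _ = _ := by ring

lemma cost_fin {a b c s : ℕ} (h : a ≤ b * (s + 1)) (h' : b ≤ c) : a ≤ c * (s + 1) :=
  h.trans (Nat.mul_le_mul_right _ h')

variable (I J k D w) (hcon : IsCon con)
include hcon

/-- The derivation at the top level. -/
lemma top_step : ∃ f, PB f ∧ ∀ᶠ A in rich, ∀ c a C p v V i y t n N M s,
    p = nd a C → V = nd p v → v < i → y = C * tb k i ^ w (D + 1) → n = nx k w D i →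
    c ≤ N → V ≤ N → i ≤ N → k * i ≤ N → tb k i ≤ N → y ≤ N → n ≤ N → t ≤ N → f N ≤ M →
    th (bv D) c V (XF I J k D w 0 D) ∈ A →
    Pr A s M ((FT con J 14).cl (as [0, y, 0, 0, 0, 0, 0, 0, 0, 0, 0, 0, 0, 0, a])) →
    Pr A s M (I.A 25 (.num D) (.num V) (.num c) (.num t)) →
    Pr A (f N * (s + 1)) M (con.cl (as [t, n])) := by
  obtain ⟨c1, h1⟩ := R1 I J k D w hcon
  obtain ⟨c2, h2⟩ := R2 I k w hcon D
  obtain ⟨f1, hf1, g1⟩ := eq_fact (x 2) (x 3)
  obtain ⟨f2, hf2, g2⟩ := eq_fact (x 9) (ndT (x 4) (x 11))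
  obtain ⟨f3, hf3, g3⟩ := le_fact (.succ (x 11)) (x 5)
  obtain ⟨f4, hf4, g4⟩ := eq_fact (x 4) (ndT (x 14) (x 15))
  obtain ⟨f5, hf5, g5⟩ := yd_fact I k (w (D + 1))
  obtain ⟨f6, hf6, g6⟩ := nd_fact I k w D
  set L := (thO (bv D) 3 9 (XF I J k D w 0 D)).len with hL
  set F : ℕ → ℕ := fun N => f1 N + f2 N + f3 N + f4 N + f5 N + f6 N + 1 with hF
  have hFP : PB F := ((((((hf1.add hf2).add hf3).add hf4).add hf5).add hf6).add (PB.const 1))
  refine ⟨fun N => (c1 + c2 + L + 1) * (N + 1) +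
    (c2 + 1) * ((c1 + 1) * ((F N + 1) + 1) + 1) + F N, ?_, ?_⟩
  · exact (((PB.const _).mul (PB.id.add (PB.const 1))).add ((PB.const _).mul (((PB.const _).mul
      ((hFP.add (PB.const 1)).add (PB.const 1))).add (PB.const 1)))).add hFP
  filter_upwards [h1, h2, g1, g2, g3, g4, g5, g6] with A h1 h2 g1 g2 g3 g4 g5 g6
    c a C p v V i y t n N M s hp hV hvi hy hn hc hVN hi hki hT hyN hnN ht hM hth q8 q9
  have hpV := lt_nd_l p v
  have hvV := lt_nd_r p v
  have hap := lt_nd_l a C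
  have hCp := lt_nd_r a C
  rw [← hV] at hpV hvV
  rw [← hp] at hap hCp
  have hFN : F N = f1 N + f2 N + f3 N + f4 N + f5 N + f6 N + 1 := rfl
  have hMc : ∀ c, c ≤ c1 + c2 + L + 1 → c * (N + 1) ≤ M := fun c hc =>
    mulle (S := c1 + c2 + L + 1) (by omega) hc
  have hFM : F N ≤ M := by omega
  set e0 := as [0, y, c, c, p, i, 0, 0, 0, V, 0, v, 0, 0, a, C] with he0
  have he0N : ∀ j, e0 j ≤ N := as_le (by
    simp only [List.forall_mem_cons, List.not_mem_nil, IsEmpty.forall_iff, implies_true, and_true]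
    omega)
  have hthO : (thO (bv D) 3 9 (XF I J k D w 0 D)).cl e0 = th (bv D) c V (XF I J k D w 0 D) :=
    thO_cl (fun k hk => free_XF hcon hk) (by omega) (by omega) (by unfold bv; omega)
      (by unfold bv; omega) e0
  obtain ⟨u0, hu0⟩ : ∃ u0, u0 = s + F N := ⟨_, rfl⟩
  have p1 : Pr A u0 M ((thO (bv D) 3 9 (XF I J k D w 0 D)).cl e0) := by
    refine (Pr.mem ?_ ?_).mono (show 1 ≤ u0 by omega) le_rfl
    · rw [hthO]; exact hth
    · refine (Fm.len_cl he0N).trans ?_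
      rw [← hL]
      exact hMc _ (by omega)
  have p2 := (g1 e0 N he0N rfl).mono (show f1 N ≤ u0 by omega) (show f1 N ≤ M by omega)
  have p3 := (g2 e0 N he0N (by rw [val_ndT]; exact hV)).mono
    (show f2 N ≤ u0 by omega) (show f2 N ≤ M by omega)
  have p4 := (g3 e0 N he0N (by show v + 1 ≤ i; omega)).mono
    (show f3 N ≤ u0 by omega) (show f3 N ≤ M by omega)
  have p5 : Pr A u0 M ((FT con J 14).cl e0) := by
    have e1 : (FT con J 14).cl e0 =
        (FT con J 14).cl (as [0, y, 0, 0, 0, 0, 0, 0, 0, 0, 0, 0, 0, 0, a]) :=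
      FT_cl hcon (by omega) (by omega) rfl rfl
    rw [e1]
    exact q8.mono (by omega) le_rfl
  have p6 := (g4 e0 N he0N (by rw [val_ndT]; exact hp)).mono
    (show f4 N ≤ u0 by omega) (show f4 N ≤ M by omega)
  have p7 : Pr A u0 M ((YD I k (w (D + 1))).cl e0) := by
    have e1 : (YD I k (w (D + 1))).cl e0 = (YD I k (w (D + 1))).cl
        (as [0, y, 0, 0, 0, i, 0, 0, 0, 0, 0, 0, 0, 0, 0, C]) := YD_cl rfl rfl rfl
    rw [e1]
    exact (g5 i C y N hi hki hT (by omega) hyN hy).mono (by omega) (by omega)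
  have s1 := h1 e0 N M u0 he0N (hMc _ (by omega)) (by
    rw [List.forall_mem_cons, List.forall_mem_cons, List.forall_mem_cons, List.forall_mem_cons,
      List.forall_mem_cons, List.forall_mem_cons, List.forall_mem_singleton]
    exact ⟨p1, p2, p3, p4, p5, p6, p7⟩)
  -- the second rule
  set e1 := as [t, n, c, c, p, i, 0, 0, 0, V] with he1
  have he1N : ∀ j, e1 j ≤ N := as_le (by
    simp only [List.forall_mem_cons, List.not_mem_nil, IsEmpty.forall_iff, implies_true, and_true]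
    omega)
  have e4 : (CF I k w D (x 5) (x 9)).cl e0 = (CF I k w D (x 5) (x 9)).cl e1 :=
    CFl_cl hcon rfl rfl rfl
  rw [e4] at s1
  obtain ⟨u1, hu1⟩ : ∃ u1, u1 = c1 * (u0 + 1) + u0 := ⟨_, rfl⟩
  have p8 : Pr A u1 M ((ND I k w D).cl e1) := by
    have e5 : (ND I k w D).cl e1 = (ND I k w D).cl (as [0, nx k w D i, 0, 0, 0, i]) := by
      rw [← hn]; exact ND_cl rfl rfl
    rw [e5]
    exact (g6 i N hi hki hT (by omega)).mono (by omega) (by omega)
  have p9 : Pr A u1 M ((I.A 25 (.num D) (x 9) (x 2) (x 0)).cl e1) := by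
    rw [I.clA (by simp [Al]), Tm.cl_num]
    exact q9.mono (by omega) le_rfl
  have s2 := h2 e1 N M u1 he1N (hMc _ (by omega)) (by
    rw [List.forall_mem_cons, List.forall_mem_cons, List.forall_mem_singleton]
    exact ⟨s1.mono (by omega) le_rfl, p8, p9⟩)
  have e5 : con.cl e1 = con.cl (as [t, n]) := hcon.cl_congr rfl rfl
  rw [e5] at s2
  have b0 : u0 ≤ (F N + 1) * (s + 1) := by rw [hu0]; exact cost0 s (F N)
  have b1 : u1 ≤ ((c1 + 1) * ((F N + 1) + 1)) * (s + 1) := by rw [hu1]; exact cost1 c1 b0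
  have b2 := cost1 c2 b1
  refine s2.mono (cost_fin ((Nat.le_add_right _ u1).trans b2) ?_) le_rfl
  exact le_mid _ _ _

/-- Consistency facts, with versions. -/
lemma cf_step (m : ℕ) : ∃ f, PB f ∧ ∀ᶠ A in rich, ∀ c p b V i n t N M s,
    V = nd p b → n = nx k w m i → c ≤ N → V ≤ N → i ≤ N → k * i ≤ N → tb k i ≤ N → n ≤ N →
    t ≤ N → f N ≤ M →
    Pr A s M (con.cl (as [t, n])) →
    Pr A s M (I.A 25 (.num m) (.num V) (.num c) (.num t)) →
    Pr A (f N * (s + 1)) M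
      ((CF I k w m (x 5) (ndT (x 4) (x 6))).cl (as [0, 0, c, c, p, i, b])) := by
  obtain ⟨c0, h0⟩ := R0 I k w hcon m
  obtain ⟨f1, hf1, g1⟩ := nd_fact I k w m
  obtain ⟨f2, hf2, g2⟩ := eq_fact (x 13) (ndT (x 4) (x 6))
  set F : ℕ → ℕ := fun N => f1 N + f2 N with hF
  have hFP : PB F := hf1.add hf2
  refine ⟨fun N => c0 * (N + 1) + (c0 + 1) * ((F N + 1) + 1) + F N, ?_, ?_⟩
  · exact (((PB.const _).mul (PB.id.add (PB.const 1))).add ((PB.const _).mul
      ((hFP.add (PB.const 1)).add (PB.const 1)))).add hFP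
  filter_upwards [h0, g1, g2] with A h0 g1 g2 c p b V i n t N M s hV hn hc hVN hi hki hT hnN ht hM
    q1 q2
  have hpV := lt_nd_l p b
  have hbV := lt_nd_r p b
  rw [← hV] at hpV hbV
  have hFN : F N = f1 N + f2 N := rfl
  set e0 := as [t, n, c, c, p, i, b, 0, 0, 0, 0, 0, 0, V] with he0
  have he0N : ∀ j, e0 j ≤ N := as_le (by
    simp only [List.forall_mem_cons, List.not_mem_nil, IsEmpty.forall_iff, implies_true, and_true]
    omega)
  obtain ⟨u0, hu0⟩ : ∃ u0, u0 = s + F N := ⟨_, rfl⟩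
  have p1 : Pr A u0 M (con.cl e0) := by
    have e3 : con.cl e0 = con.cl (as [t, n]) := hcon.cl_congr rfl rfl
    rw [e3]
    exact q1.mono (by omega) le_rfl
  have p2 : Pr A u0 M ((ND I k w m).cl e0) := by
    have e5 : (ND I k w m).cl e0 = (ND I k w m).cl (as [0, nx k w m i, 0, 0, 0, i]) := by
      rw [← hn]; exact ND_cl rfl rfl
    rw [e5]
    exact (g1 i N hi hki hT (by omega)).mono (by omega) (by omega)
  have p3 := (g2 e0 N he0N (by rw [val_ndT]; exact hV)).mono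
    (show f2 N ≤ u0 by omega) (show f2 N ≤ M by omega)
  have p9 : Pr A u0 M ((I.A 25 (.num m) (x 13) (x 2) (x 0)).cl e0) := by
    rw [I.clA (by simp [Al]), Tm.cl_num]
    exact q2.mono (by omega) le_rfl
  have s2 := h0 e0 N M u0 he0N (by omega) (by
    rw [List.forall_mem_cons, List.forall_mem_cons, List.forall_mem_cons,
      List.forall_mem_singleton]
    exact ⟨p1, p2, p3, p9⟩)
  have e4 : (CF I k w m (x 5) (ndT (x 4) (x 6))).cl e0 =
      (CF I k w m (x 5) (ndT (x 4) (x 6))).cl (as [0, 0, c, c, p, i, b]) :=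
    CFu_cl hcon rfl rfl rfl rfl
  rw [e4] at s2
  have b0 : u0 ≤ (F N + 1) * (s + 1) := by rw [hu0]; exact cost0 s (F N)
  have b1 := cost1 c0 b0
  refine s2.mono (cost_fin ((Nat.le_add_right _ u0).trans b1) ?_) le_rfl
  exact le_mid _ _ _

/-- The collection of consistency facts before a node. -/
lemma ef_step (m : ℕ) : ∃ f, PB f ∧ ∀ᶠ A in rich, ∀ c p i b N M s,
    c ≤ N → p ≤ N → b < i → i ≤ N → f N ≤ M →
    (∀ j, b < j → j < i →
      Pr A s M ((CF I k w m (x 5) (ndT (x 4) (x 6))).cl (as [0, 0, c, c, p, j, b]))) →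
    Pr A (i * (f N + s)) M ((EF I k w m 5).cl (as [0, 0, c, c, p, i, b])) := by
  obtain ⟨c5, h5⟩ := R5 I k w hcon m
  obtain ⟨c6, h6⟩ := R6 I k w hcon m
  obtain ⟨fe, hfe, he⟩ := eq_fact (x 5) (.succ (x 6))
  obtain ⟨fe', hfe', he'⟩ := eq_fact (x 8) (.succ (x 5))
  set C := c5 + c6 + 1 with hC
  refine ⟨fun N => C * (N + 1) + (fe N + fe' N), ?_, ?_⟩
  · exact ((PB.const _).mul (PB.id.add (PB.const 1))).add (hfe.add hfe')
  filter_upwards [h5, h6, he, he'] with A h5 h6 he he' c p i b N M s hc hp hbi hi hM hj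
  have hMc : ∀ c, c ≤ C → c * (N + 1) ≤ M := fun c hc =>
    mulle (S := C) (by omega) hc
  have hCN : C ≤ C * (N + 1) := Nat.le_mul_of_pos_right _ (by omega)
  set q := C * (N + 1) + (fe N + fe' N) + s with hq
  obtain ⟨r, rfl⟩ : ∃ r, i = b + 1 + r := ⟨i - b - 1, by omega⟩
  have key := chain (B := A)
    (P := fun j => (EF I k w m 5).cl (as [0, 0, c, c, p, b + 1 + j, b]))
    (s := q) (M := M) (a := r) ?_ ?_ r le_rfl
  · refine key.mono ?_ le_rfl
    exact Nat.mul_le_mul_right _ (by omega)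
  · have he0N : ∀ j, as [0, 0, c, c, p, b + 1, b] j ≤ N := as_le (by
      simp only [List.forall_mem_cons, List.not_mem_nil, IsEmpty.forall_iff, implies_true,
        and_true]
      omega)
    have q1 := (he _ N he0N rfl).mono (M' := M) le_rfl (by omega)
    exact (h5 _ N M _ he0N (hMc _ (by omega)) q1).mono (by omega) le_rfl
  · intro j hjr n hn
    set e1 := as [0, 0, c, c, p, b + 1 + j, b, 0, b + 1 + j + 1] with he1
    have he1N : ∀ j, e1 j ≤ N := as_le (by
      simp only [List.forall_mem_cons, List.not_mem_nil, IsEmpty.forall_iff, implies_true,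
        and_true]
      omega)
    have q0 : Pr A n M ((EF I k w m 5).cl e1) := by
      have e3 : (EF I k w m 5).cl e1 = (EF I k w m 5).cl (as [0, 0, c, c, p, b + 1 + j, b]) :=
        EF_cl hcon (by omega) (by omega) rfl rfl rfl rfl
      rw [e3]
      exact hn
    have q1 : Pr A s M ((CF I k w m (x 5) (ndT (x 4) (x 6))).cl e1) := by
      have e3 : (CF I k w m (x 5) (ndT (x 4) (x 6))).cl e1 =
          (CF I k w m (x 5) (ndT (x 4) (x 6))).cl (as [0, 0, c, c, p, b + 1 + j, b]) :=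
        CFu_cl hcon rfl rfl rfl rfl
      rw [e3]
      exact hj _ (by omega) (by omega)
    have q2 := (he' e1 N he1N rfl).mono (M' := M) le_rfl (by omega)
    have q3 := h6 e1 N M _ _ _ he1N (hMc _ (by omega)) q0 q1 q2
    have e4 : (EF I k w m 8).cl e1 =
        (EF I k w m 5).cl (as [0, 0, c, c, p, b + 1 + (j + 1), b]) :=
      EF_cl hcon (by omega) (by omega) rfl rfl rfl rfl
    rw [e4] at q3
    exact q3.mono (by omega) le_rfl

/-- The derivation at a lower level. -/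
lemma lt_step (m d : ℕ) : ∃ f, PB f ∧ ∀ᶠ A in rich, ∀ c p v b V V' i n tA t N M s,
    V = nd p v → V' = nd p b → v < i → b < i → n = nx k w m i →
    c ≤ N → V ≤ N → V' ≤ N → i ≤ N → k * i ≤ N → tb k i ≤ N → n ≤ N → tA ≤ N → t ≤ N → f N ≤ M →
    th (bv m) c V (XF I J k D w (d + 1) m) ∈ A →
    Pr A s M ((EF I k w (m + 1) 5).cl (as [0, 0, c, c, p, i, b])) →
    Pr A s M (imp (th (bv (m + 1)) c V' (XF I J k D w d (m + 1)))
      (imp (all 1 (con.sub 0 (.num tA))) .bot)) →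
    Pr A s M (I.A 24 (.num (m + 1)) (.num V') (.num c) (.num tA)) →
    Pr A s M (I.A 25 (.num m) (.num V) (.num c) (.num t)) →
    Pr A (f N * (s + 1)) M (con.cl (as [t, n])) := by
  obtain ⟨c7, h7⟩ := R7 I J k D w hcon m d
  obtain ⟨c4, h4⟩ := R4 I J k D w hcon m d
  obtain ⟨c2, h2⟩ := R2 I k w hcon m
  obtain ⟨f1, hf1, g1⟩ := eq_fact (x 2) (x 3)
  obtain ⟨f2, hf2, g2⟩ := eq_fact (x 9) (ndT (x 4) (x 11))
  obtain ⟨f3, hf3, g3⟩ := le_fact (.succ (x 11)) (x 5)
  obtain ⟨f4, hf4, g4⟩ := le_fact (.succ (x 6)) (x 5)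
  obtain ⟨f5, hf5, g5⟩ := eq_fact (x 13) (ndT (x 4) (x 6))
  obtain ⟨f6, hf6, g6⟩ := nd_fact I k w m
  set L := (thO (bv m) 3 9 (XF I J k D w (d + 1) m)).len with hL
  set F : ℕ → ℕ := fun N => f1 N + f2 N + f3 N + f4 N + f5 N + f6 N + 1 with hF
  have hFP : PB F := ((((((hf1.add hf2).add hf3).add hf4).add hf5).add hf6).add (PB.const 1))
  refine ⟨fun N => (c7 + c4 + c2 + L + 1) * (N + 1) +
    (c2 + 1) * ((c4 + 1) * ((c7 + 1) * ((F N + 1) + 1) + 1) + 1) + F N, ?_, ?_⟩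
  · exact (((PB.const _).mul (PB.id.add (PB.const 1))).add ((PB.const _).mul (((PB.const _).mul
      (((PB.const _).mul ((hFP.add (PB.const 1)).add (PB.const 1))).add (PB.const 1))).add
      (PB.const 1)))).add hFP
  filter_upwards [h7, h4, h2, g1, g2, g3, g4, g5, g6] with A h7 h4 h2 g1 g2 g3 g4 g5 g6
    c p v b V V' i n tA t N M s hV hV' hvi hbi hn hc hVN hVN' hi hki hT hnN htA ht hM hth
    q1 q2 q3 q4
  have hpV := lt_nd_l p v
  have hvV := lt_nd_r p v
  have hpV' := lt_nd_l p b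
  have hbV' := lt_nd_r p b
  rw [← hV] at hpV hvV
  rw [← hV'] at hpV' hbV'
  have hFN : F N = f1 N + f2 N + f3 N + f4 N + f5 N + f6 N + 1 := rfl
  have hMc : ∀ c, c ≤ c7 + c4 + c2 + L + 1 → c * (N + 1) ≤ M := fun c hc =>
    mulle (S := c7 + c4 + c2 + L + 1) (by omega) hc
  have hFM : F N ≤ M := by omega
  set e0 := as [tA, 0, c, c, p, i, b, 0, 0, V, 0, v, 0, V'] with he0
  have he0N : ∀ j, e0 j ≤ N := as_le (by
    simp only [List.forall_mem_cons, List.not_mem_nil, IsEmpty.forall_iff, implies_true, and_true]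
    omega)
  have hthO : (thO (bv m) 3 9 (XF I J k D w (d + 1) m)).cl e0 =
      th (bv m) c V (XF I J k D w (d + 1) m) :=
    thO_cl (fun k hk => free_XF hcon hk) (by omega) (by omega) (by unfold bv; omega)
      (by unfold bv; omega) e0
  have hthO' : (thO (bv (m + 1)) 3 13 (XF I J k D w d (m + 1))).cl e0 =
      th (bv (m + 1)) c V' (XF I J k D w d (m + 1)) :=
    thO_cl (fun k hk => free_XF hcon hk) (by omega) (by omega) (by unfold bv; omega)
      (by unfold bv; omega) e0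
  have hall : (all 1 con).cl e0 = all 1 (con.sub 0 (.num tA)) := by
    show all 1 _ = all 1 _
    refine congrArg (all 1) ?_
    rw [sub_sb_num]
    refine Fm.sb_congr fun k hk => ?_
    have := hcon.free k hk
    interval_cases k
    · rw [update_of_ne (show (0 : ℕ) ≠ 1 by omega), update_self]; rfl
    · rw [update_of_ne (show (1 : ℕ) ≠ 0 by omega), update_self]
  obtain ⟨u0, hu0⟩ : ∃ u0, u0 = s + F N := ⟨_, rfl⟩
  have p1 : Pr A u0 M ((thO (bv m) 3 9 (XF I J k D w (d + 1) m)).cl e0) := by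
    refine (Pr.mem ?_ ?_).mono (show 1 ≤ u0 by omega) le_rfl
    · rw [hthO]; exact hth
    · refine (Fm.len_cl he0N).trans ?_
      rw [← hL]
      exact hMc _ (by omega)
  -- the negation of `Ξ`
  have p2 : Pr A u0 M ((imp (thO (bv (m + 1)) 3 13 (XF I J k D w d (m + 1)))
      (imp (all 1 con) .bot)).cl e0) := by
    have : (imp (thO (bv (m + 1)) 3 13 (XF I J k D w d (m + 1))) (imp (all 1 con) .bot)).cl e0 =
      imp ((thO (bv (m + 1)) 3 13 (XF I J k D w d (m + 1))).cl e0)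
        (imp ((all 1 con).cl e0) .bot) := rfl
    rw [this, hthO', hall]
    exact q2.mono (by omega) le_rfl
  have p3 : Pr A u0 M ((I.A 24 (.num (m + 1)) (x 13) (x 3) (x 0)).cl e0) := by
    rw [I.clA (by simp [Al]), Tm.cl_num]
    exact q3.mono (by omega) le_rfl
  have s1 := h7 e0 N M u0 he0N (hMc _ (by omega)) (by
    rw [List.forall_mem_cons, List.forall_mem_cons, List.forall_mem_singleton]
    exact ⟨p2, p1, p3⟩)
  -- the step
  obtain ⟨u1, hu1⟩ : ∃ u1, u1 = c7 * (u0 + 1) + u0 := ⟨_, rfl⟩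
  have p4 := (g1 e0 N he0N rfl).mono (show f1 N ≤ u1 by omega) (show f1 N ≤ M by omega)
  have p5 := (g2 e0 N he0N (by rw [val_ndT]; exact hV)).mono
    (show f2 N ≤ u1 by omega) (show f2 N ≤ M by omega)
  have p6 := (g3 e0 N he0N (by show v + 1 ≤ i; omega)).mono
    (show f3 N ≤ u1 by omega) (show f3 N ≤ M by omega)
  have p7 := (g4 e0 N he0N (by show b + 1 ≤ i; omega)).mono
    (show f4 N ≤ u1 by omega) (show f4 N ≤ M by omega)
  have p8 := (g5 e0 N he0N (by rw [val_ndT]; exact hV')).mono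
    (show f5 N ≤ u1 by omega) (show f5 N ≤ M by omega)
  have p9 : Pr A u1 M ((EF I k w (m + 1) 5).cl e0) := by
    have e5 : (EF I k w (m + 1) 5).cl e0 = (EF I k w (m + 1) 5).cl (as [0, 0, c, c, p, i, b]) :=
      EF_cl hcon (by omega) (by omega) rfl rfl rfl rfl
    rw [e5]
    exact q1.mono (by omega) le_rfl
  have s2 := h4 e0 N M u1 he0N (hMc _ (by omega)) (by
    rw [List.forall_mem_cons, List.forall_mem_cons, List.forall_mem_cons, List.forall_mem_cons,
      List.forall_mem_cons, List.forall_mem_cons, List.forall_mem_cons,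
      List.forall_mem_singleton]
    exact ⟨p1.mono (by omega) le_rfl, p4, p5, p6, p7, p9, s1.mono (by omega) le_rfl, p8⟩)
  -- the conclusion
  set e1 := as [t, n, c, c, p, i, 0, 0, 0, V] with he1
  have he1N : ∀ j, e1 j ≤ N := as_le (by
    simp only [List.forall_mem_cons, List.not_mem_nil, IsEmpty.forall_iff, implies_true, and_true]
    omega)
  have e4 : (CF I k w m (x 5) (x 9)).cl e0 = (CF I k w m (x 5) (x 9)).cl e1 :=
    CFl_cl hcon rfl rfl rfl
  rw [e4] at s2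
  obtain ⟨u2, hu2⟩ : ∃ u2, u2 = c4 * (u1 + 1) + u1 := ⟨_, rfl⟩
  have p10 : Pr A u2 M ((ND I k w m).cl e1) := by
    have e5 : (ND I k w m).cl e1 = (ND I k w m).cl (as [0, nx k w m i, 0, 0, 0, i]) := by
      rw [← hn]; exact ND_cl rfl rfl
    rw [e5]
    exact (g6 i N hi hki hT (by omega)).mono (by omega) (by omega)
  have p11 : Pr A u2 M ((I.A 25 (.num m) (x 9) (x 2) (x 0)).cl e1) := by
    rw [I.clA (by simp [Al]), Tm.cl_num]
    exact q4.mono (by omega) le_rfl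
  have s3 := h2 e1 N M u2 he1N (hMc _ (by omega)) (by
    rw [List.forall_mem_cons, List.forall_mem_cons, List.forall_mem_singleton]
    exact ⟨s2.mono (by omega) le_rfl, p10, p11⟩)
  have e5 : con.cl e1 = con.cl (as [t, n]) := hcon.cl_congr rfl rfl
  rw [e5] at s3
  have b0 : u0 ≤ (F N + 1) * (s + 1) := by rw [hu0]; exact cost0 s (F N)
  have b1 : u1 ≤ ((c7 + 1) * ((F N + 1) + 1)) * (s + 1) := by rw [hu1]; exact cost1 c7 b0
  have b2 : u2 ≤ ((c4 + 1) * ((c7 + 1) * ((F N + 1) + 1) + 1)) * (s + 1) := by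
    rw [hu2]; exact cost1 c4 b1
  have b3 := cost1 c2 b2
  refine s3.mono (cost_fin ((Nat.le_add_right _ u2).trans b3) ?_) le_rfl
  exact le_mid _ _ _

/-- The derivation from the axiom `Θ`. -/
lemma bot_step : ∃ f, PB f ∧ ∀ᶠ A in rich, ∀ (B : List Fm) (l : List ℕ) c C p b V' z i y tA N M s,
    c = pk I J k D w B → p = nd (cN l) C → V' = nd p b → y ≤ C * tb k i ^ w (D + 1) →
    z ∈ l → c ≤ N → V' ≤ N → i ≤ N → k * i ≤ N → tb k i ≤ N → y ≤ N → tA ≤ N →
    f N ≤ M → thS I J k D w B ∈ A →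
    Pr A s M ((EF I k w 0 5).cl (as [0, 0, c, c, p, i, b])) →
    Pr A s M (imp (th (bv 0) c V' (XF I J k D w D 0))
      (imp (all 1 (con.sub 0 (.num tA))) .bot)) →
    Pr A s M (I.A 24 (.num 0) (.num V') (.num c) (.num tA)) →
    Pr A s M (I.A 11 (.num z) .zero .zero .zero) →
    Pr A (f N * (s + 1)) M (con.cl (as [z, y])) := by
  obtain ⟨c7, h7⟩ := R7' I J k D w hcon
  obtain ⟨c8, h8⟩ := R8 I J k D w hcon
  obtain ⟨f1, hf1, g1⟩ := eq_fact (x 2) (x 3)
  obtain ⟨f2, hf2, g2⟩ := eq_fact (x 13) (ndT (x 4) (x 6))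
  obtain ⟨f3, hf3, g3⟩ := eq_fact (x 4) (ndT (x 14) (x 15))
  obtain ⟨f4, hf4, g4⟩ := mem_fact J
  obtain ⟨f5, hf5, g5⟩ := yl_fact I k (w (D + 1))
  set L := (thSO I J k D w).len with hL
  set F : ℕ → ℕ := fun N => f1 N + f2 N + f3 N + f4 N + f5 N + 1 with hF
  have hFP : PB F := (((((hf1.add hf2).add hf3).add hf4).add hf5).add (PB.const 1))
  refine ⟨fun N => (c7 + c8 + L + 1) * (N + 1) +
    (c8 + 1) * ((c7 + 1) * ((F N + 1) + 1) + 1) + F N, ?_, ?_⟩
  · exact (((PB.const _).mul (PB.id.add (PB.const 1))).add ((PB.const _).mul (((PB.const _).mul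
      ((hFP.add (PB.const 1)).add (PB.const 1))).add (PB.const 1)))).add hFP
  filter_upwards [h7, h8, g1, g2, g3, g4, g5] with A h7 h8 g1 g2 g3 g4 g5
    B l c C p b V' z i y tA N M s hcB hp hV' hy hz hc hVN' hi hki hT hyN htA hM hth
    q1 q2 q3 q4
  have hpV' := lt_nd_l p b
  have hbV' := lt_nd_r p b
  have hap := lt_nd_l (cN l) C
  have hCp := lt_nd_r (cN l) C
  have hzl := mem_le_cN hz
  rw [← hV'] at hpV' hbV'
  rw [← hp] at hap hCp
  have hFN : F N = f1 N + f2 N + f3 N + f4 N + f5 N + 1 := rfl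
  have hMc : ∀ c, c ≤ c7 + c8 + L + 1 → c * (N + 1) ≤ M := fun c hc =>
    mulle (S := c7 + c8 + L + 1) (by omega) hc
  have hFM : F N ≤ M := by omega
  set e0 := as [tA, 0, c, c, p, i, b, 0, 0, 0, 0, 0, 0, V'] with he0
  have he0N : ∀ j, e0 j ≤ N := as_le (by
    simp only [List.forall_mem_cons, List.not_mem_nil, IsEmpty.forall_iff, implies_true, and_true]
    omega)
  have hthO' : ∀ e : ℕ → ℕ, e 3 = c → e 13 = V' →
      (thO (bv 0) 3 13 (XF I J k D w D 0)).cl e = th (bv 0) c V' (XF I J k D w D 0) := by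
    intro e h3 h13
    rw [← h3, ← h13]
    exact thO_cl (fun k hk => free_XF hcon hk) (by omega) (by omega) (by unfold bv; omega)
      (by unfold bv; omega) e
  have hall : (all 1 con).cl e0 = all 1 (con.sub 0 (.num tA)) := by
    show all 1 _ = all 1 _
    refine congrArg (all 1) ?_
    rw [sub_sb_num]
    refine Fm.sb_congr fun k hk => ?_
    have := hcon.free k hk
    interval_cases k
    · rw [update_of_ne (show (0 : ℕ) ≠ 1 by omega), update_self]; rfl
    · rw [update_of_ne (show (1 : ℕ) ≠ 0 by omega), update_self]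
  obtain ⟨u0, hu0⟩ : ∃ u0, u0 = s + F N := ⟨_, rfl⟩
  have hthS : ∀ e : ℕ → ℕ, (∀ j, e j ≤ N) → e 3 = c → Pr A u0 M ((thSO I J k D w).cl e) := by
    intro e heN h3
    refine (Pr.mem ?_ ?_).mono (show 1 ≤ u0 by omega) le_rfl
    · rw [thSO_cl hcon e (h3.trans hcB)]; exact hth
    · refine (Fm.len_cl heN).trans ?_
      rw [← hL]
      exact hMc _ (by omega)
  -- the negation of `Ξ`
  have p2 : Pr A u0 M ((imp (thO (bv 0) 3 13 (XF I J k D w D 0))
      (imp (all 1 con) .bot)).cl e0) := by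
    have : (imp (thO (bv 0) 3 13 (XF I J k D w D 0)) (imp (all 1 con) .bot)).cl e0 =
      imp ((thO (bv 0) 3 13 (XF I J k D w D 0)).cl e0)
        (imp ((all 1 con).cl e0) .bot) := rfl
    rw [this, hthO' e0 rfl rfl, hall]
    exact q2.mono (by omega) le_rfl
  have p3 : Pr A u0 M ((I.A 24 (.num 0) (x 13) (x 3) (x 0)).cl e0) := by
    rw [I.clA (by simp [Al]), Tm.cl_num]
    exact q3.mono (by omega) le_rfl
  have s1 := h7 e0 N M u0 he0N (hMc _ (by omega)) (by
    rw [List.forall_mem_cons, List.forall_mem_cons, List.forall_mem_singleton]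
    exact ⟨p2, hthS e0 he0N rfl, p3⟩)
  -- the conclusion
  set e1 := as [z, y, c, c, p, i, b, 0, 0, 0, 0, 0, 0, V', cN l, C] with he1
  have he1N : ∀ j, e1 j ≤ N := as_le (by
    simp only [List.forall_mem_cons, List.not_mem_nil, IsEmpty.forall_iff, implies_true, and_true]
    omega)
  obtain ⟨u1, hu1⟩ : ∃ u1, u1 = c7 * (u0 + 1) + u0 := ⟨_, rfl⟩
  have t1 : Pr A u1 M ((neg (thO (bv 0) 3 13 (XF I J k D w D 0))).cl e1) := by
    have e4 : (neg (thO (bv 0) 3 13 (XF I J k D w D 0))).cl e1 =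
        (neg (thO (bv 0) 3 13 (XF I J k D w D 0))).cl e0 := by
      show neg ((thO (bv 0) 3 13 (XF I J k D w D 0)).cl e1) =
        neg ((thO (bv 0) 3 13 (XF I J k D w D 0)).cl e0)
      rw [hthO' e1 rfl rfl, hthO' e0 rfl rfl]
    rw [e4]
    exact s1.mono (by omega) le_rfl
  have t2 := (g1 e1 N he1N rfl).mono (show f1 N ≤ u1 by omega) (show f1 N ≤ M by omega)
  have t3 := (g2 e1 N he1N (by rw [val_ndT]; exact hV')).mono
    (show f2 N ≤ u1 by omega) (show f2 N ≤ M by omega)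
  have t4 := (g3 e1 N he1N (by rw [val_ndT]; exact hp)).mono
    (show f3 N ≤ u1 by omega) (show f3 N ≤ M by omega)
  have t5 : Pr A u1 M ((J.A 0 (x 14) (x 0) .zero .zero).cl e1) := by
    rw [J.clA (by simp [Al])]
    exact (g4 l z N hz (by omega)).mono (by omega) (by omega)
  have t6 : Pr A u1 M ((I.A 11 (x 0) .zero .zero .zero).cl e1) := by
    rw [I.clA (by simp [Al])]
    exact q4.mono (by omega) le_rfl
  have t7 : Pr A u1 M ((YL I k (w (D + 1))).cl e1) := by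
    have e4 : (YL I k (w (D + 1))).cl e1 = (YL I k (w (D + 1))).cl
        (as [0, y, 0, 0, 0, i, 0, 0, 0, 0, 0, 0, 0, 0, 0, C]) := YL_cl rfl rfl rfl
    rw [e4]
    exact (g5 i C y N hi hki hT (by omega) hyN hy).mono (by omega) (by omega)
  have t8 : Pr A u1 M ((EF I k w 0 5).cl e1) := by
    have e4 : (EF I k w 0 5).cl e1 = (EF I k w 0 5).cl (as [0, 0, c, c, p, i, b]) :=
      EF_cl hcon (by omega) (by omega) rfl rfl rfl rfl
    rw [e4]
    exact q1.mono (by omega) le_rfl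
  have s2 := h8 e1 N M u1 he1N (hMc _ (by omega)) (by
    rw [List.forall_mem_cons, List.forall_mem_cons, List.forall_mem_cons, List.forall_mem_cons,
      List.forall_mem_cons, List.forall_mem_cons, List.forall_mem_cons, List.forall_mem_cons,
      List.forall_mem_singleton]
    exact ⟨t1, (hthS e1 he1N rfl).mono (by omega) le_rfl, t2, t8, t3, t4, t5, t6, t7⟩)
  have e5 : con.cl e1 = con.cl (as [z, y]) := hcon.cl_congr rfl rfl
  rw [e5] at s2
  have b0 : u0 ≤ (F N + 1) * (s + 1) := by rw [hu0]; exact cost0 s (F N)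
  have b1 : u1 ≤ ((c7 + 1) * ((F N + 1) + 1)) * (s + 1) := by rw [hu1]; exact cost1 c7 b0
  have b2 := cost1 c8 b1
  refine s2.mono (cost_fin ((Nat.le_add_right _ u1).trans b2) ?_) le_rfl
  exact le_mid _ _ _

end Helper31Con.ML

end

section

/-!
# The three cases
-/

namespace Helper31Con.ML

open Function Filter Fm

variable {con : Fm} {g : ℕ → ℕ} {s₀ : ℕ} (I : Iface (Rel con g s₀)) (J : Iface RM)
  {k D : ℕ} {w : ℕ → ℕ}

lemma mul_le_tb {k : ℕ} (i : ℕ) : k * i ≤ tb k i := by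
  have := add_le_tw (k * i) 2
  unfold tb; omega

lemma le_tb' {k : ℕ} (hk : 1 ≤ k) (i : ℕ) : i ≤ tb k i := by
  have := le_tb hk i
  omega

lemma Am_mem {B : List Fm} (m V : ℕ) : ∀ β ∈ B, β ∈ Am I J k D w B m V :=
  fun _ h => List.mem_cons_of_mem _ h

/-- Facts about a refuted version. -/
lemma low_facts (hcon : IsCon con) (hk : 1 ≤ k) {F : ℕ → ℕ} (hbase : ∀ᶠ B in rich, Base I F B)
    {m : ℕ} (hm : m ≤ D) (hwm : 1 ≤ w m) :
    ∃ s M : ℕ → ℕ, PB s ∧ PB M ∧ ∀ᶠ B in rich, ∀ A : List Fm, (∀ β ∈ B, β ∈ A) →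
      (∀ β ∈ B, TrueS β) → ∀ p b V i n Y, V = nd p b → n = nx k w m i → b < i →
      pk I J k D w B ≤ Y → V ≤ Y → m ≤ Y → Y ≤ tb k b → F Y ≤ tb k b →
      lc (Tmv I J k D w B m V) ≤ tb k b → lc (Am I J k D w B m V) ≤ tb k b →
      (∀ j < i, F (nx k w m j) ≤ n) →
      (∀ j, b < j → j < i → ¬ Prov (Tmv I J k D w B m V) (nx k w m j) .bot) →
      Prov (Tmv I J k D w B m V) n .bot →
      Pr A (s n) (M n) ((EF I k w m 5).cl
        (as [0, 0, pk I J k D w B, pk I J k D w B, p, i, b])) ∧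
      Pr A (s n) (M n) (imp (th (bv m) (pk I J k D w B) V (XF I J k D w (D - m) m))
        (imp (all 1 (con.sub 0 (.num (lc (Am I J k D w B m V))))) .bot)) ∧
      Pr A (s n) (M n) (I.A 24 (.num m) (.num V) (.num (pk I J k D w B))
        (.num (lc (Am I J k D w B m V)))) := by
  obtain ⟨fw, hfw, gw⟩ := cf_step I k w hcon m
  obtain ⟨fe, hfe, ge⟩ := ef_step I k w hcon m
  set L := (thO (bv m) 3 13 (XF I J k D w (D - m) m)).len with hL
  set LL : ℕ → ℕ := fun n => 5 * (5 * (n + (con.len * (n + 1) + 3) + 2) + L * (n + 1) + 2) + n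
    with hLL
  have hLLP : PB LL := by
    have h1 : PB (fun n => n + 1) := PB.id.add (PB.const 1)
    exact ((PB.const 5).mul ((((PB.const 5).mul ((PB.id.add (((PB.const con.len).mul h1).add
      (PB.const 3))).add (PB.const 2))).add ((PB.const L).mul h1)).add (PB.const 2))).add PB.id
  set M : ℕ → ℕ := fun n => fw n + fe n + LL n with hM
  have hMP : PB M := (hfw.add hfe).add hLLP
  set P1 : ℕ → ℕ := fun n => fw n * (n + 1) with hP1
  have hP1P : PB P1 := hfw.mul (PB.id.add (PB.const 1))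
  set P2 : ℕ → ℕ := fun n => n * (fe n + P1 n) with hP2
  have hP2P : PB P2 := PB.id.mul (hfe.add hP1P)
  set s : ℕ → ℕ := fun n => P2 n + 26 * n with hs
  have hsP : PB s := hP2P.add ((PB.const 26).mul PB.id)
  refine ⟨s, M, hsP, hMP, ?_⟩
  filter_upwards [rich_up gw, rich_up ge, rich_up hbase] with
    B gw ge hF A hBA hB p b V i n Y hV hn hbi hpk hVY hmY hY hFY hT hA hFj hj hp
  replace gw := gw A hBA
  replace ge := ge A hBA
  replace hF := hF A hBA
  have hpV := lt_nd_l p b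
  have hbV := lt_nd_r p b
  rw [← hV] at hpV hbV
  have htbn : tb k i ≤ n := by rw [hn]; exact tb_le_nx hwm
  have htbb : tb k b ≤ tb k i := tb_mono hbi.le
  have hii : i ≤ tb k i := le_tb' hk i
  have hLLn : LL n = 5 * (5 * (n + (con.len * (n + 1) + 3) + 2) + L * (n + 1) + 2) + n := rfl
  have hMn : M n = fw n + fe n + LL n := rfl
  have hP1n : P1 n = fw n * (n + 1) := rfl
  have hP2n : P2 n = n * (fe n + P1 n) := rfl
  have hsn : s n = P2 n + 26 * n := rfl
  obtain ⟨c, hc⟩ : ∃ c, c = pk I J k D w B := ⟨_, rfl⟩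
  obtain ⟨t, ht⟩ : ∃ t, t = lc (Tmv I J k D w B m V) := ⟨_, rfl⟩
  obtain ⟨tA, htA⟩ : ∃ t, t = lc (Am I J k D w B m V) := ⟨_, rfl⟩
  rw [← hc] at hpk
  rw [← ht] at hT
  rw [← htA] at hA
  have hcdt : Pr A (F Y) (F Y) (I.A 25 (.num m) (.num V) (.num c) (.num t)) :=
    hF.cdt Y m V c t hmY hVY hpk (by rw [hc, ht]; exact (cdT_iff hm).mpr rfl)
  have hcda : Pr A (F Y) (F Y) (I.A 24 (.num m) (.num V) (.num c) (.num tA)) :=
    hF.cda Y m V c tA hmY hVY hpk (by rw [hc, htA]; exact (cdA_iff hm).mpr rfl)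
  -- consistency before the node
  have q1 : ∀ j, b < j → j < i → Pr A (P1 n) (M n)
      ((CF I k w m (x 5) (ndT (x 4) (x 6))).cl (as [0, 0, c, c, p, j, b])) := by
    intro j hbj hji
    have h1 : nx k w m j ≤ n := by rw [hn]; exact nx_mono hji.le
    have h2 : tb k b ≤ tb k j := tb_mono hbj.le
    have h3 : tb k j ≤ nx k w m j := tb_le_nx hwm
    have h5 : j ≤ tb k j := le_tb' hk j
    have h6 : k * j ≤ tb k j := mul_le_tb j
    have h7 := hF.cons (nx k w m j) (Tmv I J k D w B m V) (nx k w m j)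
      (Tmv_sentence hcon hB m V) (by rw [← ht]; omega) le_rfl (hj j hbj hji)
    rw [← ht] at h7
    have h8 := hFj j hji
    exact gw c p b V j (nx k w m j) t n (M n) n hV rfl (by omega) (by omega) (by omega)
      (by omega) (by omega) (by omega) (by omega) (by omega)
      (h7.mono (by omega) (by omega)) (hcdt.mono (by omega) (by omega))
  have q2 : Pr A (s n) (M n) ((EF I k w m 5).cl (as [0, 0, c, c, p, i, b])) := by
    have := ge c p i b n (M n) (P1 n) (by omega) (by omega) hbi (by omega) (by omega) q1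
    refine this.mono ?_ le_rfl
    have h1 : i * (fe n + P1 n) ≤ P2 n := by
      rw [hP2n]; exact Nat.mul_le_mul_right _ (by omega)
    omega
  -- the refutation
  have q3 : Pr A (s n) (M n) (imp (th (bv m) c V (XF I J k D w (D - m) m))
      (imp (all 1 (con.sub 0 (.num tA))) .bot)) := by
    have r1 : Pr (conS con (Am I J k D w B m V) :: Am I J k D w B m V) n n .bot := hp.pr
    have r2 := r1.ded (hcon.conS_sentence _)
    have r3 : Pr (th (bv m) (pk I J k D w B) V (XF I J k D w (D - m) m) :: B) (5 * n)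
        (5 * (n + (conS con (Am I J k D w B m V)).len + 2))
        (imp (conS con (Am I J k D w B m V)) .bot) := r2
    have r4 := (r3.ded (th_sentence hcon m V)).monoT hBA
    have l1 : (conS con (Am I J k D w B m V)).len ≤ con.len * (n + 1) + 3 := by
      have h4 := len_sub_le con (lc (Am I J k D w B m V))
      rw [← htA] at h4
      have h5 : con.len * (tA + 1) ≤ con.len * (n + 1) := Nat.mul_le_mul_left _ (by omega)
      show (con.sub 0 (.num (lc (Am I J k D w B m V)))).len + (1 + 1) + 1 ≤ _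
      rw [← htA]
      omega
    have l2 : (th (bv m) (pk I J k D w B) V (XF I J k D w (D - m) m)).len ≤ L * (n + 1) := by
      have h5 : (thO (bv m) 3 13 (XF I J k D w (D - m) m)).cl
          (as [0, 0, 0, pk I J k D w B, 0, 0, 0, 0, 0, 0, 0, 0, 0, V]) =
          th (bv m) (pk I J k D w B) V (XF I J k D w (D - m) m) :=
        thO_cl (fun k hk => free_XF hcon hk) (by omega) (by omega) (by unfold bv; omega)
          (by unfold bv; omega) _
      rw [← h5, hL]
      exact Fm.len_cl (as_le (by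
        simp only [List.forall_mem_cons, List.not_mem_nil, IsEmpty.forall_iff, implies_true,
          and_true]
        omega))
    have h6 : all 1 (con.sub 0 (.num tA)) = conS con (Am I J k D w B m V) := by rw [htA]; rfl
    rw [h6, hc]
    exact r4.mono (by omega) (by omega)
  rw [← htA, ← hc]
  exact ⟨q2, q3, hcda.mono (by omega) (by omega)⟩

/-! ### Thresholds -/

lemma eb_le_tb {F : ℕ → ℕ} (hF : EB F) : ∃ h, ∀ k b, 2 ≤ k → h ≤ b → F b ≤ tb k b := by
  obtain ⟨h, hh⟩ := hF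
  refine ⟨2 * h, fun k b hk hb => ?_⟩
  have h1 : b + h ≤ tw h b := by have := add_le_tw h b; omega
  have h2 : b ≤ tw b 2 := by have := add_le_tw b 2; omega
  calc F b ≤ tw h (b + h) := hh b
    _ ≤ tw h (tw h b) := tw_mono _ h1
    _ = tw (h + h) b := (tw_add _ _ _).symm
    _ ≤ tw (h + h) (tw b 2) := tw_mono _ h2
    _ = tw (h + h + b) 2 := (tw_add _ _ _).symm
    _ ≤ tb k b := tw_le_tw (by nlinarith) 2

/-- Bound for the versions. -/
def qq (b : ℕ) : ℕ := (b + b) * (b + b) + b + 1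

lemma nd_le_qq {p b b' : ℕ} (h : p ≤ b') (h' : b ≤ b') : nd p b ≤ qq b' := by
  have h1 : (p + b) * (p + b) ≤ (b' + b') * (b' + b') := Nat.mul_le_mul (by omega) (by omega)
  unfold nd qq
  nlinarith

lemma qq_eb : EB qq :=
  (((EB.id.add EB.id).mul (EB.id.add EB.id)).add EB.id).add (EB.const 1)

lemma qq_ge (b : ℕ) : b ≤ qq b := by unfold qq; omega

/-- The thresholds. -/
lemma thr {F : ℕ → ℕ} (hF : EB F) : ∃ h, ∀ (B : List Fm),
    ∀ k D w b m V, 2 ≤ k → m ≤ D → D ≤ b → h ≤ b → V ≤ qq b → pk I J k D w B ≤ b →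
      pk I J k D w B ≤ qq b ∧ qq b ≤ tb k b ∧ F (qq b) ≤ tb k b ∧
      lc (Tmv I J k D w B m V) ≤ tb k b ∧ lc (Am I J k D w B m V) ≤ tb k b := by
  obtain ⟨h1, hh1⟩ := eb_le_tb qq_eb
  obtain ⟨h2, hh2⟩ := eb_le_tb (hF.comp qq_eb)
  obtain ⟨h3, hh3⟩ := eb_le_tb ((Tb_eb con).comp qq_eb)
  obtain ⟨h4, hh4⟩ := eb_le_tb (Zb_eb.comp qq_eb)
  refine ⟨h1 + h2 + h3 + h4, fun B k D w b m V hk hm hD hb hVq hpk => ?_⟩
  have hbq := qq_ge b
  refine ⟨by omega, hh1 k b hk (by omega), hh2 k b hk (by omega), ?_, ?_⟩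
  · exact (cdT_le ((cdT_iff hm).mpr rfl) (by omega : m ≤ qq b) hVq (by omega)).trans
      (hh3 k b hk (by omega))
  · exact (cdA_le ((cdA_iff hm).mpr rfl) (by omega : m ≤ qq b) hVq (by omega)).trans
      (hh4 k b hk (by omega))

end Helper31Con.ML

end

section

/-!
# The case of the top level
-/

namespace Helper31Con.ML

open Function Filter Fm

variable {con : Fm} {g : ℕ → ℕ} {s₀ : ℕ} (I : Iface (Rel con g s₀)) (J : Iface RM)
  {k D : ℕ} {w : ℕ → ℕ}

/-- Consistent lists of sentences. -/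
def GoodT (S : List Fm) : Prop := (∀ φ ∈ S, Fm.Sentence φ) ∧ ∀ n, ¬ Prov S n .bot

lemma eff_list (hcon : IsCon con) : ∀ᶠ B in rich, ∀ L : List (List Fm), (∀ S ∈ L, GoodT S) →
    ∃ c, ∀ S ∈ L, ∀ K, Prov B (2 ^ (c * (K + 1))) (conN con S K) := by
  filter_upwards [eff_brute hcon] with B h L
  induction L with
  | nil => intro _; exact ⟨0, fun S hS => absurd hS (by simp)⟩
  | cons S L ih =>
    intro hL
    obtain ⟨c, hc⟩ := ih fun S' hS' => hL S' (List.mem_cons_of_mem _ hS')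
    obtain ⟨hS1, hS2⟩ := hL S List.mem_cons_self
    obtain ⟨c', hc'⟩ := h S hS1 hS2
    refine ⟨c + c', fun S' hS' K => ?_⟩
    rcases List.mem_cons.mp hS' with rfl | hS'
    · refine (hc' K).mono (Nat.pow_le_pow_right (by omega) (Nat.mul_le_mul_right _ (by omega)))
    · refine (hc S' hS' K).mono (Nat.pow_le_pow_right (by omega)
        (Nat.mul_le_mul_right _ (by omega)))

lemma se_absorb {c K : ℕ} (hK : 1 ≤ K) : 2 ^ (c * (K + 1)) ≤ 2 ^ (2 * c * K) := by
  refine Nat.pow_le_pow_right (by omega) ?_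
  calc c * (K + 1) ≤ c * (2 * K) := Nat.mul_le_mul_left _ (by omega)
    _ = 2 * c * K := by ring

lemma tb_pow_mono {k i a b : ℕ} (h : a ≤ b) : tb k i ^ a ≤ tb k i ^ b :=
  Nat.pow_le_pow_right (by have := two_le_tb k i; omega) h

lemma tb_le_pow {k i a : ℕ} (h : 1 ≤ a) : tb k i ≤ tb k i ^ a := by
  calc tb k i = tb k i ^ 1 := (pow_one _).symm
    _ ≤ _ := tb_pow_mono h

/-- The top level. -/
lemma case_top (hcon : IsCon con) (hk : 1 ≤ k) (hw : Monotone w) (hw0 : 1 ≤ w 0) {F : ℕ → ℕ}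
    (hbase : ∀ᶠ B in rich, Base I F B) :
    ∀ᶠ B in rich, (∀ β ∈ B, TrueS β) → ∀ (L : List (List Fm)) (C v : ℕ), (∀ S ∈ L, GoodT S) →
      (∀ n, ¬ Prov (Tmv I J k D w B D (nd (nd (cN (L.map lc)) C) v)) n .bot) →
      ∃ (A : List Fm) (c i₀ : ℕ), (∀ φ ∈ A, TrueS φ) ∧ (∀ φ ∈ B, φ ∈ A) ∧
        (∀ n, ¬ Prov (conS con A :: A) n .bot) ∧
        ∀ i ≥ i₀, ∀ n ≤ nx k w D i,
          Prov A (2 ^ (c * tb k i ^ w (D + 1))) (conN con (conS con A :: A) n) := by
  obtain ⟨f1, hf1, g1⟩ := top_step I J k D w hcon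
  obtain ⟨f2, hf2, g2⟩ := ft_fact hcon J
  obtain ⟨fd, Fd, hfd, gd⟩ := con_down hcon
  obtain ⟨fd', hfd'P, hfd'm, hfd'⟩ := hfd.exists_mono
  filter_upwards [rich_up g1, rich_up g2, rich_up gd, rich_up hbase, eff_list hcon] with
    B g1 g2 gd hF hE hB L C v hL hTcons
  obtain ⟨a, ha⟩ : ∃ a, a = cN (L.map lc) := ⟨_, rfl⟩
  obtain ⟨p, hp⟩ : ∃ p, p = nd a C := ⟨_, rfl⟩
  obtain ⟨V, hV⟩ : ∃ V, V = nd p v := ⟨_, rfl⟩
  rw [← ha, ← hp, ← hV] at hTcons
  set A := Am I J k D w B D V with hAdef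
  have hBA : ∀ β ∈ B, β ∈ A := Am_mem I J D V
  replace g1 := g1 A hBA
  replace g2 := g2 A hBA
  replace gd := gd A hBA
  replace hF := hF A hBA
  obtain ⟨cS, hcS⟩ := hE L hL
  obtain ⟨c, hc⟩ : ∃ c, c = pk I J k D w B := ⟨_, rfl⟩
  obtain ⟨t, ht⟩ : ∃ t, t = lc (Tmv I J k D w B D V) := ⟨_, rfl⟩
  obtain ⟨κ, hκ⟩ : ∃ κ, κ = F (c + V + D) := ⟨_, rfl⟩
  obtain ⟨K0, hK0⟩ : ∃ K0, K0 = Fd t := ⟨_, rfl⟩
  have hX := sX_true hcon hB (I := I) (J := J) (k := k) (w := w) le_rfl hTcons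
  have hcdt : Pr A κ κ (I.A 25 (.num D) (.num V) (.num c) (.num t)) := by
    rw [hκ]
    exact hF.cdt (c + V + D) D V c t (by omega) (by omega) (by omega)
      (by rw [hc, ht]; exact (cdT_iff le_rfl).mpr rfl)
  have hpV := lt_nd_l p v
  have hvV := lt_nd_r p v
  have hap := lt_nd_l a C
  have hCp := lt_nd_r a C
  rw [← hV] at hpV hvV
  rw [← hp] at hap hCp
  set NN : ℕ → ℕ := fun K => 2 ^ K + C * K + K + (c + V + t) with hNN
  set ss : ℕ → ℕ := fun K => 2 ^ (cS * (C * K + 1)) with hss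
  set s3 : ℕ → ℕ := fun K => f2 (NN K) * (ss K + 1) + κ with hs3
  set MM : ℕ → ℕ := fun K => f1 (NN K) + f2 (NN K) + ss K + κ with hMM
  set PP : ℕ → ℕ := fun K => (f1 (NN K) * (s3 K + 1)) * MM K with hPP
  have z1 : SE (fun K => 2 ^ K) := ⟨1, fun K => Nat.pow_le_pow_right (by omega) (by omega)⟩
  have z2 : SE NN := ((z1.add ((SE.const C).mul SE.id)).add SE.id).add (SE.const _)
  have z3 : SE ss := by
    refine (SE.lin 2 (cS * C) cS).of_le fun K => le_of_eq (congrArg (2 ^ ·) ?_)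
    ring
  have z4 : SE (fun K => f1 (NN K)) := SE.pb hf1 z2
  have z5 : SE (fun K => f2 (NN K)) := SE.pb hf2 z2
  have z6 : SE s3 := (z5.mul (z3.add (SE.const 1))).add (SE.const κ)
  have z7 : SE MM := ((z4.add z5).add z3).add (SE.const κ)
  have z8 : SE PP := (z4.mul (z6.add (SE.const 1))).mul z7
  have z9 : SE (fun K => fd' (2 ^ K + PP K + K0)) :=
    SE.pb hfd'P ((z1.add z8).add (SE.const K0))
  obtain ⟨c1, hc1⟩ := z9
  refine ⟨A, 2 * c1, v + 1, Am_true hcon hB hX, hBA, hTcons, fun i hi n hn => ?_⟩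
  obtain ⟨T, hT⟩ : ∃ T, T = tb k i := ⟨_, rfl⟩
  obtain ⟨K, hK⟩ : ∃ K, K = tb k i ^ w (D + 1) := ⟨_, rfl⟩
  obtain ⟨n', hn'⟩ : ∃ n', n' = nx k w D i := ⟨_, rfl⟩
  have hT2 : 2 ≤ T := by rw [hT]; exact two_le_tb k i
  have hTK : T ≤ K := by rw [hT, hK]; exact tb_le_pow (hw0.trans (hw (Nat.zero_le _)))
  have hiT : i ≤ T := by rw [hT]; exact le_tb' hk i
  have hkiT : k * i ≤ T := by rw [hT]; exact mul_le_tb i
  have hnK : n' ≤ 2 ^ K := by
    rw [hn', hK]
    exact Nat.pow_le_pow_right (by omega) (tb_pow_mono (hw (by omega)))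
  have hNNK : NN K = 2 ^ K + C * K + K + (c + V + t) := rfl
  have hssK : ss K = 2 ^ (cS * (C * K + 1)) := rfl
  have hs3K : s3 K = f2 (NN K) * (ss K + 1) + κ := rfl
  have hMMK : MM K = f1 (NN K) + f2 (NN K) + ss K + κ := rfl
  have q1 : ∀ z ∈ L.map lc, Pr A (ss K) (MM K) (con.cl (as [z, C * K])) := by
    intro z hz
    obtain ⟨S, hS, rfl⟩ := List.mem_map.mp hz
    have h1 := (hcS S hS (C * K)).pr.monoT hBA
    rw [hcon.conN_eq] at h1
    exact h1.mono (by omega) (by omega)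
  have q2 := g2 (L.map lc) (C * K) (NN K) (MM K) (ss K) (by omega) (by omega) (by omega) q1
  rw [← ha] at q2
  have key := g1 c a C p v V i (C * K) t n' (NN K) (MM K) (s3 K) hp hV (by omega)
    (by rw [hK]) hn' (by omega) (by omega) (by omega) (by omega) (by omega) (by omega)
    (by omega) (by omega) (by omega) (by
      rw [hAdef, hc]
      unfold Am
      rw [Nat.sub_self]
      exact List.mem_cons_self) (q2.mono (by omega) le_rfl)
    (hcdt.mono (by omega) (by omega))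
  have key2 := gd (Tmv I J k D w B D V) n' n _ (Tmv_sentence hcon hB D V) (by omega) (by
    rw [← ht]; exact key.prov)
  have hTe : conS con A :: A = Tmv I J k D w B D V := rfl
  rw [hTe, hcon.conN_eq]
  refine key2.mono ((hfd' _).trans ((hfd'm ?_).trans ((hc1 K).trans ?_)))
  · rw [← ht, ← hK0]
    exact Nat.add_le_add_right (Nat.add_le_add_right hnK _) _
  · rw [← hK]
    exact se_absorb (by omega)

end Helper31Con.ML

end
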